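import Pool.Agent.H487.GL.Up
import Pool.Agent.H487.NZ.Cont

/-!
# From the critical line to the strip
-/

set_option autoImplicit false

open MeasureTheory Set Filter Topology
open scoped ComplexConjugate

namespace Pool.Agent.H487.GL

open NB NZ

/-- size of the polynomial `∏ (s - μ_j)` -/
lemma poly_up {m : ℕ} (μ : Fin m → ℂ) (y u v R : ℝ) (hR : 2 + |u| + |v| ≤ R) :
    ‖∏ j, (pt y u v - μ j)‖ ≤ (∏ j, (1 + ‖(y : ℂ) * Complex.I - μ j‖)) * R ^ m := by
  have e : R ^ m = ∏ _j : Fin m, R := by rw [Finset.prod_const, Finset.card_univ, Fintype.card_fin]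
  rw [norm_prod, e, ← Finset.prod_mul_distrib]
  refine Finset.prod_le_prod (fun j _ => norm_nonneg _) fun j _ => ?_
  have h1 : pt y u v - μ j = ((y : ℂ) * Complex.I - μ j) + (((1 / 2 + u : ℝ) : ℂ) + ((v : ℝ) : ℂ) * Complex.I) := by
    unfold pt; push_cast; ring
  rw [h1]
  refine (norm_add_le _ _).trans ?_
  have h2 : ‖((1 / 2 + u : ℝ) : ℂ) + ((v : ℝ) : ℂ) * Complex.I‖ ≤ 1 / 2 + |u| + |v| := by
    refine (norm_add_le _ _).trans ?_
    rw [norm_mul, Complex.norm_real, Complex.norm_real, Complex.norm_I, mul_one, Real.norm_eq_abs, Real.norm_eq_abs]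
    have := abs_add_le (1 / 2) u
    rw [abs_of_pos (by norm_num : (0:ℝ) < 1 / 2)] at this
    linarith
  have h3 := norm_nonneg ((y : ℂ) * Complex.I - μ j)
  have h4 := abs_nonneg u
  have h5 := abs_nonneg v
  nlinarith

lemma poly_lo {m : ℕ} {μ : Fin m → ℂ} (hμ : ∀ j, (μ j).re ≤ 1 / 2) {y u v A u₁ : ℝ} (hu₁ : 0 < u₁) (hu1 : u₁ ≤ 1) (hu : u₁ ≤ u)
    (hu2 : u ≤ 2) (hv : |v| ≤ A) :
    (∏ j, (1 + ‖(y : ℂ) * Complex.I - μ j‖)) * (u₁ / (7 + 2 * A)) ^ m ≤ ‖∏ j, (pt y u v - μ j)‖ := by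
  have hA : 0 ≤ A := (abs_nonneg v).trans hv
  have e : (u₁ / (7 + 2 * A)) ^ m = ∏ _j : Fin m, (u₁ / (7 + 2 * A)) := by
    rw [Finset.prod_const, Finset.card_univ, Fintype.card_fin]
  rw [norm_prod, e, ← Finset.prod_mul_distrib]
  refine Finset.prod_le_prod (fun j _ => by positivity) fun j _ => ?_
  have h1 : (y : ℂ) * Complex.I - μ j = (pt y u v - μ j) - (((1 / 2 + u : ℝ) : ℂ) + ((v : ℝ) : ℂ) * Complex.I) := by
    unfold pt; push_cast; ring
  have h2 : ‖((1 / 2 + u : ℝ) : ℂ) + ((v : ℝ) : ℂ) * Complex.I‖ ≤ 5 / 2 + A := by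
    refine (norm_add_le _ _).trans ?_
    rw [norm_mul, Complex.norm_real, Complex.norm_real, Complex.norm_I, mul_one, Real.norm_eq_abs, Real.norm_eq_abs,
      abs_of_pos (by linarith : 0 < 1 / 2 + u)]
    linarith
  have h3 : ‖(y : ℂ) * Complex.I - μ j‖ ≤ ‖pt y u v - μ j‖ + (5 / 2 + A) := by
    rw [h1]
    exact (norm_sub_le _ _).trans (by linarith)
  have h4 : u₁ ≤ ‖pt y u v - μ j‖ := by
    have := Complex.re_le_norm (pt y u v - μ j)
    rw [Complex.sub_re, pt_re] at this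
    linarith [hμ j]
  have h5 := norm_nonneg ((y : ℂ) * Complex.I - μ j)
  rw [← mul_div_assoc, div_le_iff₀ (by linarith)]
  rcases le_total (1 + ‖(y : ℂ) * Complex.I - μ j‖) (7 + 2 * A) with h | h
  · calc (1 + ‖(y : ℂ) * Complex.I - μ j‖) * u₁ ≤ (7 + 2 * A) * ‖pt y u v - μ j‖ := by gcongr
      _ = _ := mul_comm _ _
  · have h6 : (1 + ‖(y : ℂ) * Complex.I - μ j‖) / 2 ≤ ‖pt y u v - μ j‖ := by linarith
    have h7 : (1 + ‖(y : ℂ) * Complex.I - μ j‖) * u₁ ≤ (1 + ‖(y : ℂ) * Complex.I - μ j‖) * 1 := by gcongr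
    have h8 : ‖pt y u v - μ j‖ * 7 ≤ ‖pt y u v - μ j‖ * (7 + 2 * A) := by gcongr; linarith
    linarith

theorem lin_of_line (m : ℕ) (K A δ' : ℝ) (hK : 1 ≤ K) (hA : 0 ≤ A) (hδ' : 0 < δ') :
    ∃ A' δ ℓ₀ : ℝ, 0 < A' ∧ 0 < δ ∧ 1 ≤ ℓ₀ ∧ ∀ (X : ℂ → ℂ) (M ℓ y : ℝ), Base X 2 K M ℓ y → ℓ₀ ≤ ℓ →
      ∀ μ : Fin m → ℂ, (∀ j, (μ j).re ≤ 1 / 2) →
      (∀ v : ℝ, |v| ≤ A' → ‖(∏ j, (pt y 0 v - μ j)) * X (pt y 0 v)‖ ≤
        M * (∏ j, (1 + ‖(y : ℂ) * Complex.I - μ j‖)) * Real.exp (δ * ℓ)) →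
      Lin X 2 M ℓ y δ' A := by
  set δ : ℝ := δ' / 16 with hδ
  set c : ℝ := δ' / 32 with hc
  have hδ0 : 0 < δ := by positivity
  have hc0 : 0 < c := by positivity
  set A₁ : ℝ := 2 * A + 3 + 3 / c with hA₁
  have hA₁3 : 2 * A + 3 ≤ A₁ := by rw [hA₁]; linarith [div_nonneg (by norm_num : (0:ℝ) ≤ 3) hc0.le]
  have hA₁0 : 0 < A₁ := by linarith
  have hcA : 3 ≤ c * A₁ ^ 2 := by
    have h1 : 3 / c ≤ A₁ := by rw [hA₁]; linarith
    rw [div_le_iff₀ hc0] at h1
    have h2 : A₁ ≤ A₁ ^ 2 := le_self_pow₀ (by linarith) two_ne_zero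
    have h3 := mul_le_mul_of_nonneg_left h2 hc0.le
    linarith
  set u₁ : ℝ := min 1 (δ' / 36) with hu₁
  have hu₁0 : 0 < u₁ := by positivity
  have hu₁1 : u₁ ≤ 1 := min_le_left _ _
  have hu₁δ : u₁ ≤ δ' / 36 := min_le_right _ _
  set c₁ : ℝ := u₁ / (7 + 2 * A₁) with hc₁
  have hc₁0 : 0 < c₁ := by positivity
  set R : ℝ := 4 + 2 * A₁ with hR
  set E : ℝ := K * (5 + 4 * A₁ ^ 2) + R ^ m + (c₁⁻¹) ^ m with hE
  have hE0 : 0 ≤ E := by positivity
  have hEK : K * (5 + 4 * A₁ ^ 2) + R ^ m ≤ E := by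
    have : 0 ≤ (c₁⁻¹) ^ m := by positivity
    linarith
  refine ⟨2 * A₁, δ, max 1 (E / δ), by positivity, hδ0, le_max_left _ _, fun X M ℓ y B hℓ μ hμ hline => ?_⟩
  have hℓ1 : 1 ≤ ℓ := (le_max_left _ _).trans hℓ
  have hℓE : E ≤ δ * ℓ := by
    have := (le_max_right _ _).trans hℓ
    rw [div_le_iff₀ hδ0] at this
    linarith
  have hM := B.hM
  set P₀ : ℝ := ∏ j, (1 + ‖(y : ℂ) * Complex.I - μ j‖) with hP₀
  have hP₀0 : 0 < P₀ := Finset.prod_pos fun j _ => by positivity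
  have hRm : R ^ m ≤ Real.exp (R ^ m) := by linarith [Real.add_one_le_exp (R ^ m)]
  have hcm : (c₁⁻¹) ^ m ≤ Real.exp ((c₁⁻¹) ^ m) := by linarith [Real.add_one_le_exp ((c₁⁻¹) ^ m)]
  -- the entire function with the poles of the gamma factor removed
  set F : ℂ → ℂ := fun z => (∏ j, (z - μ j)) * X z with hF
  have hFd : Differentiable ℂ F := by
    refine Differentiable.mul ?_ B.diff
    fun_prop
  set G : ℂ → ℂ := fun z => F (z + 1) * Complex.exp (-(ℓ * (z + 1 / 2))) with hG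
  have hGd : Differentiable ℂ G := by
    refine Differentiable.mul (hFd.comp (by fun_prop)) (by fun_prop)
  have hpt : ∀ u v : ℝ, pt y u v + 1 = pt y (u + 1) v := by
    intro u v; unfold pt; push_cast; ring
  have hGn : ∀ u v : ℝ, ‖G (pt y u v)‖ = ‖F (pt y (u + 1) v)‖ * Real.exp (-(ℓ * (u + 1))) := by
    intro u v
    simp only [hG]
    rw [hpt, norm_mul, Complex.norm_exp]
    congr 2
    rw [Complex.neg_re, Complex.re_ofReal_mul, Complex.add_re, pt_re]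
    norm_num
    left
    ring
  set P : ℝ := M * P₀ * Real.exp (δ * ℓ) with hP
  have hP0 : 0 < P := by positivity
  have hFup : ∀ u v : ℝ, 0 ≤ u → u ≤ 2 → |v| ≤ 2 * A₁ → ‖F (pt y u v)‖ ≤ P * Real.exp (ℓ * 2) := by
    intro u v hu hu2 hv
    simp only [hF]
    rw [norm_mul]
    have h1 := poly_up μ y u v R (by rw [abs_of_nonneg hu, hR]; linarith)
    have h2 := B.up u v
    have hmax : max |u| 2 = 2 := max_eq_right (by rw [abs_of_nonneg hu]; exact hu2)
    rw [hmax] at h2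
    have hv2 : v ^ 2 ≤ 4 * A₁ ^ 2 := by
      rw [← sq_abs v]
      have := pow_le_pow_left₀ (abs_nonneg v) hv 2
      linarith
    have hu4 : u ^ 2 ≤ 4 := by nlinarith
    have hKK : K * (1 + u ^ 2 + v ^ 2) ≤ K * (5 + 4 * A₁ ^ 2) := mul_le_mul_of_nonneg_left (by linarith) (by linarith)
    calc ‖∏ j, (pt y u v - μ j)‖ * ‖X (pt y u v)‖
        ≤ (P₀ * Real.exp (R ^ m)) * (M * Real.exp (ℓ * 2 + K * (5 + 4 * A₁ ^ 2))) := by
          refine mul_le_mul (h1.trans (mul_le_mul_of_nonneg_left hRm hP₀0.le)) (h2.trans ?_) (norm_nonneg _) (by positivity)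
          exact mul_le_mul_of_nonneg_left (Real.exp_le_exp.mpr (by linarith)) hM.le
      _ = M * P₀ * Real.exp (K * (5 + 4 * A₁ ^ 2) + R ^ m) * Real.exp (ℓ * 2) := by
          rw [Real.exp_add (ℓ * 2), Real.exp_add (K * (5 + 4 * A₁ ^ 2))]; ring
      _ ≤ _ := by
          rw [hP]
          gcongr
          linarith
  have hFmain : ∀ u v : ℝ, 0 ≤ u → u ≤ 2 → |v| ≤ A₁ → ‖F (pt y u v)‖ ≤ M * P₀ * Real.exp (ℓ * u + (δ + 4 * c) * ℓ) := by
    intro u v hu hu2 hv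
    have h1 := strip_max hGd (y := y) (β := 1) (A := A₁) (c := c) (D := 3) (ℓ := ℓ) (P := P) one_pos hA₁0 hc0.le (by linarith)
      hP0.le hcA (fun v hv => ?_) (fun u v hu hv => ?_) (u₀ := u - 1) (v₀ := v) (abs_le.mpr ⟨by linarith, by linarith⟩) hv
    · rw [hGn, sub_add_cancel] at h1
      have h2 : ‖F (pt y u v)‖ = (‖F (pt y u v)‖ * Real.exp (-(ℓ * u))) * Real.exp (ℓ * u) := by
        rw [mul_assoc, ← Real.exp_add]
        simp
      rw [h2]
      calc (‖F (pt y u v)‖ * Real.exp (-(ℓ * u))) * Real.exp (ℓ * u) ≤ (P * Real.exp (4 * c * 1 ^ 2 * ℓ)) * Real.exp (ℓ * u) := by gcongr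
        _ = _ := by
          rw [hP, mul_assoc, mul_assoc (M * P₀), ← Real.exp_add, ← Real.exp_add]
          congr 2
          ring
    · rw [hGn, hGn]
      constructor
      · have h2 := hFup (1 + 1) v (by norm_num) (by norm_num) hv
        calc ‖F (pt y (1 + 1) v)‖ * Real.exp (-(ℓ * (1 + 1))) ≤ (P * Real.exp (ℓ * 2)) * Real.exp (-(ℓ * (1 + 1))) := by gcongr
          _ = P := by
            rw [mul_assoc, ← Real.exp_add]
            have : ℓ * 2 + -(ℓ * (1 + 1)) = 0 := by ring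
            rw [this, Real.exp_zero, mul_one]
      · have h2 := hline v hv
        rw [neg_add_cancel, mul_zero, neg_zero, Real.exp_zero, mul_one]
        exact h2
    · rw [hGn]
      obtain ⟨b1, b2⟩ := abs_le.mp hu
      have h2 := hFup (u + 1) v (by linarith) (by linarith) hv
      calc ‖F (pt y (u + 1) v)‖ * Real.exp (-(ℓ * (u + 1))) ≤ (P * Real.exp (ℓ * 2)) * 1 := by
            refine mul_le_mul h2 (Real.exp_le_one_iff.mpr ?_) (Real.exp_pos _).le (by positivity)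
            have : 0 ≤ ℓ * (u + 1) := mul_nonneg (by linarith) (by linarith)
            linarith
        _ ≤ _ := by
            rw [mul_one]
            exact mul_le_mul_of_nonneg_left (Real.exp_le_exp.mpr (by linarith)) hP0.le
  -- away from the line
  have hfar : ∀ u v : ℝ, u₁ ≤ u → u ≤ 2 → |v| ≤ A₁ → ‖X (pt y u v)‖ ≤ M * Real.exp (ℓ * u + (2 * δ + 4 * c) * ℓ) := by
    intro u v hu hu2 hv
    have h1 := hFmain u v (by linarith) hu2 hv
    have h2 := poly_lo hμ hu₁0 hu₁1 hu hu2 hv (y := y)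
    rw [← hP₀, ← hc₁] at h2
    have h3 : (P₀ * c₁ ^ m) * ‖X (pt y u v)‖ ≤ (P₀ * c₁ ^ m) * (M * Real.exp (ℓ * u + (2 * δ + 4 * c) * ℓ)) := by
      calc (P₀ * c₁ ^ m) * ‖X (pt y u v)‖ ≤ ‖∏ j, (pt y u v - μ j)‖ * ‖X (pt y u v)‖ := by gcongr
        _ = ‖F (pt y u v)‖ := by simp only [hF]; rw [norm_mul]
        _ ≤ M * P₀ * Real.exp (ℓ * u + (δ + 4 * c) * ℓ) := h1
        _ = (P₀ * c₁ ^ m) * (M * ((c₁⁻¹) ^ m * Real.exp (ℓ * u + (δ + 4 * c) * ℓ))) := by
            have : c₁ ^ m * (c₁⁻¹) ^ m = 1 := by rw [← mul_pow, mul_inv_cancel₀ hc₁0.ne', one_pow]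
            linear_combination -(P₀ * M * Real.exp (ℓ * u + (δ + 4 * c) * ℓ)) * this
        _ ≤ (P₀ * c₁ ^ m) * (M * (Real.exp ((c₁⁻¹) ^ m) * Real.exp (ℓ * u + (δ + 4 * c) * ℓ))) := by gcongr
        _ ≤ _ := by
            rw [← Real.exp_add]
            have h5 : (c₁⁻¹) ^ m ≤ E := by
              rw [hE]
              have h6 : 0 ≤ K * (5 + 4 * A₁ ^ 2) := by positivity
              have h7 : 0 ≤ R ^ m := by positivity
              linarith
            refine mul_le_mul_of_nonneg_left (mul_le_mul_of_nonneg_left (Real.exp_le_exp.mpr ?_) hM.le) (by positivity)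
            linarith
    exact le_of_mul_le_mul_left h3 (by positivity)
  obtain ⟨e₀, he₀, hfe⟩ := B.fe
  have hsym : ∀ u v : ℝ, ‖X (pt y (-u) v)‖ = ‖X (pt y u v)‖ := by
    intro u v
    rw [hfe (pt y (-u) v), norm_mul, he₀, one_mul, RCLike.norm_conj]
    congr 2
    apply Complex.ext <;> simp
    ring
  intro u v hu hv
  have hc8 : 4 * c = δ' / 8 := by rw [hc]; ring
  have hd8 : 2 * δ = δ' / 8 := by rw [hδ]; ring
  have hδℓ : 0 < δ' * ℓ := by positivity
  rcases le_total u₁ |u| with h | h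
  · have h1 := hfar |u| v h hu (by linarith)
    have h2 : ‖X (pt y u v)‖ = ‖X (pt y |u| v)‖ := by
      rcases le_total 0 u with h3 | h3
      · rw [abs_of_nonneg h3]
      · rw [abs_of_nonpos h3, hsym]
    rw [h2]
    refine h1.trans (mul_le_mul_of_nonneg_left (Real.exp_le_exp.mpr ?_) hM.le)
    rw [hc8, hd8]
    linarith
  · have h1 := strip_max B.diff (y := y) (β := u₁) (A := A₁ / 2) (c := 2) (D := 2) (ℓ := ℓ)
      (P := M * Real.exp (ℓ * u₁ + (2 * δ + 4 * c) * ℓ)) hu₁0 (by positivity) (by norm_num) (by linarith) (by positivity)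
      (by
        have : 1 ≤ A₁ / 2 := by linarith
        have := le_self_pow₀ this two_ne_zero
        linarith) (fun v hv => ?_) (fun u v hu hv => ?_) (u₀ := u) (v₀ := v) h (by linarith)
    · refine h1.trans ?_
      rw [mul_assoc, ← Real.exp_add]
      refine mul_le_mul_of_nonneg_left (Real.exp_le_exp.mpr ?_) hM.le
      have h2 : u₁ ^ 2 ≤ u₁ := by rw [sq]; exact mul_le_of_le_one_left hu₁0.le hu₁1
      have h3 := mul_le_mul_of_nonneg_right h2 (by linarith : 0 ≤ ℓ)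
      have h4 := mul_le_mul_of_nonneg_right hu₁δ (by linarith : 0 ≤ ℓ)
      have h5 : 0 ≤ ℓ * |u| := by positivity
      rw [hc8, hd8]
      linarith
    · have h2 := hfar u₁ v le_rfl (by linarith) (by linarith)
      exact ⟨h2, by rw [hsym]; exact h2⟩
    · have h2 := B.up u v
      have hmax : max |u| 2 = 2 := max_eq_right (by linarith)
      rw [hmax] at h2
      have hv2 : v ^ 2 ≤ 4 * A₁ ^ 2 := by
        rw [← sq_abs v]
        have := pow_le_pow_left₀ (abs_nonneg v) (hv.trans (by linarith : 2 * (A₁ / 2) ≤ 2 * A₁)) 2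
        linarith
      have hu4 : u ^ 2 ≤ 4 := by
        rw [← sq_abs u]
        have := pow_le_pow_left₀ (abs_nonneg u) (hu.trans (by linarith : u₁ ≤ 2)) 2
        linarith
      have hKK : K * (1 + u ^ 2 + v ^ 2) ≤ K * (5 + 4 * A₁ ^ 2) := mul_le_mul_of_nonneg_left (by linarith) (by linarith)
      refine h2.trans ?_
      rw [mul_assoc, ← Real.exp_add]
      refine mul_le_mul_of_nonneg_left (Real.exp_le_exp.mpr ?_) hM.le
      have h7 : 0 ≤ R ^ m := by positivity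
      have h8 : 0 ≤ ℓ * u₁ := by positivity
      have h9 : 0 ≤ c * ℓ := by positivity
      have h10 : 0 ≤ δ * ℓ := by positivity
      linarith

end Pool.Agent.H487.GL
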