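import Pool.Agent.H487.GL.Datum

/-!
# Families of L-functions: the Lindelöf hypothesis and the zeros of the heat flow
-/

set_option autoImplicit false

open Filter Topology Set
open scoped ComplexConjugate

namespace Pool.Agent.H487.GL

open NB NZ H353.E H353.F Complex H370

/-- the conductor of a normalised family -/
lemma cond_le {m : ℕ} (hm : 1 ≤ m) {N : ℝ} (hN : 1 ≤ N) (μ : Fin m → ℂ) (y : ℝ) :
    NB.cond N μ y ≤ ((1 + |y|) * (N * ∏ j, (1 + ‖μ j‖))) ^ m := by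
  have h1 : ∏ j, (1 + ‖(y : ℂ) * I - μ j‖) ≤ (1 + |y|) ^ m * ∏ j, (1 + ‖μ j‖) := by
    have e : (1 + |y|) ^ m = ∏ _j : Fin m, (1 + |y|) := by rw [Finset.prod_const, Finset.card_univ, Fintype.card_fin]
    rw [e, ← Finset.prod_mul_distrib]
    refine Finset.prod_le_prod (fun j _ => by positivity) fun j _ => ?_
    have h2 : ‖(y : ℂ) * I - μ j‖ ≤ |y| + ‖μ j‖ := by
      refine (norm_sub_le _ _).trans (le_of_eq ?_)
      rw [norm_mul, Complex.norm_real, Complex.norm_I, mul_one, Real.norm_eq_abs]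
    have h3 : 0 ≤ |y| * ‖μ j‖ := by positivity
    linarith
  have h2 : 1 ≤ ∏ j, (1 + ‖μ j‖) := by
    refine Finset.prod_induction _ (fun x => (1 : ℝ) ≤ x) (fun a b ha hb => ?_) le_rfl fun j _ => ?_
    · nlinarith
    · linarith [norm_nonneg (μ j)]
  have h3 : 1 ≤ N * ∏ j, (1 + ‖μ j‖) := one_le_mul_of_one_le_of_one_le hN h2
  have h4 : N * ∏ j, (1 + ‖μ j‖) ≤ (N * ∏ j, (1 + ‖μ j‖)) ^ m := le_self_pow₀ h3 (by omega)
  unfold NB.cond
  rw [mul_pow]
  calc N * ∏ j, (1 + ‖(y : ℂ) * I - μ j‖) ≤ N * ((1 + |y|) ^ m * ∏ j, (1 + ‖μ j‖)) := by gcongr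
    _ = (1 + |y|) ^ m * (N * ∏ j, (1 + ‖μ j‖)) := by ring
    _ ≤ _ := by gcongr

lemma le_cond {m : ℕ} (hm : 1 ≤ m) {N : ℝ} (hN : 1 ≤ N) {μ : Fin m → ℂ} (hμ : ∑ j, (μ j).im = 0) (y : ℝ) :
    (1 + |y|) * (N * ∏ j, (1 + ‖μ j‖)) ≤ (NB.cond N μ y) ^ (m + 2) := by
  have hm' : (0 : ℝ) < m := by exact_mod_cast (by omega : 0 < m)
  set R : ℝ := ∏ j, (1 + ‖(y : ℂ) * I - μ j‖) with hR
  have hfac : ∀ j, 1 ≤ 1 + ‖(y : ℂ) * I - μ j‖ := fun j => by linarith [norm_nonneg ((y : ℂ) * I - μ j)]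
  have hle : ∀ j, 1 + ‖(y : ℂ) * I - μ j‖ ≤ R := by
    intro j
    rw [hR, ← Finset.mul_prod_erase _ _ (Finset.mem_univ j)]
    refine le_mul_of_one_le_right (by linarith [hfac j]) ?_
    refine Finset.prod_induction _ (fun x => (1 : ℝ) ≤ x) (fun a b ha hb => ?_) le_rfl fun j _ => hfac j
    nlinarith
  have hR1 : 1 ≤ R := (hfac ⟨0, by omega⟩).trans (hle ⟨0, by omega⟩)
  -- `|y| ≤ R - 1`
  have h1 : |y| ≤ R - 1 := by
    have h2 : ∑ j : Fin m, (y - (μ j).im) = m * y := by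
      rw [Finset.sum_sub_distrib, hμ, sub_zero, Finset.sum_const, Finset.card_univ, Fintype.card_fin, nsmul_eq_mul]
    have h3 : |∑ j : Fin m, (y - (μ j).im)| ≤ ∑ _j : Fin m, (R - 1) := by
      refine (Finset.abs_sum_le_sum_abs _ _).trans (Finset.sum_le_sum fun j _ => ?_)
      have h4 := Complex.abs_im_le_norm ((y : ℂ) * I - μ j)
      simp only [sub_im, mul_im, ofReal_re, I_im, ofReal_im, I_re, mul_one, mul_zero, add_zero] at h4
      linarith [hle j]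
    rw [h2, Finset.sum_const, Finset.card_univ, Fintype.card_fin, nsmul_eq_mul, abs_mul, abs_of_pos hm'] at h3
    exact le_of_mul_le_mul_left h3 hm'
  have h2 : ∏ j, (1 + ‖μ j‖) ≤ R ^ m * R := by
    have e : ∏ j, (R * (1 + ‖(y : ℂ) * I - μ j‖)) = R ^ m * R := by
      rw [Finset.prod_mul_distrib, Finset.prod_const, Finset.card_univ, Fintype.card_fin, ← hR]
    rw [← e]
    refine Finset.prod_le_prod (fun j _ => by positivity) fun j _ => ?_
    have h3 : ‖μ j‖ ≤ ‖(y : ℂ) * I - μ j‖ + |y| := by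
      have e2 : μ j = (y : ℂ) * I - ((y : ℂ) * I - μ j) := by ring
      calc ‖μ j‖ = ‖(y : ℂ) * I - ((y : ℂ) * I - μ j)‖ := by rw [← e2]
        _ ≤ ‖(y : ℂ) * I‖ + ‖(y : ℂ) * I - μ j‖ := norm_sub_le _ _
        _ = _ := by rw [norm_mul, Complex.norm_real, Complex.norm_I, mul_one, Real.norm_eq_abs, add_comm]
    have h4 : 0 ≤ (R - 1) * ‖(y : ℂ) * I - μ j‖ := mul_nonneg (by linarith) (norm_nonneg _)
    linarith
  have hC : NB.cond N μ y = N * R := rfl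
  have h5 : N ≤ N ^ (m + 2) := le_self_pow₀ hN (by omega)
  rw [hC, mul_pow]
  calc (1 + |y|) * (N * ∏ j, (1 + ‖μ j‖)) ≤ R * (N * (R ^ m * R)) := by
        have : 0 ≤ ∏ j, (1 + ‖μ j‖) := Finset.prod_nonneg fun j _ => by positivity
        gcongr
        linarith
    _ = N * R ^ (m + 2) := by ring
    _ ≤ _ := by gcongr

variable {ι : Type*} {m : ℕ} {θ : ℝ} {N : ι → ℝ} {μ : ι → Fin m → ℂ} {α : ι → Fin m → ℕ → ℂ} {ε : ι → ℂ} {Λ : ι → ℂ → ℂ}

/-- the two forms of the Lindelöf hypothesis -/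
theorem lindelof_iff (hm : 1 ≤ m) (hN : ∀ i, 1 ≤ N i) (hμ : ∀ i, ∑ j, (μ i j).im = 0) (F : ι → ℝ → ℝ) :
    (∀ e : ℝ, 0 < e → ∃ B : ℝ, ∀ i y, F i y ≤ B * ((1 + |y|) * (N i * ∏ j, (1 + ‖μ i j‖))) ^ e) ↔
      ∀ e : ℝ, 0 < e → ∃ B : ℝ, ∀ i y, F i y ≤ B * (NB.cond (N i) (μ i) y) ^ e := by
  have hm' : (0 : ℝ) < m := by exact_mod_cast (by omega : 0 < m)
  have hpos : ∀ i y, 0 ≤ (1 + |y|) * (N i * ∏ j, (1 + ‖μ i j‖)) := fun i y => by
    have h1 := hN i
    have h2 : 0 ≤ ∏ j, (1 + ‖μ i j‖) := Finset.prod_nonneg fun j _ => by positivity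
    have h3 := abs_nonneg y
    positivity
  constructor
  · intro h e he
    obtain ⟨B, hB⟩ := h (e / (m + 2)) (by positivity)
    refine ⟨max B 0, fun i y => (hB i y).trans ?_⟩
    have hc := cond_one (hN i) (μ i) y
    have h1 := Real.rpow_le_rpow (hpos i y) (le_cond hm (hN i) (hμ i) y) (show 0 ≤ e / (m + 2) by positivity)
    have h2 : ((NB.cond (N i) (μ i) y) ^ (m + 2)) ^ (e / (m + 2)) = (NB.cond (N i) (μ i) y) ^ e := by
      rw [← Real.rpow_natCast, ← Real.rpow_mul (by linarith)]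
      congr 1
      push_cast
      field_simp
    rw [h2] at h1
    calc B * ((1 + |y|) * (N i * ∏ j, (1 + ‖μ i j‖))) ^ (e / (m + 2)) ≤ max B 0 * ((1 + |y|) * (N i * ∏ j, (1 + ‖μ i j‖))) ^ (e / (m + 2)) := by
          exact mul_le_mul_of_nonneg_right (le_max_left _ _) (Real.rpow_nonneg (hpos i y) _)
      _ ≤ _ := mul_le_mul_of_nonneg_left h1 (le_max_right _ _)
  · intro h e he
    obtain ⟨B, hB⟩ := h (e / m) (by positivity)
    refine ⟨max B 0, fun i y => (hB i y).trans ?_⟩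
    have hc := cond_one (hN i) (μ i) y
    have h1 := Real.rpow_le_rpow (by linarith) (cond_le hm (hN i) (μ i) y) (show 0 ≤ e / m by positivity)
    have h2 : (((1 + |y|) * (N i * ∏ j, (1 + ‖μ i j‖))) ^ m) ^ (e / m) = ((1 + |y|) * (N i * ∏ j, (1 + ‖μ i j‖))) ^ e := by
      rw [← Real.rpow_natCast, ← Real.rpow_mul (hpos i y)]
      congr 1
      field_simp
    rw [h2] at h1
    calc B * (NB.cond (N i) (μ i) y) ^ (e / m) ≤ max B 0 * (NB.cond (N i) (μ i) y) ^ (e / m) := by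
          exact mul_le_mul_of_nonneg_right (le_max_left _ _) (Real.rpow_nonneg (by linarith) _)
      _ ≤ _ := mul_le_mul_of_nonneg_left h1 (le_max_right _ _)

/-- **Lindelöf ⟹ few bad zeros** -/
theorem fam_dir (hm : 1 ≤ m) (hθ0 : 0 ≤ θ) (hθ1 : θ ≤ 1 / 2) (d : ∀ i, DatumT θ (N i) (μ i) (α i) (ε i) (Λ i))
    (G : ∀ e : ℝ, 0 < e → ∃ B : ℝ, ∀ i y, ‖Lf (μ i) (Λ i) (1 / 2 + (y : ℝ) * I)‖ ≤ B * (NB.cond (N i) (μ i) y) ^ e) {η : ℝ} (hη : 0 < η) :
    ∃ C₀ : ℝ, 1 < C₀ ∧ ∀ i, ∀ y t : ℝ, C₀ ≤ NB.cond (N i) (μ i) y → C₀ * t ≤ 1 → η ≤ t * Real.log (NB.cond (N i) (μ i) y) →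
      ∀ T : Finset ℂ, (∀ s ∈ T, |s.im - y| ≤ 1 ∧ ¬ (s.re = 1 / 2 ∧ deriv (flow t (NB.xi (N i) (Λ i))) s ≠ 0)) →
        ∑ s ∈ T, (mult (flow t (NB.xi (N i) (Λ i))) s : ℝ) ≤ η * Real.log (NB.cond (N i) (μ i) y) := by
  obtain ⟨A, δ, C₀, t₁, hA, hδ, hC₀, ht₁, H⟩ := datum_few m hm hθ0 hθ1 hη
  obtain ⟨B, hB⟩ := G (δ / 2) (by positivity)
  set b : ℝ := max B 1 with hb
  have hb1 : 1 ≤ b := le_max_right _ _
  have hlogb : 0 ≤ Real.log b := Real.log_nonneg hb1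
  set E : ℝ := 2 / δ * Real.log b + m * A with hE
  have hE0 : 0 ≤ E := by positivity
  refine ⟨max (max C₀ (1 / t₁)) (Real.exp E), lt_max_of_lt_left (lt_max_of_lt_left hC₀), fun i y t hC ht ht2 T hT => ?_⟩
  have hC1 : C₀ ≤ NB.cond (N i) (μ i) y := (le_max_left _ _).trans ((le_max_left _ _).trans hC)
  have hC3 : Real.exp E ≤ NB.cond (N i) (μ i) y := (le_max_right _ _).trans hC
  have hc0 : 0 < NB.cond (N i) (μ i) y := by linarith
  have hL0 : 0 < Real.log (NB.cond (N i) (μ i) y) := Real.log_pos (by linarith)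
  have ht0 : 0 < t := pos_of_mul_pos_left (lt_of_lt_of_le hη ht2) hL0.le
  have htt : t ≤ t₁ := by
    have h1 : 1 / t₁ * t ≤ 1 := by
      have : 1 / t₁ ≤ max (max C₀ (1 / t₁)) (Real.exp E) := (le_max_right _ _).trans (le_max_left _ _)
      have := mul_le_mul_of_nonneg_right this ht0.le
      linarith
    rw [one_div, inv_mul_le_iff₀ ht₁] at h1
    linarith
  refine H (N i) (μ i) (α i) (ε i) (Λ i) (d i) y t hC1 htt ht2 (fun v hv => ?_) T hT
  have h1 := hB i v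
  have hcv := cond_one (d i).one_le (μ i) v
  have h2 := cond_shift (d i).one_le (μ i) y v
  have h3 : E ≤ Real.log (NB.cond (N i) (μ i) y) := by
    rw [Real.le_log_iff_exp_le hc0]
    exact hC3
  have h4 : (NB.cond (N i) (μ i) v) ^ (δ / 2) = Real.exp (Real.log (NB.cond (N i) (μ i) v) * (δ / 2)) :=
    Real.rpow_def_of_pos (by linarith) _
  rw [h4] at h1
  refine h1.trans ?_
  calc B * Real.exp (Real.log (NB.cond (N i) (μ i) v) * (δ / 2)) ≤ b * Real.exp (Real.log (NB.cond (N i) (μ i) v) * (δ / 2)) := by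
        exact mul_le_mul_of_nonneg_right (le_max_left _ _) (Real.exp_pos _).le
    _ = Real.exp (Real.log b + Real.log (NB.cond (N i) (μ i) v) * (δ / 2)) := by
        rw [Real.exp_add, Real.exp_log (by linarith)]
    _ ≤ _ := by
        refine Real.exp_le_exp.mpr ?_
        have h5 : (m : ℝ) * |v - y| ≤ m * A := by gcongr
        have h6 : Real.log (NB.cond (N i) (μ i) v) * (δ / 2) ≤ (Real.log (NB.cond (N i) (μ i) y) + m * A) * (δ / 2) := by
          refine mul_le_mul_of_nonneg_right (by linarith) (by positivity)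
        have h7 : E * (δ / 2) ≤ Real.log (NB.cond (N i) (μ i) y) * (δ / 2) := by gcongr
        have h8 : E * (δ / 2) = Real.log b + m * A * (δ / 2) := by
          rw [hE]
          field_simp
        linarith

/-- from short intervals to longer ones -/
theorem fam_cover (hm : 1 ≤ m) (d : ∀ i, DatumT θ (N i) (μ i) (α i) (ε i) (Λ i))
    (Z : ∀ η : ℝ, 0 < η → ∃ C₀ : ℝ, 1 < C₀ ∧ ∀ i, ∀ y t : ℝ, C₀ ≤ NB.cond (N i) (μ i) y → C₀ * t ≤ 1 →
      η ≤ t * Real.log (NB.cond (N i) (μ i) y) →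
      ∀ T : Finset ℂ, (∀ s ∈ T, |s.im - y| ≤ 1 ∧ ¬ (s.re = 1 / 2 ∧ deriv (flow t (NB.xi (N i) (Λ i))) s ≠ 0)) →
        ∑ s ∈ T, (mult (flow t (NB.xi (N i) (Λ i))) s : ℝ) ≤ η * Real.log (NB.cond (N i) (μ i) y))
    {κ A η : ℝ} (hκ : 0 < κ) (hη : 0 < η) :
    ∃ C₀ : ℝ, 1 < C₀ ∧ ∀ i, ∀ y : ℝ, C₀ ≤ NB.cond (N i) (μ i) y →
      ∀ T : Finset ℂ, (∀ s ∈ T, |s.im - y| ≤ A ∧ s.re ≠ 1 / 2) →
        ∑ s ∈ T, (mult (flow (κ / Real.log (NB.cond (N i) (μ i) y)) (NB.xi (N i) (Λ i))) s : ℝ) ≤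
          η * Real.log (NB.cond (N i) (μ i) y) := by
  obtain ⟨n, hn⟩ := exists_nat_ge (|A| + 1)
  have hn0 : (0 : ℝ) < n := by linarith [abs_nonneg A]
  set η' : ℝ := min (κ / 2) (η / (2 * (2 * n + 1))) with hη'
  have hη'0 : 0 < η' := by positivity
  have hη'1 : η' ≤ κ / 2 := min_le_left _ _
  have hη'2 : (2 * n + 1) * (η' * 2) ≤ η := by
    have : η' ≤ η / (2 * (2 * n + 1)) := min_le_right _ _
    rw [le_div_iff₀ (by positivity)] at this
    linarith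
  obtain ⟨C₀, hC₀, H⟩ := Z η' hη'0
  have hlogC₀ : 0 < Real.log C₀ := Real.log_pos hC₀
  refine ⟨Real.exp (2 * (m * n) + Real.log C₀ + κ * C₀), Real.one_lt_exp_iff.mpr (by positivity), fun i y hC T hT => ?_⟩
  have hN := (d i).one_le
  have hc0 : 0 < NB.cond (N i) (μ i) y := by linarith [cond_one hN (μ i) y]
  set L : ℝ := Real.log (NB.cond (N i) (μ i) y) with hL
  have hLl : 2 * (m * n) + Real.log C₀ + κ * C₀ ≤ L := by
    rw [hL, Real.le_log_iff_exp_le hc0]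
    exact hC
  have hmn : 0 ≤ (m : ℝ) * n := by positivity
  have hκC : 0 < κ * C₀ := by positivity
  have hL0 : 0 < L := by linarith
  set t : ℝ := κ / L with ht
  have ht0 : 0 < t := by positivity
  set f : ℂ → ℝ := fun s => (mult (flow t (NB.xi (N i) (Λ i))) s : ℝ) with hf
  set k : ℂ → ℕ := fun s => (round (s.im - y) + n).toNat with hk
  have hkr : ∀ s ∈ T, |round (s.im - y)| ≤ (n : ℤ) := by
    intro s hs
    have h1 := (hT s hs).1
    have h2 := abs_sub_round (s.im - y)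
    have h3 : |((round (s.im - y) : ℤ) : ℝ)| ≤ n := by
      have h4 := abs_sub_abs_le_abs_sub ((round (s.im - y) : ℤ) : ℝ) (s.im - y)
      rw [abs_sub_comm ((round (s.im - y) : ℤ) : ℝ) (s.im - y)] at h4
      linarith [le_abs_self A]
    exact_mod_cast h3
  have hmaps : ∀ s ∈ T, k s ∈ Finset.range (2 * n + 1) := by
    intro s hs
    have h1 := abs_le.mp (hkr s hs)
    rw [Finset.mem_range]
    simp only [hk]
    omega
  change ∑ s ∈ T, f s ≤ η * L
  rw [← Finset.sum_fiberwise_of_maps_to hmaps]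
  have hterm : ∀ j ∈ Finset.range (2 * n + 1), ∑ s ∈ T.filter (fun s => k s = j), f s ≤ η' * 2 * L := by
    intro j hj
    rw [Finset.mem_range] at hj
    set w : ℝ := y + ((j : ℝ) - n) with hw
    have hwy : |w - y| ≤ n := by
      have hj' : (j : ℝ) ≤ 2 * n := by exact_mod_cast (by omega : j ≤ 2 * n)
      have hj0 : (0 : ℝ) ≤ j := Nat.cast_nonneg j
      rw [hw, add_sub_cancel_left, abs_le]
      constructor <;> linarith
    have h1 := cond_shift hN (μ i) y w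
    have h2 := cond_shift hN (μ i) w y
    rw [abs_sub_comm] at h2
    have h3 : (m : ℝ) * |w - y| ≤ m * n := by gcongr
    rw [← hL] at h1 h2
    have hcw := cond_one hN (μ i) w
    have hmem : ∀ s ∈ T.filter (fun s => k s = j), |s.im - w| ≤ 1 ∧
        ¬ (s.re = 1 / 2 ∧ deriv (flow t (NB.xi (N i) (Λ i))) s ≠ 0) := by
      intro s hs
      rw [Finset.mem_filter] at hs
      obtain ⟨hs1, hs2⟩ := hs
      have h4 := abs_le.mp (hkr s hs1)
      have h5 : round (s.im - y) = (j : ℤ) - n := by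
        simp only [hk] at hs2
        omega
      have h6 := abs_sub_round (s.im - y)
      rw [h5] at h6
      push_cast at h6
      refine ⟨?_, fun h => (hT s hs1).2 h.1⟩
      rw [hw]
      have e : s.im - (y + ((j : ℝ) - n)) = s.im - y - (j - n) := by ring
      rw [e]
      linarith
    have hpos1 : 0 < Real.log (NB.cond (N i) (μ i) w) := by linarith
    have h7 : η' ≤ t * Real.log (NB.cond (N i) (μ i) w) := by
      have h8 : L / 2 ≤ Real.log (NB.cond (N i) (μ i) w) := by linarith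
      have h9 : t * (L / 2) ≤ t * Real.log (NB.cond (N i) (μ i) w) := by gcongr
      have h10 : t * (L / 2) = κ / 2 := by rw [ht]; field_simp
      linarith
    have h8 := H i w t (by
        rw [← Real.log_le_log_iff (by linarith) (by linarith)]
        linarith) (by
        rw [ht, ← mul_div_assoc, div_le_iff₀ hL0]
        linarith) h7 _ hmem
    refine h8.trans ?_
    have h9 : Real.log (NB.cond (N i) (μ i) w) ≤ 2 * L := by linarith
    calc η' * Real.log (NB.cond (N i) (μ i) w) ≤ η' * (2 * L) := by gcongr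
      _ = _ := by ring
  refine (Finset.sum_le_sum hterm).trans ?_
  rw [Finset.sum_const, Finset.card_range, nsmul_eq_mul]
  push_cast
  have := mul_le_mul_of_nonneg_right hη'2 hL0.le
  linarith

/-- **few zeros off the line ⟹ Lindelöf** -/
theorem fam_conv (hm : 1 ≤ m) (hθ0 : 0 ≤ θ) (hθ1 : θ ≤ 1 / 2) (d : ∀ i, DatumT θ (N i) (μ i) (α i) (ε i) (Λ i))
    (Z : ∀ κ A η : ℝ, 0 < κ → 0 < A → 0 < η → ∃ C₀ : ℝ, ∀ i, ∀ y : ℝ, C₀ ≤ NB.cond (N i) (μ i) y →
      ∀ T : Finset ℂ, (∀ s ∈ T, |s.im - y| ≤ A ∧ s.re ≠ 1 / 2) →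
        ∑ s ∈ T, (mult (flow (κ / Real.log (NB.cond (N i) (μ i) y)) (NB.xi (N i) (Λ i))) s : ℝ) ≤
          η * Real.log (NB.cond (N i) (μ i) y)) {e : ℝ} (he : 0 < e) :
    ∃ B : ℝ, ∀ i y, ‖Lf (μ i) (Λ i) (1 / 2 + (y : ℝ) * I)‖ ≤ B * (NB.cond (N i) (μ i) y) ^ e := by
  obtain ⟨K, HK⟩ := datum_base m hm hθ0 hθ1
  obtain ⟨A, δ, C₁, hA, hδ, hC₁, H⟩ := datum_size m hm hθ0 hθ1 (η := e / 2) (by positivity)
  obtain ⟨C₂, hZ⟩ := Z (e / 2) A δ (by positivity) hA hδ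
  refine ⟨max 1 (max C₁ C₂ * Real.exp K), fun i y => ?_⟩
  have hN := (d i).one_le
  have hc1 := cond_one hN (μ i) y
  have hc0 : 0 < NB.cond (N i) (μ i) y := by linarith
  have hce : 1 ≤ (NB.cond (N i) (μ i) y) ^ e := Real.one_le_rpow hc1 he.le
  have hB := HK (N i) (μ i) (α i) (ε i) (Λ i) (d i) y
  rcases le_total (max C₁ C₂) (NB.cond (N i) (μ i) y) with h | h
  · have h1 : C₁ ≤ NB.cond (N i) (μ i) y := (le_max_left _ _).trans h
    have h2 : C₂ ≤ NB.cond (N i) (μ i) y := (le_max_right _ _).trans h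
    have hL0 : 0 < Real.log (NB.cond (N i) (μ i) y) := Real.log_pos (by linarith)
    have e1 : e / 2 / Real.log (NB.cond (N i) (μ i) y) * Real.log (NB.cond (N i) (μ i) y) = e / 2 := div_mul_cancel₀ _ hL0.ne'
    have h3 := H (N i) (μ i) (α i) (ε i) (Λ i) (d i) y (e / 2 / Real.log (NB.cond (N i) (μ i) y)) h1 (by rw [e1])
      (fun T hT => hZ i y h2 T fun s hs => ⟨(hT s hs).2, by linarith [(hT s hs).1]⟩)
    rw [e1] at h3
    refine h3.trans ?_
    rw [Real.rpow_def_of_pos hc0]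
    refine le_trans (Real.exp_le_exp.mpr ?_) (le_mul_of_one_le_left (Real.exp_pos _).le (le_max_left _ _))
    have h4 : (e / 2 / 4 + e / 2) * Real.log (NB.cond (N i) (μ i) y) ≤ e * Real.log (NB.cond (N i) (μ i) y) :=
      mul_le_mul_of_nonneg_right (by linarith) hL0.le
    linarith
  · have hM := hB.hM
    have hlow := mb_lf hN (d i).re_le (Λ i) y
    have ept : NZ.pt y 0 0 = 1 / 2 + (y : ℂ) * I := by unfold NZ.pt; push_cast; ring
    have h1 := hB.up 0 0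
    rw [abs_zero, max_eq_right (by norm_num : (0:ℝ) ≤ 2), ept] at h1
    have h2 : ‖Lf (μ i) (Λ i) (1 / 2 + y * I)‖ ≤ NB.cond (N i) (μ i) y * Real.exp K := by
      have h3 : ‖Lf (μ i) (Λ i) (1 / 2 + y * I)‖ * Mb (N i) (μ i) y ≤ (NB.cond (N i) (μ i) y * Real.exp K) * Mb (N i) (μ i) y := by
        refine (hlow.trans h1).trans (le_of_eq ?_)
        have e2 : 1 / 2 * Real.log (NB.cond (N i) (μ i) y) * 2 + K * (1 + 0 ^ 2 + 0 ^ 2) = Real.log (NB.cond (N i) (μ i) y) + K := by ring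
        rw [e2, Real.exp_add, Real.exp_log hc0]
        ring
      exact le_of_mul_le_mul_right h3 hM
    calc ‖Lf (μ i) (Λ i) (1 / 2 + y * I)‖ ≤ NB.cond (N i) (μ i) y * Real.exp K := h2
      _ ≤ max C₁ C₂ * Real.exp K := by gcongr
      _ ≤ max 1 (max C₁ C₂ * Real.exp K) * 1 := by rw [mul_one]; exact le_max_right _ _
      _ ≤ _ := by gcongr

end Pool.Agent.H487.GL
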