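import Pool.Agent.H487.NZ.DBase

/-!
# The L-function on the critical line and the completed L-function
-/

set_option autoImplicit false

open Filter Topology Set
open scoped ComplexConjugate

namespace Pool.Agent.H487.GL

open NB NZ H353.E H353.F Complex

/-- the L-function (`1 / Γ` is entire, and takes the right value also at the poles of `Γ`) -/
noncomputable def Lf {m : ℕ} (μ : Fin m → ℂ) (Λ : ℂ → ℂ) (s : ℂ) : ℂ := Λ s * ∏ j, (Gammaℝ (s - μ j))⁻¹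

lemma lf_zero {m : ℕ} {μ : Fin m → ℂ} (Λ : ℂ → ℂ) {s : ℂ} {j : Fin m} (h : s = μ j) : Lf μ Λ s = 0 := by
  unfold Lf
  have h0 : (Gammaℝ (s - μ j))⁻¹ = 0 := by
    rw [h, sub_self, inv_eq_zero, Gammaℝ_eq_zero_iff]
    exact ⟨0, by simp⟩
  rw [Finset.prod_eq_zero (Finset.mem_univ j) h0, mul_zero]

lemma lf_id {m : ℕ} {N : ℝ} (hN : 1 ≤ N) {μ : Fin m → ℂ} (hμ : ∀ j, (μ j).re ≤ 1 / 2) (Λ : ℂ → ℂ) {s : ℂ} (hs : s.re = 1 / 2)
    (hne : ∀ j, s ≠ μ j) :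
    (∏ j, (s - μ j)) * NB.xi N Λ s * N = (2 * Real.pi) ^ m * (gaf N μ (s + 2) * Lf μ Λ s) := by
  have hN0 : (N : ℂ) ≠ 0 := by
    have : (0:ℝ) < N := by linarith
    exact_mod_cast this.ne'
  have hpi : (Real.pi : ℂ) ≠ 0 := by exact_mod_cast Real.pi_ne_zero
  have hG : ∀ j, Gammaℝ (s - μ j) ≠ 0 := by
    intro j h0
    rw [Gammaℝ_eq_zero_iff] at h0
    obtain ⟨n, hn⟩ := h0
    have h1 : (s - μ j).re = -(2 * n) := by rw [hn]; simp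
    rw [sub_re, hs] at h1
    have h2 := hμ j
    have h3 : (0 : ℝ) ≤ n := Nat.cast_nonneg n
    have h4 : (n : ℝ) = 0 := by linarith
    have h5 : n = 0 := by exact_mod_cast h4
    rw [h5] at hn
    apply hne j
    rw [← sub_eq_zero, hn]
    simp
  have h1 : ∀ j, Gammaℝ (s + 2 - μ j) = Gammaℝ (s - μ j) * ((s - μ j) / (2 * Real.pi)) := by
    intro j
    have e : s + 2 - μ j = (s - μ j) + 2 := by ring
    rw [e, Gammaℝ_add_two (sub_ne_zero.mpr (hne j))]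
    field_simp
  have h2 : ∏ j, Gammaℝ (s + 2 - μ j) = (∏ j, Gammaℝ (s - μ j)) * ((∏ j, (s - μ j)) / (2 * Real.pi) ^ m) := by
    rw [Finset.prod_congr rfl fun j _ => h1 j, Finset.prod_mul_distrib, Finset.prod_div_distrib, Finset.prod_const, Finset.card_univ,
      Fintype.card_fin]
  have h3 : (∏ j, Gammaℝ (s - μ j)) * ∏ j, (Gammaℝ (s - μ j))⁻¹ = 1 := by
    rw [← Finset.prod_mul_distrib]
    exact Finset.prod_eq_one fun j _ => mul_inv_cancel₀ (hG j)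
  have h4 : (N : ℂ) ^ ((s + 2) / 2) = (N : ℂ) ^ (s / 2) * N := by
    have e : (s + 2) / 2 = s / 2 + 1 := by ring
    rw [e, cpow_add _ _ hN0, cpow_one]
  unfold NB.xi gaf Lf
  rw [h2, h4]
  have h5 : (2 * (Real.pi : ℂ)) ^ m ≠ 0 := pow_ne_zero _ (mul_ne_zero two_ne_zero hpi)
  have h6 : (2 * (Real.pi : ℂ)) ^ m * ((∏ j, (s - μ j)) / (2 * Real.pi) ^ m) = ∏ j, (s - μ j) := mul_div_cancel₀ _ h5
  linear_combination (-(N : ℂ) ^ (s / 2) * N * (∏ j, (s - μ j)) * Λ s) * h3 -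
    (N : ℂ) ^ (s / 2) * N * (∏ j, Gammaℝ (s - μ j)) * Λ s * (∏ j, (Gammaℝ (s - μ j))⁻¹) * h6

lemma lf_norm {m : ℕ} {N : ℝ} (hN : 1 ≤ N) {μ : Fin m → ℂ} (hμ : ∀ j, (μ j).re ≤ 1 / 2) (Λ : ℂ → ℂ) {s : ℂ} (hs : s.re = 1 / 2)
    (hne : ∀ j, s ≠ μ j) :
    ‖∏ j, (s - μ j)‖ * ‖NB.xi N Λ s‖ * N = (2 * Real.pi) ^ m * (‖gaf N μ (s + 2)‖ * ‖Lf μ Λ s‖) := by
  have h := congrArg norm (lf_id hN hμ Λ hs hne)
  rw [norm_mul, norm_mul, norm_mul, norm_mul, norm_pow, norm_mul, Complex.norm_real, Complex.norm_real, Complex.norm_two,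
    Real.norm_of_nonneg Real.pi_pos.le, Real.norm_of_nonneg (by linarith : 0 ≤ N)] at h
  exact h

/-- the size of the L-function on the line -/
lemma mb_lf {m : ℕ} {N : ℝ} (hN : 1 ≤ N) {μ : Fin m → ℂ} (hμ : ∀ j, (μ j).re ≤ 1 / 2) (Λ : ℂ → ℂ) (y : ℝ) :
    ‖Lf μ Λ (1 / 2 + y * I)‖ * Mb N μ y ≤ ‖NB.xi N Λ (1 / 2 + y * I)‖ := by
  have hC := cond_one hN μ y
  have hC0 : 0 < NB.cond N μ y := by linarith
  have hs : (1 / 2 + (y : ℂ) * I).re = 1 / 2 := by simp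
  by_cases hne : ∀ j, 1 / 2 + (y : ℂ) * I ≠ μ j
  · have h1 := lf_norm hN hμ Λ hs hne
    have e : 1 / 2 + (y : ℂ) * I + 2 = 5 / 2 + y * I := by ring
    rw [e] at h1
    have hMb : Mb N μ y = ‖gaf N μ (5 / 2 + y * I)‖ / NB.cond N μ y := by
      unfold Mb
      rw [Real.exp_neg, Real.exp_log hC0, ← div_eq_mul_inv]
    rw [hMb, ← mul_div_assoc, div_le_iff₀ hC0]
    have h2 : ‖∏ j, (1 / 2 + (y : ℂ) * I - μ j)‖ ≤ ∏ j, (1 + ‖(y : ℂ) * I - μ j‖) := by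
      rw [norm_prod]
      refine Finset.prod_le_prod (fun j _ => norm_nonneg _) fun j _ => ?_
      have e2 : 1 / 2 + (y : ℂ) * I - μ j = 1 / 2 + (y * I - μ j) := by ring
      rw [e2]
      refine (norm_add_le _ _).trans ?_
      norm_num
    have h3 : 1 ≤ (2 * Real.pi) ^ m := one_le_pow₀ (by linarith [Real.pi_gt_three])
    have h4 : 0 ≤ ‖gaf N μ (5 / 2 + y * I)‖ * ‖Lf μ Λ (1 / 2 + y * I)‖ := by positivity
    have h5 : ‖gaf N μ (5 / 2 + y * I)‖ * ‖Lf μ Λ (1 / 2 + y * I)‖ ≤ (2 * Real.pi) ^ m * (‖gaf N μ (5 / 2 + y * I)‖ * ‖Lf μ Λ (1 / 2 + y * I)‖) :=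
      le_mul_of_one_le_left h4 h3
    have h6 : ‖∏ j, (1 / 2 + (y : ℂ) * I - μ j)‖ * ‖NB.xi N Λ (1 / 2 + y * I)‖ * N ≤
        (∏ j, (1 + ‖(y : ℂ) * I - μ j‖)) * ‖NB.xi N Λ (1 / 2 + y * I)‖ * N := by
      have : 0 ≤ N := by linarith
      gcongr
    have h7 : (∏ j, (1 + ‖(y : ℂ) * I - μ j‖)) * ‖NB.xi N Λ (1 / 2 + y * I)‖ * N = ‖NB.xi N Λ (1 / 2 + y * I)‖ * NB.cond N μ y := by
      unfold NB.cond; ring
    linarith
  · push Not at hne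
    obtain ⟨j, hj⟩ := hne
    rw [lf_zero Λ hj, norm_zero, zero_mul]
    exact norm_nonneg _

/-- the completed L-function from the L-function -/
lemma line_of_lf {m : ℕ} (hm : 1 ≤ m) {N : ℝ} (hN : 1 ≤ N) {μ : Fin m → ℂ} (hμ : ∀ j, (μ j).re ≤ 1 / 2) (Λ : ℂ → ℂ) (y v b : ℝ)
    (hb : ‖Lf μ Λ (1 / 2 + ((y + v : ℝ) : ℂ) * I)‖ ≤ b) :
    ‖(∏ j, (pt y 0 v - μ j)) * NB.xi N Λ (pt y 0 v)‖ ≤
      Mb N μ y * (∏ j, (1 + ‖(y : ℂ) * I - μ j‖)) * ((2 * Real.pi) ^ m * Real.exp (6 * m * |v|) * b) := by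
  have hC := cond_one hN μ y
  have hC0 : 0 < NB.cond N μ y := by linarith
  have hN0 : 0 < N := by linarith
  have hb0 : 0 ≤ b := (norm_nonneg _).trans hb
  have hMb : Mb N μ y = ‖gaf N μ (5 / 2 + y * I)‖ / NB.cond N μ y := by
    unfold Mb
    rw [Real.exp_neg, Real.exp_log hC0, ← div_eq_mul_inv]
  have hP0 : 0 < ∏ j, (1 + ‖(y : ℂ) * I - μ j‖) := Finset.prod_pos fun j _ => by positivity
  have hMP : Mb N μ y * (∏ j, (1 + ‖(y : ℂ) * I - μ j‖)) = ‖gaf N μ (5 / 2 + y * I)‖ / N := by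
    rw [hMb]
    unfold NB.cond
    field_simp
  rw [hMP]
  have ept : pt y 0 v = 1 / 2 + ((y + v : ℝ) : ℂ) * I := by unfold NZ.pt; push_cast; ring
  have hs : (1 / 2 + ((y + v : ℝ) : ℂ) * I).re = 1 / 2 := by simp
  rw [ept]
  by_cases hne : ∀ j, 1 / 2 + ((y + v : ℝ) : ℂ) * I ≠ μ j
  · have h1 := lf_norm hN hμ Λ hs hne
    have e : 1 / 2 + ((y + v : ℝ) : ℂ) * I + 2 = 5 / 2 + ((y + v : ℝ) : ℂ) * I := by ring
    rw [e] at h1
    have gp := gaf_GP hm hN hμ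
    have h2 := vert_ge gp (s := 5 / 2 + ((y + v : ℝ) : ℂ) * I) (by
      simp only [add_re, mul_re, ofReal_re, I_re, ofReal_im, I_im]; norm_num) (-v)
    rw [abs_neg] at h2
    have e2 : 5 / 2 + ((y + v : ℝ) : ℂ) * I + ((-v : ℝ) : ℂ) * I = 5 / 2 + y * I := by push_cast; ring
    rw [e2] at h2
    rw [norm_mul]
    have h3 : ‖∏ j, (1 / 2 + ((y + v : ℝ) : ℂ) * I - μ j)‖ * ‖NB.xi N Λ (1 / 2 + ((y + v : ℝ) : ℂ) * I)‖ * N ≤
        (2 * Real.pi) ^ m * ((Real.exp (6 * m * |v|) * ‖gaf N μ (5 / 2 + y * I)‖) * b) := by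
      rw [h1]
      gcongr
    have h4 : ‖∏ j, (1 / 2 + ((y + v : ℝ) : ℂ) * I - μ j)‖ * ‖NB.xi N Λ (1 / 2 + ((y + v : ℝ) : ℂ) * I)‖ ≤
        ((2 * Real.pi) ^ m * ((Real.exp (6 * m * |v|) * ‖gaf N μ (5 / 2 + y * I)‖) * b)) / N := by
      rw [le_div_iff₀ hN0]
      exact h3
    refine h4.trans (le_of_eq ?_)
    ring
  · push Not at hne
    obtain ⟨j, hj⟩ := hne
    have h0 : ∏ j, (1 / 2 + ((y + v : ℝ) : ℂ) * I - μ j) = 0 :=
      Finset.prod_eq_zero (Finset.mem_univ j) (sub_eq_zero.mpr hj)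
    rw [h0, zero_mul, norm_zero]
    positivity

end Pool.Agent.H487.GL
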