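import Pool.Agent.H487.GL.Size
import Pool.Agent.H487.GL.LinOf
import Pool.Agent.H487.GL.Gam

/-!
# The size of L-functions on the critical line and the zeros of the heat flow
-/

set_option autoImplicit false

open Filter Topology Set
open scoped ComplexConjugate

namespace Pool.Agent.H487.GL

open NB NZ H353.E H353.F Complex H370

lemma mult_one_of {F : ℂ → ℂ} (hF : Differentiable ℂ F) {s : ℂ} (hs : F s = 0) (hd : deriv F s ≠ 0) : mult F s = 1 := by
  unfold mult analyticOrderNatAt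
  rw [(hF.analyticAt s).analyticOrderAt_eq_one_of_zero_deriv_ne_zero hs hd]
  rfl

lemma deriv_ne_of {F : ℂ → ℂ} (hF : Differentiable ℂ F) {s : ℂ} (hs : F s = 0) (hd : mult F s = 1) : deriv F s ≠ 0 := by
  have h1 := (hF.analyticAt s).analyticOrderAt_deriv_add_one
  have h2 : (fun x => F x - F s) = F := by
    funext x
    rw [hs, sub_zero]
  rw [h2] at h1
  unfold mult analyticOrderNatAt at hd
  have h3 : analyticOrderAt F s = 1 := by
    cases h : analyticOrderAt F s with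
    | top => rw [h] at hd; simp at hd
    | coe n =>
      rw [h] at hd
      simp at hd
      rw [hd]
      rfl
  rw [h3] at h1
  have h4 : analyticOrderAt (deriv F) s = 0 := by
    cases h : analyticOrderAt (deriv F) s with
    | top => rw [h] at h1; simp at h1
    | coe n =>
      rw [h] at h1
      have h5 : ((n + 1 : ℕ) : ℕ∞) = ((1 : ℕ) : ℕ∞) := by push_cast; exact h1
      have h6 : n + 1 = 1 := by exact_mod_cast h5
      have h7 : n = 0 := by omega
      rw [h7]; rfl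
  exact (hF.analyticAt s).deriv.analyticOrderAt_eq_zero.mp h4

lemma mult_of_ne {F : ℂ → ℂ} (hF : Differentiable ℂ F) {s : ℂ} (hs : F s ≠ 0) : mult F s = 0 := by
  unfold mult analyticOrderNatAt
  rw [(hF.analyticAt s).analyticOrderAt_eq_zero.mpr hs]
  rfl

/-- zeros of the flow are in a strip -/
lemma flow_strip {m : ℕ} (hm : 1 ≤ m) {θ : ℝ} (hθ0 : 0 ≤ θ) (hθ1 : θ ≤ 1 / 2) {N : ℝ} {μ : Fin m → ℂ}
    {α : Fin m → ℕ → ℂ} {ε : ℂ} {Λ : ℂ → ℂ} (d : DatumT θ N μ α ε Λ) {t : ℝ} (ht : 0 ≤ t) {s : ℂ}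
    (hs : flow t (NB.xi N Λ) s = 0) : |s.re - 1 / 2| ≤ 3 / 2 := by
  have C1 := (datum_cl hm hθ0 hθ1 d).flow ht
  obtain ⟨ε', hfe⟩ := C1.fe
  have h1 := C1.zer s hs
  have h2 : flow t (NB.xi N Λ) (1 - conj s) = 0 := by
    rw [hfe]
    have : 1 - conj (1 - conj s) = s := by simp
    rw [this, hs, map_zero, mul_zero]
  have h3 := C1.zer _ h2
  have h4 : (1 - conj s).re = 1 - s.re := by simp
  rw [h4] at h3
  rw [abs_le]
  constructor <;> linarith

/-- **few zeros off the line ⟹ bound of the L-function** -/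
theorem datum_size (m : ℕ) (hm : 1 ≤ m) {θ : ℝ} (hθ0 : 0 ≤ θ) (hθ1 : θ ≤ 1 / 2) {η : ℝ} (hη : 0 < η) :
    ∃ A δ C₀ : ℝ, 0 < A ∧ 0 < δ ∧ 1 < C₀ ∧
      ∀ (N : ℝ) (μ : Fin m → ℂ) (α : Fin m → ℕ → ℂ) (ε : ℂ) (Λ : ℂ → ℂ), DatumT θ N μ α ε Λ →
      ∀ y t : ℝ, C₀ ≤ NB.cond N μ y → η ≤ t * Real.log (NB.cond N μ y) →
      (∀ T : Finset ℂ, (∀ s ∈ T, 1 / 2 < s.re ∧ |s.im - y| ≤ A) →
        ∑ s ∈ T, (mult (flow t (NB.xi N Λ)) s : ℝ) ≤ δ * Real.log (NB.cond N μ y)) →
      ‖Lf μ Λ (1 / 2 + y * I)‖ ≤ Real.exp ((t * Real.log (NB.cond N μ y) / 4 + η) * Real.log (NB.cond N μ y)) := by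
  obtain ⟨K, HK⟩ := datum_base m hm hθ0 hθ1
  obtain ⟨A, δ, ℓ₀, hA, hδ, hℓ₀, H⟩ := size_of_flow 2 K 4 η (2 * η) (by norm_num) (by norm_num) hη (by linarith)
  refine ⟨A, δ / 2, Real.exp (2 * ℓ₀ + |K| / η), hA, by positivity, Real.one_lt_exp_iff.mpr (by positivity),
    fun N μ α ε Λ d y t hC ht hT => ?_⟩
  have C0 := datum_cl hm hθ0 hθ1 d
  have B := HK N μ α ε Λ d y
  have hN := d.one_le
  have hc0 : 0 < NB.cond N μ y := by linarith [cond_one hN μ y]
  set L : ℝ := Real.log (NB.cond N μ y) with hL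
  have hLl : 2 * ℓ₀ + |K| / η ≤ L := by
    rw [hL, Real.le_log_iff_exp_le hc0]
    exact hC
  have hKη : 0 ≤ |K| / η := by positivity
  have hL0 : 0 < L := by linarith
  have ht0 : 0 < t := pos_of_mul_pos_left (lt_of_lt_of_le hη ht) hL0.le
  have hM := B.hM
  have hlow := mb_lf hN d.re_le Λ y
  have ept : NZ.pt y 0 0 = 1 / 2 + (y : ℂ) * I := by unfold NZ.pt; push_cast; ring
  -- it suffices to bound the completed function
  suffices hs : ‖NB.xi N Λ (1 / 2 + y * I)‖ ≤ Mb N μ y * Real.exp ((t * L / 4 + η) * L) by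
    have h1 : ‖Lf μ Λ (1 / 2 + y * I)‖ * Mb N μ y ≤ Real.exp ((t * L / 4 + η) * L) * Mb N μ y := by linarith
    exact le_of_mul_le_mul_right h1 hM
  rcases le_total (t * L) 4 with h4 | h4
  · have et : t * L / (2 * (1 / 2 * L)) = t := by field_simp
    have h1 := H (NB.xi N Λ) (Mb N μ y) (1 / 2 * L) y B (by linarith) (t * L) ht h4 (fun T hTT => by
      rw [et, heat_eq_flow C0.diff C0.type0 ht0]
      refine (hT T hTT).trans (le_of_eq ?_)
      ring)
    rw [ept] at h1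
    refine h1.trans (le_of_eq ?_)
    congr 2
    ring
  · have h1 := B.up 0 0
    rw [abs_zero, max_eq_right (by norm_num : (0:ℝ) ≤ 2), ept] at h1
    refine h1.trans (mul_le_mul_of_nonneg_left (Real.exp_le_exp.mpr ?_) hM.le)
    have h2 : K ≤ η * L := by
      have h3 : |K| / η ≤ L := by linarith
      rw [div_le_iff₀ hη] at h3
      linarith [le_abs_self K]
    have h5 : 4 * L ≤ t * L * L := by gcongr
    linarith

/-- **Lindelöf size ⟹ few zeros off the line** -/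
theorem datum_few (m : ℕ) (hm : 1 ≤ m) {θ : ℝ} (hθ0 : 0 ≤ θ) (hθ1 : θ ≤ 1 / 2) {η : ℝ} (hη : 0 < η) :
    ∃ A δ C₀ t₁ : ℝ, 0 < A ∧ 0 < δ ∧ 1 < C₀ ∧ 0 < t₁ ∧
      ∀ (N : ℝ) (μ : Fin m → ℂ) (α : Fin m → ℕ → ℂ) (ε : ℂ) (Λ : ℂ → ℂ), DatumT θ N μ α ε Λ →
      ∀ y t : ℝ, C₀ ≤ NB.cond N μ y → t ≤ t₁ → η ≤ t * Real.log (NB.cond N μ y) →
      (∀ v : ℝ, |v - y| ≤ A → ‖Lf μ Λ (1 / 2 + v * I)‖ ≤ Real.exp (δ * Real.log (NB.cond N μ y))) →
      ∀ T : Finset ℂ, (∀ s ∈ T, |s.im - y| ≤ 1 ∧ ¬ (s.re = 1 / 2 ∧ deriv (flow t (NB.xi N Λ)) s ≠ 0)) →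
        ∑ s ∈ T, (mult (flow t (NB.xi N Λ)) s : ℝ) ≤ η * Real.log (NB.cond N μ y) := by
  have hm' : (1 : ℝ) ≤ m := by exact_mod_cast hm
  obtain ⟨K, HK⟩ := datum_base m hm hθ0 hθ1
  obtain ⟨A, δ₁, L1, hA, hδ₁, hL1, H1⟩ := few_bad 2 K 6 (min η 6) η (by norm_num) (by norm_num) (by positivity) (min_le_right _ _) hη
  obtain ⟨A', δ₂, L2, hA', hδ₂, hL2, H2⟩ := lin_of_line m (max K 1) A δ₁ (le_max_right _ _) hA.le hδ₁
  obtain ⟨t₂, ht₂, H0⟩ := datum_heat m hm hθ0 hθ1 (η := 1) one_pos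
  set E : ℝ := (2 * Real.pi) ^ m * Real.exp (6 * m * A') with hE
  have hpi := Real.pi_pos
  have hE0 : 0 < E := by positivity
  have hE1 : 1 ≤ E := by
    have h1 : 1 ≤ (2 * Real.pi) ^ m := one_le_pow₀ (by linarith [Real.pi_gt_three])
    have h2 : 1 ≤ Real.exp (6 * m * A') := Real.one_le_exp (by positivity)
    exact one_le_mul_of_one_le_of_one_le h1 h2
  have hlogE : 0 ≤ Real.log E := Real.log_nonneg hE1
  refine ⟨A', δ₂ / 4, Real.exp (2 * L1 + 2 * L2 + 4 * Real.log E / δ₂), min t₂ (1 / m), hA', by positivity,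
    Real.one_lt_exp_iff.mpr (by positivity), by positivity, fun N μ α ε Λ d y t hC ht1 ht hb T hT => ?_⟩
  have C0 := datum_cl hm hθ0 hθ1 d
  have B := HK N μ α ε Λ d y
  have hN := d.one_le
  have hc0 : 0 < NB.cond N μ y := by linarith [cond_one hN μ y]
  set L : ℝ := Real.log (NB.cond N μ y) with hL
  have hLl : 2 * L1 + 2 * L2 + 4 * Real.log E / δ₂ ≤ L := by
    rw [hL, Real.le_log_iff_exp_le hc0]
    exact hC
  have hEδ : 0 ≤ 4 * Real.log E / δ₂ := by positivity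
  have hL0 : 0 < L := by linarith
  have ht0 : 0 < t := pos_of_mul_pos_left (lt_of_lt_of_le hη ht) hL0.le
  have hFd : Differentiable ℂ (flow t (NB.xi N Λ)) := flow_differentiable C0.diff C0.type0 t
  classical
  set T' : Finset ℂ := T.filter fun s => flow t (NB.xi N Λ) s = 0 with hT'
  have hsum : ∑ s ∈ T, (mult (flow t (NB.xi N Λ)) s : ℝ) = ∑ s ∈ T', (mult (flow t (NB.xi N Λ)) s : ℝ) := by
    rw [hT', Finset.sum_filter]
    refine Finset.sum_congr rfl fun s _ => ?_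
    split_ifs with h
    · rfl
    · rw [mult_of_ne hFd h, Nat.cast_zero]
  rw [hsum]
  rcases le_total (t * L) 6 with h6 | h6
  · have et : t * L / (2 * (1 / 2 * L)) = t := by field_simp
    have hB : Base (NB.xi N Λ) 2 (max K 1) (Mb N μ y) (1 / 2 * L) y := by
      rw [max_eq_left B.hK]
      exact B
    have hLin := H2 (NB.xi N Λ) (Mb N μ y) (1 / 2 * L) y hB (by linarith) μ d.re_le (fun v hv => by
      have h1 := line_of_lf hm hN d.re_le Λ y v _ (hb (y + v) (by rw [add_sub_cancel_left]; exact hv))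
      refine h1.trans ?_
      refine mul_le_mul_of_nonneg_left ?_ (mul_nonneg B.hM.le (Finset.prod_nonneg fun j _ => by positivity))
      have h2 : (2 * Real.pi) ^ m * Real.exp (6 * m * |v|) ≤ E := by
        rw [hE]
        gcongr
      calc (2 * Real.pi) ^ m * Real.exp (6 * m * |v|) * Real.exp (δ₂ / 4 * L) ≤ E * Real.exp (δ₂ / 4 * L) := by gcongr
        _ = Real.exp (Real.log E + δ₂ / 4 * L) := by rw [Real.exp_add, Real.exp_log hE0]
        _ ≤ _ := by
          refine Real.exp_le_exp.mpr ?_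
          have h3 : 4 * Real.log E / δ₂ ≤ L := by linarith
          rw [div_le_iff₀ hδ₂] at h3
          linarith)
    have h1 := H1 (NB.xi N Λ) (Mb N μ y) (1 / 2 * L) y B (by linarith) hLin (t * L) ((min_le_left _ _).trans ht) h6 T' (fun s hs => by
      rw [et, heat_eq_flow C0.diff C0.type0 ht0]
      rw [hT', Finset.mem_filter] at hs
      obtain ⟨hs1, hs2⟩ := hs
      obtain ⟨b1, b2⟩ := hT s hs1
      exact ⟨flow_strip hm hθ0 hθ1 d ht0.le hs2, b1, fun h => b2 ⟨h.1, deriv_ne_of hFd hs2 h.2⟩⟩)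
    rw [et, heat_eq_flow C0.diff C0.type0 ht0] at h1
    have : 0 ≤ η * L := by positivity
    linarith
  · have h0 : ∑ s ∈ T', (mult (flow t (NB.xi N Λ)) s : ℝ) = 0 := by
      rw [Finset.sum_eq_zero]
      intro s hs
      exfalso
      rw [hT', Finset.mem_filter] at hs
      obtain ⟨hs1, hs2⟩ := hs
      obtain ⟨b1, b2⟩ := hT s hs1
      have h1 := cond_shift hN μ s.im y
      rw [abs_sub_comm] at h1
      have h2 : (m : ℝ) * |s.im - y| ≤ m := by
        have := mul_le_mul_of_nonneg_left b1 (by linarith : (0:ℝ) ≤ m)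
        linarith
      have h3 : t * m ≤ 1 := by
        have := ht1.trans (min_le_right _ _)
        rwa [le_div_iff₀ (by linarith)] at this
      have h4 : t * L ≤ t * (Real.log (NB.cond N μ s.im) + m) := by
        refine mul_le_mul_of_nonneg_left ?_ ht0.le
        rw [hL]
        linarith
      have h5 := H0 N μ α ε Λ d t ht0 (ht1.trans (min_le_left _ _)) s (by linarith)
      rw [heat_eq_flow C0.diff C0.type0 ht0] at h5
      exact b2 (h5 hs2)
    rw [h0]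
    positivity

end Pool.Agent.H487.GL
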