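import Pool.Graph.R_seed8.H370R2.Local

/-!
# Jensen's formula with a majorant on the circle
-/

set_option autoImplicit false

open Filter Topology Set Metric MeasureTheory

namespace Pool.Agent.H487.GL

open H370.Loc H370

/-- Jensen's formula, sum over a finite set of zeros -/
theorem jensen_sum {f : ℂ → ℂ} {c : ℂ} {R : ℝ} (hR : 0 < R) (hf : AnalyticOnNhd ℂ f (closedBall c R)) (hc : f c ≠ 0)
    {b : ℂ → ℝ} (hbc : Continuous b) (hb0 : ∀ z ∈ sphere c R, 0 ≤ b z) (hb : ∀ z ∈ sphere c R, ‖f z‖ ≤ Real.exp (b z))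
    (T : Finset ℂ) (hT : ∀ z ∈ T, z ∈ closedBall c R) :
    ∑ z ∈ T, (mult f z : ℝ) * Real.log (R / ‖z - c‖) ≤ Real.circleAverage b c R - Real.log ‖f c‖ := by
  have habsR : |R| = R := abs_of_pos hR
  have hK : IsPreconnected (closedBall c R) := (convex_closedBall c R).isPreconnected
  have hcR : c ∈ closedBall c R := mem_closedBall_self hR.le
  have jensen := AnalyticOnNhd.circleAverage_log_norm (c := c) (R := R) (f := f) hR.ne' (by rw [habsR]; exact hf) hc
  rw [habsR] at jensen
  have hmono : Real.circleAverage (fun z => Real.log ‖f z‖) c R ≤ Real.circleAverage b c R := by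
    refine Real.circleAverage_mono ?_ ?_ fun z hz => ?_
    · exact (hf.mono (by rw [habsR]; exact sphere_subset_closedBall)).meromorphicOn.circleIntegrable_log_norm
    · exact hbc.continuousOn.circleIntegrable hR.le
    · rw [habsR] at hz
      rcases eq_or_ne (f z) 0 with h | h
      · simp only [h, norm_zero, Real.log_zero]
        exact hb0 z hz
      · rw [Real.log_le_iff_le_exp (norm_pos_iff.mpr h)]
        exact hb z hz
  have hfin : (Function.support (MeromorphicOn.divisor f (closedBall c R))).Finite :=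
    (MeromorphicOn.divisor f (closedBall c R)).finiteSupport (isCompact_closedBall c R)
  have hterm : ∀ u, 0 ≤ (MeromorphicOn.divisor f (closedBall c R) u : ℝ) * Real.log (R * ‖c - u‖⁻¹) := fun u => by
    by_cases hu : u ∈ closedBall c R
    · rw [divisor_eq hK hf hcR hc hu]
      refine mul_nonneg (by positivity) ?_
      rcases eq_or_ne u c with h | h
      · rw [h, sub_self, norm_zero, inv_zero, mul_zero, Real.log_zero]
      · apply Real.log_nonneg
        have h1 : 0 < ‖c - u‖ := norm_pos_iff.mpr (sub_ne_zero.mpr h.symm)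
        rw [← div_eq_mul_inv, one_le_div h1]
        rw [mem_closedBall, dist_comm, dist_eq_norm] at hu
        exact hu
    · rw [Function.locallyFinsuppWithin.apply_eq_zero_of_notMem _ hu]
      simp
  have h1 : ∑ z ∈ T, (mult f z : ℝ) * Real.log (R / ‖z - c‖) ≤
      ∑ᶠ u, (MeromorphicOn.divisor f (closedBall c R) u : ℝ) * Real.log (R * ‖c - u‖⁻¹) := by
    have h2 : ∑ z ∈ T, (mult f z : ℝ) * Real.log (R / ‖z - c‖) =
        ∑ z ∈ T, (MeromorphicOn.divisor f (closedBall c R) z : ℝ) * Real.log (R * ‖c - z‖⁻¹) := by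
      refine Finset.sum_congr rfl fun z hz => ?_
      rw [divisor_eq hK hf hcR hc (hT z hz), div_eq_mul_inv, norm_sub_rev]
      push_cast
      rfl
    rw [h2, finsum_eq_sum_of_support_subset (s := hfin.toFinset ∪ T) _ (by
      intro x hx
      simp only [Finset.coe_union, Set.Finite.coe_toFinset, mem_union]
      left
      intro h
      apply hx
      simp only [h, Int.cast_zero, zero_mul])]
    exact Finset.sum_le_sum_of_subset_of_nonneg Finset.subset_union_right fun u _ _ => hterm u
  linarith

lemma integral_abs_cos : ∫ x in (0 : ℝ)..(2 * Real.pi), |Real.cos x| = 4 := by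
  have hpi := Real.pi_pos
  have hi : ∀ a b : ℝ, IntervalIntegrable (fun x => |Real.cos x|) volume a b := fun a b =>
    (Real.continuous_cos.abs).intervalIntegrable a b
  have e1 : ∫ x in (0 : ℝ)..(Real.pi / 2), |Real.cos x| = 1 := by
    have : ∫ x in (0 : ℝ)..(Real.pi / 2), |Real.cos x| = ∫ x in (0 : ℝ)..(Real.pi / 2), Real.cos x := by
      refine intervalIntegral.integral_congr fun x hx => ?_
      rw [uIcc_of_le (by linarith)] at hx
      exact abs_of_nonneg (Real.cos_nonneg_of_mem_Icc ⟨by linarith [hx.1], hx.2⟩)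
    rw [this, integral_cos, Real.sin_pi_div_two, Real.sin_zero, sub_zero]
  have e2 : ∫ x in (Real.pi / 2)..(Real.pi + Real.pi / 2), |Real.cos x| = 2 := by
    have : ∫ x in (Real.pi / 2)..(Real.pi + Real.pi / 2), |Real.cos x| =
        ∫ x in (Real.pi / 2)..(Real.pi + Real.pi / 2), -Real.cos x := by
      refine intervalIntegral.integral_congr fun x hx => ?_
      rw [uIcc_of_le (by linarith)] at hx
      exact abs_of_nonpos (Real.cos_nonpos_of_pi_div_two_le_of_le hx.1 hx.2)
    rw [this, intervalIntegral.integral_neg, integral_cos, Real.sin_pi_div_two, add_comm Real.pi, Real.sin_add_pi,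
      Real.sin_pi_div_two]
    norm_num
  have e3 : ∫ x in (Real.pi + Real.pi / 2)..(2 * Real.pi), |Real.cos x| = 1 := by
    have : ∫ x in (Real.pi + Real.pi / 2)..(2 * Real.pi), |Real.cos x| =
        ∫ x in (Real.pi + Real.pi / 2)..(2 * Real.pi), Real.cos x := by
      refine intervalIntegral.integral_congr fun x hx => ?_
      rw [uIcc_of_le (by linarith)] at hx
      refine abs_of_nonneg ?_
      have h1 : Real.cos x = Real.cos (x - 2 * Real.pi) := (Real.cos_sub_two_pi x).symm
      rw [h1]
      exact Real.cos_nonneg_of_mem_Icc ⟨by linarith [hx.1], by linarith [hx.2]⟩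
    rw [this, integral_cos, Real.sin_two_pi, add_comm Real.pi, Real.sin_add_pi, Real.sin_pi_div_two]
    norm_num
  rw [← intervalIntegral.integral_add_adjacent_intervals (hi 0 (Real.pi / 2)) (hi _ _),
    ← intervalIntegral.integral_add_adjacent_intervals (hi (Real.pi / 2) (Real.pi + Real.pi / 2)) (hi _ _), e1, e2, e3]
  norm_num

/-- the average of `|Re z - 1/2|` over a circle -/
lemma avg_abs (c : ℂ) {R A B : ℝ} (hR : 0 < R) (hA : 0 ≤ A) :
    Real.circleAverage (fun z => A * |z.re - 1 / 2| + B) c R ≤ A * (|c.re - 1 / 2| + 2 * R / Real.pi) + B := by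
  have hpi := Real.pi_pos
  rw [Real.circleAverage_def, smul_eq_mul]
  have h1 : ∫ θ in (0 : ℝ)..(2 * Real.pi), (A * |(circleMap c R θ).re - 1 / 2| + B) ≤
      ∫ θ in (0 : ℝ)..(2 * Real.pi), (A * R * |Real.cos θ| + (A * |c.re - 1 / 2| + B)) := by
    refine intervalIntegral.integral_mono_on (by linarith) (Continuous.intervalIntegrable (by fun_prop) _ _)
      (Continuous.intervalIntegrable (by fun_prop) _ _) fun θ _ => ?_
    have e : (circleMap c R θ).re = c.re + R * Real.cos θ := by
      rw [circleMap, Complex.add_re, Complex.re_ofReal_mul, Complex.exp_ofReal_mul_I_re]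
    rw [e]
    have h2 : |c.re + R * Real.cos θ - 1 / 2| ≤ |c.re - 1 / 2| + R * |Real.cos θ| := by
      have h3 := abs_add_le (c.re - 1 / 2) (R * Real.cos θ)
      rw [abs_mul, abs_of_pos hR] at h3
      have e2 : c.re + R * Real.cos θ - 1 / 2 = c.re - 1 / 2 + R * Real.cos θ := by ring
      rw [e2]; exact h3
    have h4 := mul_le_mul_of_nonneg_left h2 hA
    linarith
  have h2 : ∫ θ in (0 : ℝ)..(2 * Real.pi), (A * R * |Real.cos θ| + (A * |c.re - 1 / 2| + B)) =
      A * R * 4 + (A * |c.re - 1 / 2| + B) * (2 * Real.pi) := by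
    rw [intervalIntegral.integral_add (Continuous.intervalIntegrable (by fun_prop) _ _) intervalIntegrable_const,
      intervalIntegral.integral_const_mul, integral_abs_cos, intervalIntegral.integral_const, sub_zero, smul_eq_mul]
    ring
  rw [h2] at h1
  calc (2 * Real.pi)⁻¹ * ∫ θ in (0 : ℝ)..(2 * Real.pi), (A * |(circleMap c R θ).re - 1 / 2| + B)
      ≤ (2 * Real.pi)⁻¹ * (A * R * 4 + (A * |c.re - 1 / 2| + B) * (2 * Real.pi)) := by gcongr
    _ = _ := by field_simp; ring

/-- `log (n^n / n!) ≥ n - 1 - log n` -/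
lemma log_sum (n : ℕ) : (n : ℝ) - 2 * Real.log (n + 1) ≤
    ∑ j ∈ Finset.range n, Real.log ((n + 1) / (j + 2)) := by
  -- `∑_{i=1}^{N} log i ≤ N log N - N + 1 + log N`
  have h1 : ∀ N : ℕ, ∑ i ∈ Finset.range (N + 1), Real.log (i + 1) ≤
      (N + 1) * Real.log (N + 1) - (N + 1) + 1 + Real.log (N + 1) := by
    intro N
    induction N with
    | zero => simp
    | succ N ih =>
      rw [Finset.sum_range_succ]
      push_cast at ih ⊢
      have hN : (0 : ℝ) < N + 1 := by positivity
      have h2 : 1 / (N + 1 + 1 : ℝ) ≤ Real.log ((N + 1 + 1) / (N + 1)) := by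
        have h3 := Real.one_sub_inv_le_log_of_pos (show (0 : ℝ) < (N + 1 + 1) / (N + 1) by positivity)
        refine le_trans (le_of_eq ?_) h3
        field_simp
        ring
      rw [Real.log_div (by positivity) (by positivity)] at h2
      have h4 : (1 : ℝ) ≤ (N + 1 + 1) * (Real.log (N + 1 + 1) - Real.log (N + 1)) := by
        rw [div_le_iff₀ (by positivity)] at h2
        linarith
      linarith
  have h2 := h1 n
  rw [Finset.sum_range_succ'] at h2
  have h3 : ∑ j ∈ Finset.range n, Real.log ((n + 1) / (j + 2)) =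
      n * Real.log (n + 1) - ∑ j ∈ Finset.range n, Real.log (((j + 1 : ℕ) : ℝ) + 1) := by
    rw [show (n : ℝ) * Real.log (n + 1) = ∑ j ∈ Finset.range n, Real.log (n + 1) by
      rw [Finset.sum_const, Finset.card_range, nsmul_eq_mul], ← Finset.sum_sub_distrib]
    refine Finset.sum_congr rfl fun j _ => ?_
    rw [Real.log_div (by positivity) (by positivity)]
    congr 2
    push_cast
    ring
  rw [h3]
  have h4 : Real.log (((0 : ℕ) : ℝ) + 1) = 0 := by simp
  rw [h4] at h2
  linarith

end Pool.Agent.H487.GL
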