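import Pool.Agent.H487.GL.Line
import Pool.Agent.H487.GL.Jen

/-!
# The Lindelöf size of the function puts almost all zeros of the heat flow on the critical line
-/

set_option autoImplicit false

open MeasureTheory Set Filter Topology Metric
open scoped ComplexConjugate

namespace Pool.Agent.H487.GL

open NB NZ H370.Loc H370

lemma mult_scale {f : ℂ → ℂ} {w : ℂ} (hf : AnalyticAt ℂ f w) {c : ℂ} (hc : c ≠ 0) :
    mult (fun z => f z * c) w = mult f w := by
  unfold mult analyticOrderNatAt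
  have h1 : analyticOrderAt (f * fun _ => c) w = analyticOrderAt f w + analyticOrderAt (fun _ : ℂ => c) w :=
    analyticOrderAt_mul hf analyticAt_const
  have h2 : analyticOrderAt (fun _ : ℂ => c) w = 0 := analyticAt_const.analyticOrderAt_eq_zero.mpr hc
  rw [h2, add_zero] at h1
  have h3 : (fun z => f z * c) = f * fun _ => c := rfl
  rw [h3, h1]

/-- Jensen's formula with a constant factor in the majorant -/
theorem jensen_scaled {f : ℂ → ℂ} {c : ℂ} {R M : ℝ} (hR : 0 < R) (hM : 0 < M) (hf : AnalyticOnNhd ℂ f (closedBall c R)) (hc : f c ≠ 0)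
    {b : ℂ → ℝ} (hbc : Continuous b) (hb0 : ∀ z ∈ sphere c R, 0 ≤ b z) (hb : ∀ z ∈ sphere c R, ‖f z‖ ≤ M * Real.exp (b z))
    (T : Finset ℂ) (hT : ∀ z ∈ T, z ∈ closedBall c R) :
    ∑ z ∈ T, (mult f z : ℝ) * Real.log (R / ‖z - c‖) ≤ Real.circleAverage b c R + Real.log M - Real.log ‖f c‖ := by
  have hMc : (((M⁻¹ : ℝ)) : ℂ) ≠ 0 := by exact_mod_cast (by positivity : M⁻¹ ≠ 0)
  have hn : ∀ z, ‖f z * ((M⁻¹ : ℝ) : ℂ)‖ = ‖f z‖ * M⁻¹ := fun z => by
    rw [norm_mul, Complex.norm_real, Real.norm_of_nonneg (by positivity)]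
  have h1 := jensen_sum (f := fun z => f z * ((M⁻¹ : ℝ) : ℂ)) hR (fun z hz => (hf z hz).mul analyticAt_const)
    (mul_ne_zero hc hMc) hbc hb0 (fun z hz => by
      rw [hn, mul_inv_le_iff₀ hM, mul_comm]
      exact hb z hz) T hT
  have h2 : ∑ z ∈ T, (mult (fun z => f z * ((M⁻¹ : ℝ) : ℂ)) z : ℝ) * Real.log (R / ‖z - c‖) =
      ∑ z ∈ T, (mult f z : ℝ) * Real.log (R / ‖z - c‖) :=
    Finset.sum_congr rfl fun z hz => by rw [mult_scale (hf z (hT z hz)) hMc]
  rw [h2] at h1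
  refine h1.trans (le_of_eq ?_)
  simp only [hn]
  rw [Real.log_mul (norm_ne_zero_iff.mpr hc) (by positivity), Real.log_inv]
  ring

lemma mult_zero_pos {f : ℂ → ℂ} (hf : Differentiable ℂ f) {c : ℂ} (hc : f c ≠ 0) {z : ℂ} (hz : f z = 0) : 0 < mult f z :=
  (mult_pos (K := univ) isPreconnected_univ (fun w _ => hf.analyticAt w) (mem_univ c) hc (mem_univ z)).mpr hz

/-- choice of the subdivision -/
lemma exists_n {τ₀ e : ℝ} (hτ : 0 < τ₀) (he : 0 < e) : ∃ n : ℕ, 1 ≤ n ∧ (4 : ℝ) / (n + 1) ≤ τ₀ / 4 ∧ (4 : ℝ) / (n + 1) ≤ 1 / 8 ∧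
    2 / Real.pi * (4 / (n + 1) * (1 + 2 * Real.log (n + 1))) ≤ e / 2 := by
  set Q : ℝ := max (max 32 (16 / τ₀)) (40 / e) with hQ
  have hQ32 : 32 ≤ Q := (le_max_left _ _).trans (le_max_left _ _)
  have hQτ : 16 / τ₀ ≤ Q := (le_max_right _ _).trans (le_max_left _ _)
  have hQe : 40 / e ≤ Q := le_max_right _ _
  have hQ0 : 0 < Q := by linarith
  obtain ⟨n, hn⟩ := exists_nat_ge (Q ^ 2)
  have hpi := Real.pi_gt_three
  set x : ℝ := (n : ℝ) + 1 with hx
  have hxQ : Q ^ 2 ≤ x := by rw [hx]; linarith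
  have hQQ : Q ≤ Q ^ 2 := le_self_pow₀ (by linarith) two_ne_zero
  have hx0 : 0 < x := by linarith
  have hsq : Q ≤ Real.sqrt x := by
    rw [Real.le_sqrt' hQ0]
    exact hxQ
  have hs0 : 0 < Real.sqrt x := by linarith
  have hss : Real.sqrt x * Real.sqrt x = x := Real.mul_self_sqrt hx0.le
  have h4 : 4 / x ≤ 4 / Q := by gcongr; linarith
  refine ⟨n, ?_, ?_, ?_, ?_⟩
  · by_contra h
    push Not at h
    have : n = 0 := by omega
    rw [this] at hn
    norm_num at hn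
    nlinarith
  · refine h4.trans ?_
    rw [div_le_iff₀ hQ0]
    rw [div_le_iff₀ hτ] at hQτ
    linarith
  · refine h4.trans ?_
    rw [div_le_iff₀ hQ0]
    linarith
  · have hlog : Real.log x ≤ 2 * Real.sqrt x := by
      have h1 := Real.log_le_sub_one_of_pos hs0
      rw [Real.log_sqrt hx0.le] at h1
      linarith
    have h1 : 1 + 2 * Real.log x ≤ 5 * Real.sqrt x := by linarith
    have h2 : 4 / x * (1 + 2 * Real.log x) ≤ 20 / Real.sqrt x := by
      calc 4 / x * (1 + 2 * Real.log x) ≤ 4 / x * (5 * Real.sqrt x) := by gcongr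
        _ = 20 / Real.sqrt x := by
          rw [div_mul_eq_mul_div, div_eq_div_iff hx0.ne' hs0.ne']
          linear_combination 20 * hss
    have h3 : 20 / Real.sqrt x ≤ e / 2 := by
      rw [div_le_iff₀ hs0]
      rw [div_le_iff₀ he] at hQe
      have := mul_le_mul_of_nonneg_left hsq he.le
      linarith
    have h5 : 2 / Real.pi ≤ 1 := by rw [div_le_one (by linarith)]; linarith
    have h6 : 0 ≤ 4 / x * (1 + 2 * Real.log x) := by
      have : 0 ≤ Real.log x := Real.log_nonneg (by linarith)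
      positivity
    calc 2 / Real.pi * (4 / x * (1 + 2 * Real.log x)) ≤ 1 * (4 / x * (1 + 2 * Real.log x)) := by gcongr
      _ ≤ e / 2 := by rw [one_mul]; exact h2.trans h3

/-- **almost all zeros on the line** -/
theorem few_bad (a K T₀ τ₀ ε : ℝ) (ha : 0 < a) (hT₀ : 0 < T₀) (hτ₀ : 0 < τ₀) (hτT₀ : τ₀ ≤ T₀) (hε : 0 < ε) :
    ∃ A δ ℓ₀ : ℝ, 0 < A ∧ 0 < δ ∧ 1 ≤ ℓ₀ ∧ ∀ (X : ℂ → ℂ) (M ℓ y : ℝ), Base X a K M ℓ y → ℓ₀ ≤ ℓ →
      Lin X a M ℓ y δ A → ∀ τ : ℝ, τ₀ ≤ τ → τ ≤ T₀ → ∀ T : Finset ℂ,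
      (∀ s ∈ T, |s.re - 1 / 2| ≤ 3 / 2 ∧ |s.im - y| ≤ 1 ∧ ¬ (s.re = 1 / 2 ∧ mult (heat (τ / (2 * ℓ)) X) s = 1)) →
      ∑ s ∈ T, (mult (heat (τ / (2 * ℓ)) X) s : ℝ) ≤ ε * ℓ := by
  have hpi := Real.pi_pos
  have hpi3 := Real.pi_gt_three
  have hlog2 : 0 < Real.log 2 := Real.log_pos (by norm_num)
  set e : ℝ := ε * Real.log 2 / 2 with he
  have he0 : 0 < e := by positivity
  obtain ⟨n, hn1, hn2, hn3, hn4⟩ := exists_n hτ₀ he0
  set h : ℝ := 4 / (n + 1) with hh
  have hn0 : (0 : ℝ) < n := by exact_mod_cast hn1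
  have hh0 : 0 < h := by positivity
  have hhn : h * (n + 1) = 4 := by rw [hh]; field_simp
  set ε₃ : ℝ := min (h / Real.pi) (e / (16 * n)) with hε₃
  have hε30 : 0 < ε₃ := by positivity
  have hε3h : ε₃ ≤ h / Real.pi := min_le_left _ _
  have hε3n : ε₃ * (16 * n) ≤ e := by
    have : ε₃ ≤ e / (16 * n) := min_le_right _ _
    rwa [le_div_iff₀ (by positivity)] at this
  obtain ⟨δ₁, L1, hδ₁, hL1, H1⟩ := line_zeros a K T₀ τ₀ 6 h ε₃ ha hT₀ hτ₀ hτT₀ hh0 hn2 (by linarith) hε30 (by norm_num)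
  obtain ⟨δ₂, L2, hδ₂, hL2, H2⟩ := low_pt a K T₀ τ₀ 6 (h / 4) (h / 16) (e / 8) ha hT₀ hτ₀ (by positivity) (by linarith) (by positivity)
    (by linarith) (by positivity) (by norm_num)
  obtain ⟨δ₃, L3, hδ₃, hL3, H3⟩ := up_heat a K T₀ 6 (6 + 1 + (a + T₀ + 2)) (e / 8) hT₀ (by positivity)
  refine ⟨6 + 1 + (a + T₀ + 2), min δ₁ (min δ₂ δ₃), max L1 (max L2 L3), by positivity, lt_min hδ₁ (lt_min hδ₂ hδ₃), hL1.trans (le_max_left _ _),
    fun X M ℓ y B hℓ L τ hτ hτT T hT => ?_⟩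
  have hℓ1 : L1 ≤ ℓ := (le_max_left _ _).trans hℓ
  have hℓ2 : L2 ≤ ℓ := ((le_max_left _ _).trans (le_max_right _ _)).trans hℓ
  have hℓ3 : L3 ≤ ℓ := ((le_max_right _ _).trans (le_max_right _ _)).trans hℓ
  have hℓ0 : 1 ≤ ℓ := hL1.trans hℓ1
  have hM := B.hM
  have hτ0 : 0 < τ := by linarith
  have Lmono : ∀ δ' A' : ℝ, min δ₁ (min δ₂ δ₃) ≤ δ' → A' ≤ 6 + 1 + (a + T₀ + 2) → Lin X a M ℓ y δ' A' := fun δ' A' h1 h2 u v hu hv =>
    (L u v hu (hv.trans h2)).trans (mul_le_mul_of_nonneg_left (Real.exp_le_exp.mpr (by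
      have := mul_le_mul_of_nonneg_right h1 (by linarith : 0 ≤ ℓ)
      linarith)) hM.le)
  have L₁ := Lmono δ₁ (6 + 1 + (a + T₀ + 2)) (min_le_left _ _) le_rfl
  have L₂ := Lmono δ₂ (6 + (a + T₀ + 2)) ((min_le_right _ _).trans (min_le_left _ _)) (by linarith)
  have L₃ := Lmono δ₃ (6 + 1 + (a + T₀ + 2)) ((min_le_right _ _).trans (min_le_right _ _)) le_rfl
  set t : ℝ := τ / (2 * ℓ) with ht
  have ht0 : 0 < t := by positivity
  obtain ⟨u', v', hu', hv', hlow⟩ := H2 X M ℓ y B hℓ2 L₂ τ hτ hτT 0 (by norm_num)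
  rw [sub_zero] at hv'
  obtain ⟨hu'1, hu'2⟩ := abs_le.mp hu'
  have hu'0 : 0 < u' := by linarith
  have hline := H1 X M ℓ y B hℓ1 L₁ τ hτ hτT
  have hup := H3 X M ℓ y B hℓ3 L₃ τ hτ0 hτT
  set H : ℂ → ℂ := heat t X with hH
  have hHd : Differentiable ℂ H := heat_differentiable B.diff B.slow ht0
  set c₀ : ℂ := pt y u' v' with hc₀
  have hHc : 0 < ‖H c₀‖ := lt_of_lt_of_le (by positivity) hlow
  have hHc0 : H c₀ ≠ 0 := norm_pos_iff.mp hHc
  have hlogc : Real.log M + (ℓ * (u' + τ / 2) - e / 8 * ℓ) ≤ Real.log ‖H c₀‖ := by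
    have h1 := Real.log_le_log (by positivity) hlow
    rwa [Real.log_mul hM.ne' (Real.exp_pos _).ne', Real.log_exp] at h1
  -- the zeros on the line
  have hseg : ∀ k : ℕ, ∃ S : Finset ℝ × Finset ℝ, k < n → (∀ w ∈ S.1, v' + k * h < w ∧ w < v' + k * h + h ∧ H (pt y 0 w) = 0) ∧
      (∀ w ∈ S.2, v' - (k + 1) * h < w ∧ w < v' - (k + 1) * h + h ∧ H (pt y 0 w) = 0) ∧
      ℓ * h / Real.pi - ε₃ * ℓ ≤ S.1.card ∧ ℓ * h / Real.pi - ε₃ * ℓ ≤ S.2.card := by
    intro k
    by_cases hk : k < n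
    · have hk1 : (k : ℝ) + 1 ≤ n := by exact_mod_cast hk
      have hk0 : (0 : ℝ) ≤ k := Nat.cast_nonneg k
      have hkh : (k + 1) * h ≤ 4 := by
        have := mul_le_mul_of_nonneg_right hk1 hh0.le
        linarith
      have hkh0 : 0 ≤ k * h := by positivity
      obtain ⟨S1, a1, a2⟩ := hline (v' + k * h) (by
        have := abs_add_le v' (k * h)
        rw [abs_of_nonneg hkh0] at this
        linarith)
      obtain ⟨S2, b1, b2⟩ := hline (v' - (k + 1) * h) (by
        have := abs_sub v' ((k + 1) * h)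
        rw [abs_of_nonneg (by positivity : 0 ≤ ((k : ℝ) + 1) * h)] at this
        linarith)
      exact ⟨(S1, S2), fun _ => ⟨a1, b1, a2, b2⟩⟩
    · exact ⟨(∅, ∅), fun h => absurd h hk⟩
  choose SS hSS using hseg
  have hP : Function.Injective fun w : ℝ => pt y 0 w := by
    intro w w' hww
    have := congrArg Complex.im hww
    simp only [pt_im] at this
    linarith
  set Q : ℕ → Finset ℂ := fun k => ((SS k).1 ∪ (SS k).2).image fun w : ℝ => pt y 0 w with hQ
  -- location of the points of `Q k`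
  have hQloc : ∀ k < n, ∀ z ∈ Q k, z.re = 1 / 2 ∧ H z = 0 ∧ k * h < |z.im - y - v'| ∧ |z.im - y - v'| < (k + 1) * h := by
    intro k hk z hz
    have hk0 : (0 : ℝ) ≤ k := Nat.cast_nonneg k
    have hkh0 : 0 ≤ k * h := by positivity
    simp only [hQ, Finset.mem_image, Finset.mem_union] at hz
    obtain ⟨w, hw, rfl⟩ := hz
    obtain ⟨a1, a2, -, -⟩ := hSS k hk
    have e1 : (pt y 0 w).im - y - v' = w - v' := by rw [pt_im]; ring
    rw [e1]
    rcases hw with hw | hw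
    · obtain ⟨c1, c2, c3⟩ := a1 w hw
      rw [abs_of_pos (by linarith)]
      exact ⟨by simp, c3, by linarith, by linarith⟩
    · obtain ⟨c1, c2, c3⟩ := a2 w hw
      rw [abs_of_neg (by linarith)]
      exact ⟨by simp, c3, by linarith, by linarith⟩
  have hQcard : ∀ k < n, 2 * (ℓ * h / Real.pi - ε₃ * ℓ) ≤ (Q k).card := by
    intro k hk
    obtain ⟨a1, a2, a3, a4⟩ := hSS k hk
    have hdisj : Disjoint (SS k).1 (SS k).2 := by
      rw [Finset.disjoint_left]
      intro w h1 h2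
      have c1 := (a1 w h1).1
      have c2 := (a2 w h2).2.1
      have hk0 : (0 : ℝ) ≤ k * h := by positivity
      linarith
    have : (Q k).card = (SS k).1.card + (SS k).2.card := by
      simp only [hQ]
      rw [Finset.card_image_of_injective _ hP, Finset.card_union_of_disjoint hdisj]
    rw [this]
    push_cast
    linarith
  set SC : Finset ℂ := (Finset.range n).biUnion Q with hSC
  have hSCloc : ∀ z ∈ SC, z.re = 1 / 2 ∧ H z = 0 ∧ |z.im - y - v'| < 4 - h := by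
    intro z hz
    rw [hSC, Finset.mem_biUnion] at hz
    obtain ⟨k, hk, hzk⟩ := hz
    rw [Finset.mem_range] at hk
    obtain ⟨c1, c2, c3, c4⟩ := hQloc k hk z hzk
    refine ⟨c1, c2, lt_of_lt_of_le c4 ?_⟩
    have hk1 : (k : ℝ) + 1 ≤ n := by exact_mod_cast hk
    have := mul_le_mul_of_nonneg_right hk1 hh0.le
    linarith
  have hdistle : ∀ z : ℂ, z.re = 1 / 2 → ‖z - c₀‖ ≤ u' + |z.im - y - v'| := by
    intro z hz
    have h1 := norm_pt_sub_le y (z.re - 1 / 2) (z.im - y) u' v'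
    rw [← pt_eq, hz, sub_self, zero_sub, abs_neg, abs_of_pos hu'0] at h1
    exact h1
  have hdistpos : ∀ z : ℂ, z.re = 1 / 2 → 0 < ‖z - c₀‖ := by
    intro z hz
    rw [norm_pos_iff, sub_ne_zero]
    intro h1
    rw [h1, hc₀, pt_re] at hz
    linarith
  have hsumSC : ℓ * (8 / Real.pi) - (e / 2 + e / 8) * ℓ ≤ ∑ z ∈ SC, Real.log (4 / ‖z - c₀‖) := by
    have hdisj : ((Finset.range n : Finset ℕ) : Set ℕ).PairwiseDisjoint Q := by
      intro k hk l hl hkl
      rw [Function.onFun, Finset.disjoint_left]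
      intro z h1 h2
      have hk' : k < n := by simpa using hk
      have hl' : l < n := by simpa using hl
      obtain ⟨-, -, c3, c4⟩ := hQloc k hk' z h1
      obtain ⟨-, -, d3, d4⟩ := hQloc l hl' z h2
      have e1 : (k : ℝ) < l + 1 := lt_of_mul_lt_mul_right (c3.trans d4) hh0.le
      have e2 : (l : ℝ) < k + 1 := lt_of_mul_lt_mul_right (d3.trans c4) hh0.le
      have e3 : k < l + 1 := by exact_mod_cast e1
      have e4 : l < k + 1 := by exact_mod_cast e2
      omega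
    rw [hSC, Finset.sum_biUnion hdisj]
    have hterm : ∀ k ∈ Finset.range n, 2 * (ℓ * h / Real.pi - ε₃ * ℓ) * Real.log ((n + 1) / (k + 2)) ≤ ∑ z ∈ Q k, Real.log (4 / ‖z - c₀‖) := by
      intro k hk
      rw [Finset.mem_range] at hk
      have hk1 : (k : ℝ) + 1 ≤ n := by exact_mod_cast hk
      have hk0 : (0 : ℝ) ≤ k := Nat.cast_nonneg k
      have hlog0 : 0 ≤ Real.log ((n + 1) / (k + 2)) := by
        apply Real.log_nonneg
        rw [one_le_div (by positivity)]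
        linarith
      have h1 : (Q k).card • Real.log ((n + 1) / (k + 2)) ≤ ∑ z ∈ Q k, Real.log (4 / ‖z - c₀‖) := by
        refine Finset.card_nsmul_le_sum _ _ _ fun z hz => ?_
        obtain ⟨c1, c2, c3, c4⟩ := hQloc k hk z hz
        have h2 := hdistle z c1
        have h3 := hdistpos z c1
        apply Real.log_le_log (by positivity)
        rw [le_div_iff₀ h3]
        calc ((n : ℝ) + 1) / (k + 2) * ‖z - c₀‖ ≤ ((n : ℝ) + 1) / (k + 2) * ((k + 2) * h) := by
              gcongr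
              linarith
          _ = h * (n + 1) := by field_simp
          _ = 4 := hhn
      rw [nsmul_eq_mul] at h1
      exact (mul_le_mul_of_nonneg_right (hQcard k hk) hlog0).trans h1
    refine le_trans ?_ (Finset.sum_le_sum hterm)
    rw [← Finset.mul_sum]
    have hls := log_sum n
    have hco : 0 ≤ 2 * (ℓ * h / Real.pi - ε₃ * ℓ) := by
      have h1 := mul_le_mul_of_nonneg_right hε3h (by linarith : 0 ≤ ℓ)
      have e1 : ℓ * h / Real.pi = h / Real.pi * ℓ := by ring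
      rw [e1]
      linarith
    refine le_trans ?_ (mul_le_mul_of_nonneg_left hls hco)
    -- numerics
    have hlogn : 0 ≤ Real.log ((n : ℝ) + 1) := Real.log_nonneg (by linarith)
    have e1 : 2 * (ℓ * h / Real.pi - ε₃ * ℓ) * ((n : ℝ) - 2 * Real.log (n + 1)) =
        ℓ * (2 / Real.pi * (h * (n + 1) - h * (1 + 2 * Real.log (n + 1)))) - 2 * ε₃ * ℓ * n + 4 * ε₃ * ℓ * Real.log (n + 1) := by
      field_simp
      ring
    rw [e1, hhn]
    have h2 : 0 ≤ 4 * ε₃ * ℓ * Real.log (n + 1) := by positivity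
    have h3 := mul_le_mul_of_nonneg_right hε3n (by linarith : 0 ≤ ℓ)
    have h4 := mul_le_mul_of_nonneg_left hn4 (by linarith : 0 ≤ ℓ)
    have e2 : ℓ * (2 / Real.pi * (4 - h * (1 + 2 * Real.log (n + 1)))) =
        ℓ * (8 / Real.pi) - ℓ * (2 / Real.pi * (h * (1 + 2 * Real.log (n + 1)))) := by ring
    rw [e2]
    linarith
  -- Jensen
  have hTdist : ∀ z ∈ T, ‖z - c₀‖ ≤ 2 := by
    intro z hz
    obtain ⟨t1, t2, -⟩ := hT z hz
    have h1 : ‖z - pt y 0 0‖ ≤ 29 / 16 := by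
      have h2 : ‖z - pt y 0 0‖ ^ 2 = (z.re - 1 / 2) ^ 2 + (z.im - y) ^ 2 := by
        rw [← Complex.normSq_eq_norm_sq, Complex.normSq_apply, Complex.sub_re, Complex.sub_im, pt_re, pt_im]
        ring
      have h3 : (z.re - 1 / 2) ^ 2 ≤ (3 / 2) ^ 2 := by rw [← sq_abs]; exact pow_le_pow_left₀ (abs_nonneg _) t1 2
      have h4 : (z.im - y) ^ 2 ≤ 1 ^ 2 := by rw [← sq_abs]; exact pow_le_pow_left₀ (abs_nonneg _) t2 2
      have h5 : ‖z - pt y 0 0‖ ^ 2 ≤ (29 / 16) ^ 2 := by rw [h2]; norm_num; linarith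
      exact le_of_sq_le_sq h5 (by norm_num)
    have h2 := norm_pt_sub_le y 0 0 u' v'
    rw [zero_sub, zero_sub, abs_neg, abs_neg, abs_of_pos hu'0] at h2
    have h3 := norm_add_le (z - pt y 0 0) (pt y 0 0 - c₀)
    rw [sub_add_sub_cancel] at h3
    linarith
  have hJ := jensen_scaled (f := H) (c := c₀) (R := 4) (M := M) (by norm_num) hM (fun z _ => hHd.analyticAt z) hHc0
    (b := fun z => ℓ * |z.re - 1 / 2| + (ℓ * τ / 2 + e / 8 * ℓ)) (by fun_prop) (fun z _ => by positivity) (fun z hz => by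
      obtain ⟨b1, b2⟩ := ball_pt (sphere_subset_closedBall hz)
      have b3 := abs_add_le (z.re - 1 / 2 - u') u'
      rw [sub_add_cancel, abs_of_pos hu'0] at b3
      have b4 := abs_add_le (z.im - y - v') v'
      rw [sub_add_cancel] at b4
      have h1 := hup (z.re - 1 / 2) (z.im - y) (by linarith) (by linarith)
      rw [← pt_eq] at h1
      refine h1.trans (le_of_eq ?_)
      congr 2
      ring) (T ∪ SC) (fun z hz => by
      rw [mem_closedBall, dist_eq_norm]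
      rcases Finset.mem_union.mp hz with h1 | h1
      · linarith [hTdist z h1]
      · obtain ⟨c1, c2, c3⟩ := hSCloc z h1
        linarith [hdistle z c1])
  have havg := avg_abs c₀ (R := 4) (A := ℓ) (B := ℓ * τ / 2 + e / 8 * ℓ) (by norm_num) (by linarith)
  have hre : |c₀.re - 1 / 2| = u' := by rw [hc₀, pt_re, add_sub_cancel_left, abs_of_pos hu'0]
  rw [hre] at havg
  have htot : ∑ z ∈ T ∪ SC, (mult H z : ℝ) * Real.log (4 / ‖z - c₀‖) ≤ ℓ * (8 / Real.pi) + e / 4 * ℓ := by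
    refine hJ.trans ?_
    have e1 : ℓ * (u' + 2 * 4 / Real.pi) = ℓ * u' + ℓ * (8 / Real.pi) := by ring
    rw [e1] at havg
    linarith
  -- comparison
  have hlogpos : ∀ z ∈ T ∪ SC, 0 ≤ Real.log (4 / ‖z - c₀‖) := by
    intro z hz
    rcases eq_or_ne z c₀ with h1 | h1
    · rw [h1, sub_self, norm_zero, div_zero, Real.log_zero]
    · have h2 : 0 < ‖z - c₀‖ := norm_pos_iff.mpr (sub_ne_zero.mpr h1)
      apply Real.log_nonneg
      rw [one_le_div h2]
      rcases Finset.mem_union.mp hz with h3 | h3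
      · linarith [hTdist z h3]
      · obtain ⟨c1, c2, c3⟩ := hSCloc z h3
        linarith [hdistle z c1]
  classical
  set ind : ℂ → ℝ := fun z => if z ∈ SC then 1 else 0 with hind
  have hmultSC : ∀ z ∈ SC, 1 ≤ mult H z := fun z hz => mult_zero_pos hHd hHc0 (hSCloc z hz).2.1
  have hsplit : ∑ z ∈ T ∪ SC, (mult H z : ℝ) * Real.log (4 / ‖z - c₀‖) =
      ∑ z ∈ T ∪ SC, ((mult H z : ℝ) - ind z) * Real.log (4 / ‖z - c₀‖) + ∑ z ∈ SC, Real.log (4 / ‖z - c₀‖) := by
    have h1 : ∑ z ∈ SC, Real.log (4 / ‖z - c₀‖) = ∑ z ∈ T ∪ SC, ind z * Real.log (4 / ‖z - c₀‖) := by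
      rw [← Finset.sum_subset (Finset.subset_union_right : SC ⊆ T ∪ SC)]
      · refine Finset.sum_congr rfl fun z hz => ?_
        simp only [hind, if_pos hz, one_mul]
      · intro z _ hz
        simp only [hind, if_neg hz, zero_mul]
    rw [h1, ← Finset.sum_add_distrib]
    refine Finset.sum_congr rfl fun z _ => ?_
    ring
  have hindle : ∀ z ∈ T ∪ SC, 0 ≤ (mult H z : ℝ) - ind z := by
    intro z hz
    simp only [hind]
    by_cases h1 : z ∈ SC
    · rw [if_pos h1]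
      have : (1 : ℝ) ≤ mult H z := by exact_mod_cast hmultSC z h1
      linarith
    · rw [if_neg h1, sub_zero]
      exact Nat.cast_nonneg _
  have hTpart : ∑ z ∈ T, ((mult H z : ℝ) - ind z) * Real.log (4 / ‖z - c₀‖) ≤ e * ℓ := by
    have h1 : ∑ z ∈ T, ((mult H z : ℝ) - ind z) * Real.log (4 / ‖z - c₀‖) ≤
        ∑ z ∈ T ∪ SC, ((mult H z : ℝ) - ind z) * Real.log (4 / ‖z - c₀‖) :=
      Finset.sum_le_sum_of_subset_of_nonneg Finset.subset_union_left fun z hz _ => mul_nonneg (hindle z hz) (hlogpos z hz)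
    rw [hsplit] at htot
    have h2 : 0 < e * ℓ := by positivity
    linarith
  -- bad zeros
  have hbad : ∀ z ∈ T, Real.log 2 / 2 * (mult H z : ℝ) ≤ ((mult H z : ℝ) - ind z) * Real.log (4 / ‖z - c₀‖) := by
    intro z hz
    rcases eq_or_ne z c₀ with h1 | h1
    · have h2 : mult H z = 0 := by
        by_contra h3
        have h4 := (mult_pos (K := univ) isPreconnected_univ (fun w _ => hHd.analyticAt w) (mem_univ c₀) hHc0 (mem_univ z)).mp
          (Nat.pos_of_ne_zero h3)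
        rw [h1] at h4
        exact hHc0 h4
      have h3 : ind z = 0 := by
        simp only [hind]
        rw [if_neg]
        intro h4
        have := hmultSC z h4
        omega
      rw [h2, h3]
      simp
    · have h2 : 0 < ‖z - c₀‖ := norm_pos_iff.mpr (sub_ne_zero.mpr h1)
      have h3 : Real.log 2 ≤ Real.log (4 / ‖z - c₀‖) := by
        apply Real.log_le_log (by norm_num)
        rw [le_div_iff₀ h2]
        linarith [hTdist z hz]
      have h4 : (mult H z : ℝ) / 2 ≤ (mult H z : ℝ) - ind z := by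
        simp only [hind]
        by_cases h5 : z ∈ SC
        · rw [if_pos h5]
          have h6 := hmultSC z h5
          have h7 : mult H z ≠ 1 := fun h8 => (hT z hz).2.2 ⟨(hSCloc z h5).1, h8⟩
          have h8 : 2 ≤ mult H z := by omega
          have : (2 : ℝ) ≤ mult H z := by exact_mod_cast h8
          linarith
        · rw [if_neg h5, sub_zero]
          have : (0 : ℝ) ≤ mult H z := Nat.cast_nonneg _
          linarith
      have h5 : 0 ≤ (mult H z : ℝ) / 2 := by positivity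
      calc Real.log 2 / 2 * (mult H z : ℝ) = (mult H z : ℝ) / 2 * Real.log 2 := by ring
        _ ≤ ((mult H z : ℝ) - ind z) * Real.log (4 / ‖z - c₀‖) := mul_le_mul h4 h3 hlog2.le (by linarith)
  have hfin : Real.log 2 / 2 * ∑ z ∈ T, (mult H z : ℝ) ≤ e * ℓ := by
    rw [Finset.mul_sum]
    exact (Finset.sum_le_sum hbad).trans hTpart
  have e3 : e * ℓ = Real.log 2 / 2 * (ε * ℓ) := by rw [he]; ring
  rw [e3] at hfin
  exact le_of_mul_le_mul_left hfin (by positivity)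

end Pool.Agent.H487.GL
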