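import Pool.Agent.H487.GL.Tc

/-!
# A function of size one on a small disc with few zeros in a large disc is small in the large disc
-/

set_option autoImplicit false

open Filter Topology Set Metric

namespace Pool.Agent.H487.GL

open H370.Loc H370 NZ

theorem flat_few {R₁ d K₃ K₀ ε : ℝ} (hR : 3 ≤ R₁) (hd : 0 < d) (hd1 : d ≤ 1) (hK₃ : 0 ≤ K₃) (hK₀ : 0 ≤ K₀) (hε : 0 < ε) :
    ∃ δ L₀ : ℝ, 0 < δ ∧ 1 ≤ L₀ ∧ ∀ ℓ : ℝ, L₀ ≤ ℓ → ∀ (F : ℂ → ℂ) (c : ℂ),
      AnalyticOnNhd ℂ F (closedBall c (R₁ + d)) → (∀ z ∈ closedBall c (R₁ + d), ‖F z‖ ≤ Real.exp (K₃ * ℓ)) →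
      (∀ z ∈ closedBall c 2, Real.exp (-K₀) ≤ ‖F z‖ ∧ ‖F z‖ ≤ Real.exp K₀) →
      (∀ T : Finset ℂ, (∀ z ∈ T, z ∈ closedBall c R₁) → ∑ z ∈ T, (mult F z : ℝ) ≤ δ * ℓ) →
      ∀ z ∈ closedBall c (R₁ - d), ‖F z‖ ≤ Real.exp (ε * ℓ) := by
  have hR0 : 0 < R₁ := by linarith
  set K₄ : ℝ := K₃ + |Real.log d| + |Real.log R₁| + K₀ with hK₄
  have hK₄0 : 0 ≤ K₄ := by positivity
  set K₅ : ℝ := 2 * (K₄ + 1) * R₁ / (d / 4) / (d / 4) with hK₅
  have hK₅0 : 0 < K₅ := by positivity
  set ε₅ : ℝ := ε / (3 * R₁) with hε₅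
  have hε₅0 : 0 < ε₅ := by positivity
  obtain ⟨Lf, hLf, HF⟩ := flat (R := R₁ - d / 2) (r := R₁ - d) (K := max 1 K₅) (ε := ε₅) (by linarith) (by linarith)
    (by positivity) hε₅0
  set δ : ℝ := min (min 1 (1 / (2 * Lf))) (ε / (3 * (|Real.log (2 * R₁)| + 1))) with hδ
  have hδ0 : 0 < δ := by positivity
  have hδ1 : δ ≤ 1 := (min_le_left _ _).trans (min_le_left _ _)
  have hδL : δ * (2 * Lf) ≤ 1 := by
    have : δ ≤ 1 / (2 * Lf) := (min_le_left _ _).trans (min_le_right _ _)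
    rwa [le_div_iff₀ (by positivity)] at this
  have hδε : δ * (3 * (|Real.log (2 * R₁)| + 1)) ≤ ε := by
    have : δ ≤ ε / (3 * (|Real.log (2 * R₁)| + 1)) := min_le_right _ _
    rwa [le_div_iff₀ (by positivity)] at this
  refine ⟨δ, max 1 (max (12 * (2 * K₀ + 1) / δ) (3 * K₀ / ε)), hδ0, le_max_left _ _, fun ℓ hℓ F c hF hb h2 hT z hz => ?_⟩
  have hℓ1 : 1 ≤ ℓ := (le_max_left _ _).trans hℓ
  have hℓ0 : 0 < ℓ := by linarith
  have hℓ2 : 12 * (2 * K₀ + 1) ≤ δ * ℓ := by
    have := ((le_max_left _ _).trans (le_max_right _ _)).trans hℓ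
    rw [div_le_iff₀ hδ0] at this
    linarith
  have hℓ3 : 3 * K₀ ≤ ε * ℓ := by
    have := ((le_max_right _ _).trans (le_max_right _ _)).trans hℓ
    rw [div_le_iff₀ hε] at this
    linarith
  have hRd : 0 < R₁ + d := by linarith
  have hc2 : c ∈ closedBall c 2 := mem_closedBall_self (by norm_num)
  have hcR : c ∈ closedBall c (R₁ + d) := mem_closedBall_self hRd.le
  have hFc0 : F c ≠ 0 := norm_pos_iff.mp (lt_of_lt_of_le (Real.exp_pos _) (h2 c hc2).1)
  obtain ⟨s, g, s1, s2, s3, s4, -⟩ := extract hR0 (by linarith : R₁ < R₁ + d) (Real.one_le_exp (by positivity)) hF hFc0 hb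
  have hK : IsPreconnected (closedBall c (R₁ + d)) := (convex_closedBall c _).isPreconnected
  have hcard : (Multiset.card s : ℝ) ≤ δ * ℓ := by
    refine le_trans ?_ (hT s.toFinset fun z hz => (s1 z (Multiset.mem_toFinset.1 hz)).1)
    have h1 : Multiset.card s = ∑ z ∈ s.toFinset, s.count z := (Multiset.toFinset_sum_count_eq s).symm
    rw [h1]
    push_cast
    refine Finset.sum_le_sum fun z hz => ?_
    have hz' : z ∈ closedBall c (R₁ + d) :=
      closedBall_subset_closedBall (by linarith) (s1 z (Multiset.mem_toFinset.1 hz)).1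
    exact_mod_cast count_le_mult (hF z hz') (order_ne_top hK hF hcR hFc0 hz') (s2 z hz') s3
  -- distances
  have hfar : ∀ ρ ∈ s, ∀ w ∈ closedBall c 1, 1 ≤ ‖w - ρ‖ := by
    intro ρ hρ w hw
    by_contra hcon
    push Not at hcon
    have h3 : ρ ∈ closedBall c 2 := by
      rw [mem_closedBall, dist_eq_norm] at hw ⊢
      have h4 := norm_add_le (ρ - w) (w - c)
      rw [sub_add_sub_cancel, norm_sub_rev ρ w] at h4
      linarith
    have h4 := (h2 ρ h3).1
    rw [(s1 ρ hρ).2, norm_zero] at h4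
    exact absurd (Real.exp_pos (-K₀)) (not_lt.mpr h4)
  have hPc1 : 1 ≤ ‖Pf s c‖ := by
    have := Pf_norm_ge (s := s) (z := c) (a := 1) (by norm_num) (fun ρ hρ => hfar ρ hρ c (mem_closedBall_self (by norm_num)))
    simpa using this
  have hPc2 : ‖Pf s c‖ ≤ Real.exp (δ * ℓ * |Real.log R₁|) := by
    refine (Pf_norm_le (a := R₁) fun ρ hρ => ?_).trans (pow_le_exp hR0 _ hcard)
    have := (s1 ρ hρ).1
    rwa [mem_closedBall, dist_comm, dist_eq_norm] at this
  have hFc := h2 c hc2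
  rw [s3 c, norm_mul] at hFc
  have hgc1 : ‖g c‖ ≤ Real.exp K₀ := (le_mul_of_one_le_left (norm_nonneg _) hPc1).trans hFc.2
  have hgc2 : Real.exp (-(K₀ + δ * ℓ * |Real.log R₁|)) ≤ ‖g c‖ := by
    have h3 : Real.exp (-K₀) ≤ Real.exp (δ * ℓ * |Real.log R₁|) * ‖g c‖ :=
      hFc.1.trans (mul_le_mul_of_nonneg_right hPc2 (norm_nonneg _))
    have e : Real.exp (-(K₀ + δ * ℓ * |Real.log R₁|)) = Real.exp (-K₀) * Real.exp (-(δ * ℓ * |Real.log R₁|)) := by
      rw [← Real.exp_add]; congr 1; ring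
    rw [e]
    calc Real.exp (-K₀) * Real.exp (-(δ * ℓ * |Real.log R₁|))
        ≤ (Real.exp (δ * ℓ * |Real.log R₁|) * ‖g c‖) * Real.exp (-(δ * ℓ * |Real.log R₁|)) := by gcongr
      _ = (Real.exp (δ * ℓ * |Real.log R₁|) * Real.exp (-(δ * ℓ * |Real.log R₁|))) * ‖g c‖ := by ring
      _ = ‖g c‖ := by rw [← Real.exp_add]; simp
  have hgR : ∀ w ∈ closedBall c (R₁ + d), ‖g w‖ ≤ Real.exp (K₃ * ℓ + δ * ℓ * |Real.log d|) := by
    have hsph : ∀ w ∈ sphere c (R₁ + d), ‖g w‖ ≤ Real.exp (K₃ * ℓ + δ * ℓ * |Real.log d|) := by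
      intro w hw
      have hwR : ‖w - c‖ = R₁ + d := by rwa [mem_sphere, dist_eq_norm] at hw
      have h6 : Real.exp (-(δ * ℓ * |Real.log d|)) ≤ ‖Pf s w‖ := by
        refine (exp_le_pow hd _ hcard).trans (Pf_norm_ge hd.le fun ρ hρ => ?_)
        have h7 := (s1 ρ hρ).1
        rw [mem_closedBall, dist_eq_norm] at h7
        have h8 := norm_sub_norm_le (w - c) (ρ - c)
        have h9 : w - c - (ρ - c) = w - ρ := by ring
        rw [h9, hwR] at h8
        linarith
      have h7 := hb w (sphere_subset_closedBall hw)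
      rw [s3 w, norm_mul] at h7
      have h8 : Real.exp (-(δ * ℓ * |Real.log d|)) * ‖g w‖ ≤ Real.exp (K₃ * ℓ) :=
        (mul_le_mul_of_nonneg_right h6 (norm_nonneg _)).trans h7
      rw [Real.exp_add]
      calc ‖g w‖ = Real.exp (δ * ℓ * |Real.log d|) * (Real.exp (-(δ * ℓ * |Real.log d|)) * ‖g w‖) := by
            rw [← mul_assoc, ← Real.exp_add]; simp
        _ ≤ Real.exp (δ * ℓ * |Real.log d|) * Real.exp (K₃ * ℓ) := by gcongr
        _ = _ := mul_comm _ _
    intro w hw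
    have hdc : DiffContOnCl ℂ g (ball c (R₁ + d)) := by
      refine DifferentiableOn.diffContOnCl ?_
      rw [closure_ball c hRd.ne']
      exact s2.differentiableOn
    refine Complex.norm_le_of_forall_mem_frontier_norm_le isBounded_ball hdc (fun w hw => ?_) (by rw [closure_ball c hRd.ne']; exact hw)
    rw [frontier_ball c hRd.ne'] at hw
    exact hsph w hw
  have hδℓ : δ * ℓ ≤ ℓ := mul_le_of_le_one_left hℓ0.le hδ1
  have hratio : ∀ w ∈ closedBall c R₁, ‖g w‖ ≤ Real.exp (K₄ * ℓ) * ‖g c‖ := by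
    intro w hw
    refine (hgR w (closedBall_subset_closedBall (by linarith) hw)).trans ?_
    refine le_trans ?_ (mul_le_mul_of_nonneg_left hgc2 (Real.exp_pos _).le)
    rw [← Real.exp_add]
    apply Real.exp_le_exp.mpr
    have h3 := mul_le_mul_of_nonneg_right hδℓ (abs_nonneg (Real.log d))
    have h4 := mul_le_mul_of_nonneg_right hδℓ (abs_nonneg (Real.log R₁))
    have h5 := mul_le_mul_of_nonneg_left hℓ1 hK₀
    rw [hK₄]
    linarith
  have hld : ∀ w ∈ closedBall c (R₁ - d / 2), ‖logDeriv g w‖ ≤ K₅ * ℓ := by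
    intro w hw
    have h6 := logDeriv_zero_free (g := g) (c := c) (r := R₁) (r1 := R₁ - d / 4) (r2 := R₁ - d / 2) (B := K₄ * ℓ) (by linarith)
      (by linarith) (by linarith) (by positivity) (s2.mono (closedBall_subset_closedBall (by linarith))) s4 hratio hw
    refine h6.trans ?_
    have e1 : R₁ - (R₁ - d / 4) = d / 4 := by ring
    have e2 : R₁ - d / 4 - (R₁ - d / 2) = d / 4 := by ring
    rw [e1, e2, hK₅]
    have e : 2 * (K₄ + 1) * R₁ / (d / 4) / (d / 4) * ℓ = 2 * ((K₄ + 1) * ℓ) * R₁ / (d / 4) / (d / 4) := by ring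
    rw [e]
    have e3 : K₄ * ℓ + 1 ≤ (K₄ + 1) * ℓ := by linarith
    have e5 : R₁ - d / 4 ≤ R₁ := by linarith
    have e6 : 0 ≤ R₁ - d / 4 := by linarith
    gcongr
  have hsmall : ∀ w ∈ closedBall c 1, ‖logDeriv g w‖ ≤ 2 * (δ * ℓ) := by
    intro w hw
    have hw2 : w ∈ closedBall c 2 := closedBall_subset_closedBall (by norm_num) hw
    have hwR : w ∈ closedBall c R₁ := closedBall_subset_closedBall (by linarith) hw
    have h6 := logDeriv_zero_free (g := F) (c := c) (r := 2) (r1 := 3 / 2) (r2 := 1) (B := 2 * K₀) (by norm_num)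
      (by norm_num) (by norm_num) (by positivity) (hF.mono (closedBall_subset_closedBall (by linarith)))
      (fun z hz => norm_pos_iff.mp (lt_of_lt_of_le (Real.exp_pos _) (h2 z hz).1)) (fun z hz => by
        refine (h2 z hz).2.trans ?_
        refine le_trans ?_ (mul_le_mul_of_nonneg_left (h2 c hc2).1 (Real.exp_pos _).le)
        rw [← Real.exp_add]
        apply Real.exp_le_exp.mpr
        linarith) hw
    have h7 : logDeriv F w = logDeriv (Pf s) w + logDeriv g w := by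
      have e : F = fun z => Pf s z * g z := funext s3
      rw [e]
      refine logDeriv_mul w ?_ (s4 w hwR) ((Pf_diff s) w) (s2 w (closedBall_subset_closedBall (by linarith) hwR)).differentiableAt
      exact norm_pos_iff.mp (lt_of_lt_of_le (by norm_num : (0 : ℝ) < 1 ^ Multiset.card s)
        (Pf_norm_ge (s := s) (z := w) (a := 1) (by norm_num) fun ρ hρ => hfar ρ hρ w hw))
    have h8 := Pf_logDeriv (s := s) (z := w) (δ := 1) one_pos (fun ρ hρ => hfar ρ hρ w hw)
    rw [div_one] at h8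
    have h9 : logDeriv g w = logDeriv F w - logDeriv (Pf s) w := by rw [h7]; ring
    rw [h9]
    refine (norm_sub_le _ _).trans ?_
    norm_num at h6
    linarith
  -- the logarithmic derivative in the large disc
  have hfin : ∀ w ∈ closedBall c (R₁ - d), ‖logDeriv g w‖ ≤ ε₅ * ℓ := by
    intro w hw
    have hq : (0 : ℝ) < 2 * (δ * ℓ) := by positivity
    have hn : ∀ w, ‖logDeriv g w * (((2 * (δ * ℓ))⁻¹ : ℝ) : ℂ)‖ = ‖logDeriv g w‖ * (2 * (δ * ℓ))⁻¹ := fun w => by
      rw [norm_mul, Complex.norm_real, Real.norm_of_nonneg (by positivity)]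
    have h3 := HF (1 / (2 * δ)) (by rw [le_div_iff₀ (by positivity)]; linarith) (fun w => logDeriv g w * (((2 * (δ * ℓ))⁻¹ : ℝ) : ℂ)) c
      (fun w hw => by
        have hw' : w ∈ closedBall c R₁ := closedBall_subset_closedBall (by linarith) hw
        have hw'' : w ∈ closedBall c (R₁ + d) := closedBall_subset_closedBall (by linarith) hw
        exact (((s2 w hw'').deriv.div (s2 w hw'') (s4 w hw')).differentiableAt).mul_const _)
      (fun w hw => by
        rw [hn]
        have h4 := hld w hw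
        have h5 : K₅ * ℓ * (2 * (δ * ℓ))⁻¹ = K₅ * (1 / (2 * δ)) := by field_simp
        calc ‖logDeriv g w‖ * (2 * (δ * ℓ))⁻¹ ≤ K₅ * ℓ * (2 * (δ * ℓ))⁻¹ := by gcongr
          _ = K₅ * (1 / (2 * δ)) := h5
          _ ≤ max 1 K₅ * (1 / (2 * δ)) := by gcongr; exact le_max_right _ _)
      (fun w hw => by
        rw [hn]
        refine le_trans ?_ (le_max_left _ _)
        rw [mul_inv_le_iff₀ hq, one_mul]
        exact hsmall w hw) w hw
    rw [hn, mul_inv_le_iff₀ hq] at h3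
    refine h3.trans (le_of_eq ?_)
    field_simp
  have hsub : closedBall c (R₁ - d) ⊆ closedBall c R₁ := closedBall_subset_closedBall (by linarith)
  have hlow := (lower_of_logDeriv (s2.mono (closedBall_subset_closedBall (by linarith : R₁ - d ≤ R₁ + d)))
    (fun w hw => s4 w (hsub hw)) hfin (by positivity) hz).2
  have hPz : ‖Pf s z‖ ≤ Real.exp (δ * ℓ * |Real.log (2 * R₁)|) := by
    refine (Pf_norm_le (a := 2 * R₁) fun ρ hρ => ?_).trans (pow_le_exp (by positivity) _ hcard)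
    have h3 := (s1 ρ hρ).1
    have h4 := hsub hz
    rw [mem_closedBall, dist_eq_norm] at h3 h4
    have h5 := norm_sub_le (z - c) (ρ - c)
    have h6 : z - c - (ρ - c) = z - ρ := by ring
    rw [h6] at h5
    linarith
  rw [s3 z, norm_mul]
  calc ‖Pf s z‖ * ‖g z‖ ≤ Real.exp (δ * ℓ * |Real.log (2 * R₁)|) * (Real.exp K₀ * Real.exp (ε₅ * ℓ * (R₁ - d))) := by
        refine mul_le_mul hPz (hlow.trans ?_) (norm_nonneg _) (Real.exp_pos _).le
        exact mul_le_mul_of_nonneg_right hgc1 (Real.exp_pos _).le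
    _ = Real.exp (δ * ℓ * |Real.log (2 * R₁)| + (K₀ + ε₅ * ℓ * (R₁ - d))) := by rw [← Real.exp_add, ← Real.exp_add]
    _ ≤ Real.exp (ε * ℓ) := by
        apply Real.exp_le_exp.mpr
        have h3 : ε₅ * ℓ * (R₁ - d) ≤ ε / 3 * ℓ := by
          have e : ε / 3 * ℓ = ε₅ * ℓ * R₁ := by rw [hε₅]; field_simp
          rw [e]
          exact mul_le_mul_of_nonneg_left (by linarith) (by positivity)
        have h4 := mul_le_mul_of_nonneg_right hδε hℓ0.le
        have h5 : 0 ≤ δ * ℓ := by positivity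
        linarith

end Pool.Agent.H487.GL
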