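import Pool.Agent.H487.NZ.Cont
import Pool.Agent.H487.NZ.Shift

/-!
# The average over a half line, as an entire function of the centre
-/

set_option autoImplicit false

open MeasureTheory Set Filter Topology
open scoped ComplexConjugate

namespace Pool.Agent.H487.GL

open NB NZ

/-- average over the half line at height `y₀` -/
noncomputable def RS (t : ℝ) (F : ℂ → ℂ) (y₀ : ℝ) (s : ℂ) : ℂ :=
  ∫ x in Ioi (1 / 2 : ℝ), F (x + y₀ * Complex.I) * gk t s (x + y₀ * Complex.I)

lemma type0_trans {F : ℂ → ℂ} (h : Type0 F) (z : ℂ) : Type0 fun v => F (v + z) := by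
  intro c hc
  obtain ⟨K, hK, hb⟩ := h (c / 2) (by positivity)
  refine ⟨K * Real.exp (c * ‖z‖ ^ 2), by positivity, fun v => (hb _).trans ?_⟩
  rw [mul_assoc, ← Real.exp_add]
  refine mul_le_mul_of_nonneg_left (Real.exp_le_exp.mpr ?_) hK.le
  have h1 : ‖v + z‖ ≤ ‖v‖ + ‖z‖ := norm_add_le _ _
  have h2 : ‖v + z‖ ^ 2 ≤ (‖v‖ + ‖z‖) ^ 2 := pow_le_pow_left₀ (norm_nonneg _) h1 2
  nlinarith [sq_nonneg (‖z‖ - ‖v‖)]

/-- differentiability in the centre, over a half line -/
theorem half_diff {F : ℂ → ℂ} (hd : Continuous F) (h : Type0 F) {t : ℝ} (ht : 0 < t) (x₀ : ℝ) :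
    Differentiable ℂ fun w : ℂ => ∫ x in Ioi x₀, F x * Complex.exp (-((x + w) ^ 2 / (4 * t))) := by
  intro w₀
  obtain ⟨K, hK, hb⟩ := h (1 / (32 * t)) (by positivity)
  set R : ℝ := ‖w₀‖ + 1 with hR
  have hR0 : 0 < R := by positivity
  have hc : Continuous fun x : ℝ => F x := hd.comp Complex.continuous_ofReal
  have hkb : ∀ (x : ℝ) (w : ℂ), ‖w‖ ≤ R → ‖F x * Complex.exp (-((x + w) ^ 2 / (4 * t)))‖ ≤
      K * Real.exp (R ^ 2 / (2 * t)) * Real.exp (-(1 / (16 * t)) * x ^ 2) := by
    intro x w hw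
    rw [norm_mul, kern_norm]
    have h1 := hb x
    rw [Complex.norm_real, Real.norm_eq_abs, sq_abs] at h1
    calc ‖F x‖ * Real.exp (-(((x + w.re) ^ 2 - w.im ^ 2) / (4 * t)))
        ≤ (K * Real.exp (1 / (32 * t) * x ^ 2)) * Real.exp (-(((x + w.re) ^ 2 - w.im ^ 2) / (4 * t))) := by gcongr
      _ = K * Real.exp (1 / (32 * t) * x ^ 2 + -(((x + w.re) ^ 2 - w.im ^ 2) / (4 * t))) := by rw [Real.exp_add]; ring
      _ ≤ K * Real.exp (R ^ 2 / (2 * t) + -(1 / (16 * t)) * x ^ 2) := by
          refine mul_le_mul_of_nonneg_left (Real.exp_le_exp.mpr ?_) hK.le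
          have h2 : ‖w‖ ^ 2 = w.re ^ 2 + w.im ^ 2 := by rw [← Complex.normSq_eq_norm_sq, Complex.normSq_apply]; ring
          have h3 : ‖w‖ ^ 2 ≤ R ^ 2 := pow_le_pow_left₀ (norm_nonneg _) hw 2
          have h4 : x ^ 2 / 2 ≤ (x + w.re) ^ 2 + w.re ^ 2 := by nlinarith [sq_nonneg (x + 2 * w.re)]
          have e : R ^ 2 / (2 * t) + -(1 / (16 * t)) * x ^ 2 - (1 / (32 * t) * x ^ 2 + -(((x + w.re) ^ 2 - w.im ^ 2) / (4 * t))) =
              (64 * R ^ 2 - 12 * x ^ 2 + 32 * ((x + w.re) ^ 2 - w.im ^ 2)) / (128 * t) := by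
            field_simp
            ring
          have h5 : 0 ≤ (64 * R ^ 2 - 12 * x ^ 2 + 32 * ((x + w.re) ^ 2 - w.im ^ 2)) / (128 * t) := by
            apply div_nonneg _ (by positivity)
            nlinarith
          linarith
      _ = _ := by rw [Real.exp_add]; ring
  have hder : ∀ (x : ℝ) (w : ℂ), HasDerivAt (fun w : ℂ => F x * Complex.exp (-((x + w) ^ 2 / (4 * t))))
      (F x * Complex.exp (-((x + w) ^ 2 / (4 * t))) * (-((x + w) / (2 * t)))) w := by
    intro x w
    have h1 : HasDerivAt (fun w : ℂ => -(((x : ℂ) + w) ^ 2 / (4 * t))) (-((x + w) / (2 * t))) w := by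
      have h2 : HasDerivAt (fun w : ℂ => (x : ℂ) + w) 1 w := (hasDerivAt_id w).const_add _
      have h3 := ((h2.pow 2).div_const (4 * (t : ℂ))).neg
      refine h3.congr_deriv ?_
      have : (t : ℂ) ≠ 0 := by exact_mod_cast ht.ne'
      field_simp
      push_cast
      ring
    have h4 := (h1.cexp).const_mul (F x)
    refine h4.congr_deriv ?_
    ring
  have hmeas : ∀ w : ℂ, AEStronglyMeasurable (fun x : ℝ => F x * Complex.exp (-((x + w) ^ 2 / (4 * t))))
      ((volume : Measure ℝ).restrict (Ioi x₀)) := fun w => by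
    refine Continuous.aestronglyMeasurable (hc.mul ?_)
    fun_prop
  have key := hasDerivAt_integral_of_dominated_loc_of_deriv_le (μ := (volume : Measure ℝ).restrict (Ioi x₀)) (𝕜 := ℂ)
    (F := fun (w : ℂ) (x : ℝ) => F x * Complex.exp (-((x + w) ^ 2 / (4 * t))))
    (F' := fun (w : ℂ) (x : ℝ) => F x * Complex.exp (-((x + w) ^ 2 / (4 * t))) * (-((x + w) / (2 * t))))
    (x₀ := w₀) (s := Metric.ball w₀ 1)
    (bound := fun x : ℝ => (K * Real.exp (R ^ 2 / (2 * t)) / (2 * t)) * ((|x| + R) * Real.exp (-(1 / (16 * t)) * x ^ 2)))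
    (Metric.ball_mem_nhds _ one_pos) (Eventually.of_forall hmeas) ?_ ?_ ?_ ?_ ?_
  · exact key.2.differentiableAt
  · have h1 : Integrable fun x : ℝ => K * Real.exp (R ^ 2 / (2 * t)) * Real.exp (-(1 / (16 * t)) * x ^ 2) :=
      (integrable_exp_neg_mul_sq (by positivity)).const_mul _
    exact (h1.integrableOn).mono' (hmeas w₀) (Eventually.of_forall fun x => hkb x w₀ (by rw [hR]; linarith))
  · refine (hmeas w₀).mul (Continuous.aestronglyMeasurable ?_)
    fun_prop
  · refine Eventually.of_forall fun x w hw => ?_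
    have hw1 : ‖w‖ ≤ R := by
      rw [Metric.mem_ball, dist_eq_norm] at hw
      have := norm_add_le (w - w₀) w₀
      rw [sub_add_cancel] at this
      linarith
    rw [norm_mul]
    have h1 := hkb x w hw1
    have h2 : ‖-(((x : ℂ) + w) / (2 * t))‖ ≤ (|x| + R) / (2 * t) := by
      rw [norm_neg, norm_div]
      have e : ‖(2 * (t : ℂ))‖ = 2 * t := by
        rw [norm_mul, Complex.norm_real, Real.norm_of_nonneg ht.le]; simp
      rw [e]
      gcongr
      refine (norm_add_le _ _).trans ?_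
      rw [Complex.norm_real, Real.norm_eq_abs]
      linarith
    refine (mul_le_mul h1 h2 (norm_nonneg _) (by positivity)).trans (le_of_eq ?_)
    ring
  · have h0 : Integrable fun x : ℝ => Real.exp (-(1 / (16 * t)) * x ^ 2) := integrable_exp_neg_mul_sq (by positivity)
    have h1 : Integrable fun x : ℝ => |x| * Real.exp (-(1 / (16 * t)) * x ^ 2) := by
      have h2 := (integrable_mul_exp_neg_mul_sq (b := 1 / (16 * t)) (by positivity)).norm
      refine h2.congr (Eventually.of_forall fun x => ?_)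
      simp only []
      rw [norm_mul, Real.norm_eq_abs, Real.norm_of_nonneg (Real.exp_pos _).le]
    have h2 := (h1.add (h0.const_mul R)).const_mul (K * Real.exp (R ^ 2 / (2 * t)) / (2 * t))
    refine (h2.congr (Eventually.of_forall fun x => ?_)).integrableOn
    simp only [Pi.add_apply]
    ring
  · exact Eventually.of_forall fun x w _ => hder x w

lemma rs_eq (t : ℝ) (F : ℂ → ℂ) (y₀ : ℝ) (s : ℂ) : RS t F y₀ s =
    ∫ x in Ioi (1 / 2 : ℝ), (fun v : ℂ => F (v + y₀ * Complex.I)) x *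
      Complex.exp (-((x + (y₀ * Complex.I - s)) ^ 2 / (4 * t))) := by
  unfold RS gk
  refine integral_congr_ae (Eventually.of_forall fun x => ?_)
  simp only []
  congr 4
  ring

theorem rs_diff {F : ℂ → ℂ} (hd : Continuous F) (h : Type0 F) {t : ℝ} (ht : 0 < t) (y₀ : ℝ) :
    Differentiable ℂ (RS t F y₀) := by
  have h1 := half_diff (F := fun v : ℂ => F (v + y₀ * Complex.I)) (hd.comp (by fun_prop)) (type0_trans h _) ht (1 / 2)
  have h2 : RS t F y₀ = (fun w : ℂ => ∫ x in Ioi (1 / 2 : ℝ), (fun v : ℂ => F (v + y₀ * Complex.I)) x *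
      Complex.exp (-((x + w) ^ 2 / (4 * t)))) ∘ fun s : ℂ => (y₀ * Complex.I - s) := funext fun s => rs_eq t F y₀ s
  rw [h2]
  exact h1.comp (by fun_prop)

lemma flow_trans {F : ℂ → ℂ} (t : ℝ) (z w : ℂ) : flow t (fun v => F (v + z)) w = flow t F (w + z) := by
  unfold flow
  refine tsum_congr fun k => ?_
  rw [iteratedDeriv_comp_add_const]

/-- **decomposition of the heat flow** into the two half lines at any height -/
theorem rs_halves {F : ℂ → ℂ} (hd : Differentiable ℂ F) (h : Type0 F) {ε : ℂ} (hfe : ∀ s, F s = ε * conj (F (1 - conj s)))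
    {t : ℝ} (ht : 0 < t) (y₀ : ℝ) (s : ℂ) :
    heat t F s = ((1 / Real.sqrt (4 * Real.pi * t) : ℝ) : ℂ) *
      (RS t F y₀ s + ε * conj (RS t F y₀ (1 - conj s))) := by
  have hs : Real.sqrt (4 * Real.pi * t) ≠ 0 := by
    have := Real.pi_pos
    positivity
  have h1 := gauss_shift (F := fun v : ℂ => F (v + y₀ * Complex.I)) (hd.comp (by fun_prop)) (type0_trans h _) ht
    (y₀ * Complex.I - s)
  rw [flow_trans] at h1
  have e1 : -(y₀ * Complex.I - s) + y₀ * Complex.I = s := by ring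
  rw [e1, ← heat_eq_flow hd h ht] at h1
  have e2 : heat t F s = ((1 / Real.sqrt (4 * Real.pi * t) : ℝ) : ℂ) *
      (((Real.sqrt (4 * Real.pi * t) : ℝ) : ℂ) * heat t F s) := by
    rw [← mul_assoc, ← Complex.ofReal_mul, one_div_mul_cancel hs, Complex.ofReal_one, one_mul]
  rw [e2, ← h1]
  congr 1
  have hg : ∀ x : ℝ, (fun v : ℂ => F (v + y₀ * Complex.I)) x * Complex.exp (-((x + (y₀ * Complex.I - s)) ^ 2 / (4 * t))) =
      F (x + y₀ * Complex.I) * gk t s (x + y₀ * Complex.I) := by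
    intro x
    unfold gk
    simp only []
    congr 4
    ring
  rw [integral_congr_ae (Eventually.of_forall hg)]
  have hI := gk_integrable hd.continuous h ht s y₀
  rw [← integral_add_compl (measurableSet_Ioi (a := (1 / 2 : ℝ))) hI, compl_Ioi]
  congr 1
  have e3 : ∫ x in Iic (1 / 2 : ℝ), F (x + y₀ * Complex.I) * gk t s (x + y₀ * Complex.I) =
      ∫ x in Ioi (1 / 2 : ℝ), F (((1 - x : ℝ) : ℂ) + y₀ * Complex.I) * gk t s (((1 - x : ℝ) : ℂ) + y₀ * Complex.I) := by
    rw [← integral_Ici_eq_integral_Ioi, ← integral_indicator measurableSet_Iic, ← integral_indicator measurableSet_Ici]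
    rw [← integral_sub_left_eq_self (fun x => (Iic (1 / 2 : ℝ)).indicator (fun x : ℝ => F (x + y₀ * Complex.I) *
      gk t s (x + y₀ * Complex.I)) x) volume 1]
    refine integral_congr_ae (Eventually.of_forall fun x => ?_)
    simp only [indicator, mem_Iic, mem_Ici]
    by_cases h : 1 / 2 ≤ x
    · rw [if_pos h, if_pos (by linarith)]
    · rw [if_neg h, if_neg (by linarith)]
  rw [e3]
  unfold RS
  rw [← integral_conj, ← integral_const_mul]
  refine integral_congr_ae (Eventually.of_forall fun x => ?_)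
  simp only []
  have e4 : F (((1 - x : ℝ) : ℂ) + y₀ * Complex.I) = ε * conj (F (x + y₀ * Complex.I)) := by
    rw [hfe]
    congr 3
    apply Complex.ext <;> simp
  have e5 : gk t s (((1 - x : ℝ) : ℂ) + y₀ * Complex.I) = conj (gk t (1 - conj s) (x + y₀ * Complex.I)) := by
    unfold gk
    rw [← Complex.exp_conj]
    congr 1
    simp only [map_neg, map_div₀, map_pow, map_sub, map_add, map_mul, map_one, Complex.conj_conj, Complex.conj_ofReal,
      Complex.conj_I, map_ofNat]
    push_cast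
    ring
  rw [e4, e5, map_mul]
  ring

end Pool.Agent.H487.GL
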