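import Pool.Graph.R_seed8.H370R2.Local

/-!
# Real zeros of the real part of a function with increasing argument
-/

set_option autoImplicit false

open Filter Topology Set Metric

namespace Pool.Agent.H487.GL

open H370.Loc

/-- the argument of a polynomial on the real line -/
lemma poly_arg (s : Multiset ℂ) : ∃ (Φ r : ℝ → ℝ), Continuous Φ ∧ (∀ v w, |Φ v - Φ w| ≤ Real.pi * Multiset.card s) ∧
    ∀ v : ℝ, Pf s v = (r v : ℂ) * Complex.exp (Φ v * Complex.I) := by
  induction s using Multiset.induction_on with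
  | empty =>
    refine ⟨fun _ => 0, fun _ => 1, continuous_const, fun v w => by simp, fun v => by simp [Pf_zero]⟩
  | cons z s ih =>
    obtain ⟨Φ, r, h1, h2, h3⟩ := ih
    by_cases hz : z.im = 0
    · refine ⟨Φ, fun v => (v - z.re) * r v, h1, fun v w => ?_, fun v => ?_⟩
      · refine (h2 v w).trans ?_
        rw [Multiset.card_cons]
        push_cast
        have := Real.pi_pos
        linarith
      · rw [Pf_cons, h3]
        have : z = (z.re : ℂ) := by apply Complex.ext <;> simp [hz]
        rw [this]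
        push_cast
        simp only [Complex.ofReal_re]
        ring
    · have him : ∀ v : ℝ, ((v : ℂ) - z).im = -z.im := fun v => by simp
      refine ⟨fun v => Φ v + Complex.arg (v - z), fun v => ‖(v : ℂ) - z‖ * r v, h1.add ?_, fun v w => ?_, fun v => ?_⟩
      · rw [continuous_iff_continuousAt]
        intro v
        have h4 : (v : ℂ) - z ∈ Complex.slitPlane := by
          rw [Complex.mem_slitPlane_iff]
          right
          rw [him]
          exact neg_ne_zero.mpr hz
        exact (Complex.continuousAt_arg h4).comp (f := fun v : ℝ => (v : ℂ) - z)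
          (Continuous.continuousAt (by fun_prop))
      · have h4 : |Complex.arg ((v : ℂ) - z) - Complex.arg ((w : ℂ) - z)| ≤ Real.pi := by
          rcases lt_or_gt_of_ne hz with h | h
          · have a1 : 0 ≤ Complex.arg ((v : ℂ) - z) := Complex.arg_nonneg_iff.mpr (by rw [him]; linarith)
            have a2 : 0 ≤ Complex.arg ((w : ℂ) - z) := Complex.arg_nonneg_iff.mpr (by rw [him]; linarith)
            have a3 := Complex.arg_le_pi ((v : ℂ) - z)
            have a4 := Complex.arg_le_pi ((w : ℂ) - z)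
            rw [abs_le]
            constructor <;> linarith
          · have a1 : Complex.arg ((v : ℂ) - z) < 0 := Complex.arg_neg_iff.mpr (by rw [him]; linarith)
            have a2 : Complex.arg ((w : ℂ) - z) < 0 := Complex.arg_neg_iff.mpr (by rw [him]; linarith)
            have a3 := Complex.neg_pi_lt_arg ((v : ℂ) - z)
            have a4 := Complex.neg_pi_lt_arg ((w : ℂ) - z)
            rw [abs_le]
            constructor <;> linarith
        rw [Multiset.card_cons]
        push_cast
        have h5 := h2 v w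
        have h6 := abs_add_le (Φ v - Φ w) (Complex.arg ((v : ℂ) - z) - Complex.arg ((w : ℂ) - z))
        have e : Φ v + Complex.arg ((v : ℂ) - z) - (Φ w + Complex.arg ((w : ℂ) - z)) =
          (Φ v - Φ w) + (Complex.arg ((v : ℂ) - z) - Complex.arg ((w : ℂ) - z)) := by ring
        rw [e]
        linarith
      · rw [Pf_cons, h3]
        have h4 := Complex.norm_mul_exp_arg_mul_I ((v : ℂ) - z)
        push_cast
        rw [add_mul, Complex.exp_add]
        linear_combination (-(r v * Complex.exp (Φ v * Complex.I))) * h4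

/-- many zeros of the real part -/
theorem real_zeros (s : Multiset ℂ) {φ : ℝ → ℂ} {v₁ v₂ L : ℝ} (h12 : v₁ < v₂) (hφ : ContinuousOn φ (Icc v₁ v₂))
    (hL : L ≤ (φ v₂).im - (φ v₁).im) :
    ∃ S : Finset ℝ, (∀ v ∈ S, v₁ < v ∧ v < v₂ ∧ (Pf s v * Complex.exp (φ v)).re = 0) ∧
      L / Real.pi - Multiset.card s - 1 ≤ S.card := by
  obtain ⟨Φ, r, h1, h2, h3⟩ := poly_arg s
  have hpi := Real.pi_pos
  set Ψ : ℝ → ℝ := fun v => Φ v + (φ v).im with hΨ
  have hΨc : ContinuousOn Ψ (Icc v₁ v₂) := h1.continuousOn.add (Complex.continuous_im.comp_continuousOn hφ)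
  have hre : ∀ v : ℝ, (Pf s v * Complex.exp (φ v)).re = r v * Real.exp (φ v).re * Real.cos (Ψ v) := by
    intro v
    have e : Pf s v * Complex.exp (φ v) = ((r v * Real.exp (φ v).re : ℝ) : ℂ) * Complex.exp ((Ψ v : ℝ) * Complex.I) := by
      rw [h3]
      have e2 : Complex.exp (φ v) = ((Real.exp (φ v).re : ℝ) : ℂ) * Complex.exp (((φ v).im : ℝ) * Complex.I) := by
        rw [Complex.ofReal_exp, ← Complex.exp_add]
        congr 1
        exact (Complex.re_add_im _).symm
      rw [e2]
      simp only [hΨ]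
      push_cast
      rw [add_mul, Complex.exp_add]
      ring
    rw [e, Complex.re_ofReal_mul, Complex.exp_ofReal_mul_I_re]
  set α : ℝ := Ψ v₁ / Real.pi - 1 / 2 with hα
  set β : ℝ := Ψ v₂ / Real.pi - 1 / 2 with hβ
  have hαβ : L / Real.pi - Multiset.card s ≤ β - α := by
    have h4 := (abs_le.mp (h2 v₂ v₁)).1
    have e : β - α = (Ψ v₂ - Ψ v₁) / Real.pi := by rw [hα, hβ]; ring
    rw [e, le_div_iff₀ hpi, sub_mul, div_mul_cancel₀ _ hpi.ne']
    simp only [hΨ]
    linarith
  set T : Finset ℤ := Finset.Icc (⌊α⌋ + 1) (⌈β⌉ - 1) with hT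
  have hk : ∀ k ∈ T, ∃ v ∈ Ioo v₁ v₂, Ψ v = (k + 1 / 2) * Real.pi := by
    intro k hk
    rw [hT, Finset.mem_Icc] at hk
    have k1 : α < k := by
      have := Int.lt_floor_add_one α
      have h5 : ((⌊α⌋ + 1 : ℤ) : ℝ) ≤ k := by exact_mod_cast hk.1
      push_cast at h5
      linarith
    have k2 : (k : ℝ) < β := by
      have := Int.ceil_lt_add_one β
      have h5 : (k : ℝ) ≤ ((⌈β⌉ - 1 : ℤ) : ℝ) := by exact_mod_cast hk.2
      push_cast at h5
      linarith
    have h6 := intermediate_value_Ioo h12.le hΨc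
    have h7 : ((k : ℝ) + 1 / 2) * Real.pi ∈ Ioo (Ψ v₁) (Ψ v₂) := by
      constructor
      · have : Ψ v₁ / Real.pi < k + 1 / 2 := by rw [hα] at k1; linarith
        rwa [div_lt_iff₀ hpi] at this
      · have : k + 1 / 2 < Ψ v₂ / Real.pi := by rw [hβ] at k2; linarith
        rwa [lt_div_iff₀ hpi] at this
    obtain ⟨v, hv, hvv⟩ := h6 h7
    exact ⟨v, hv, hvv⟩
  choose! w hw1 hw2 using hk
  refine ⟨T.image w, fun v hv => ?_, ?_⟩
  · rw [Finset.mem_image] at hv
    obtain ⟨k, hk, rfl⟩ := hv
    refine ⟨(hw1 k hk).1, (hw1 k hk).2, ?_⟩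
    rw [hre, hw2 k hk]
    have : Real.cos ((k + 1 / 2) * Real.pi) = 0 := by
      rw [Real.cos_eq_zero_iff]
      exact ⟨k, by ring⟩
    rw [this, mul_zero]
  · rw [Finset.card_image_of_injOn]
    · rw [hT, Int.card_Icc]
      have h4 : ((⌈β⌉ - 1 + 1 - (⌊α⌋ + 1) : ℤ) : ℝ) ≤ (((⌈β⌉ - 1 + 1 - (⌊α⌋ + 1) : ℤ).toNat : ℤ) : ℝ) := by
        exact_mod_cast Int.self_le_toNat _
      rw [Int.cast_natCast] at h4
      refine le_trans ?_ h4
      push_cast
      have := Int.le_ceil β
      have := Int.floor_le α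
      linarith
    · intro k hk k' hk' hkk
      have h4 := hw2 k hk
      have h5 := hw2 k' hk'
      rw [hkk] at h4
      rw [h4] at h5
      have h6 := mul_right_cancel₀ hpi.ne' h5
      have h7 : (k : ℝ) = k' := by linarith
      exact_mod_cast h7

end Pool.Agent.H487.GL
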