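import Pool.Agent.H487.GL.Low
import Pool.Agent.H487.GL.RZ

/-!
# Zeros of the heat flow on the critical line
-/

set_option autoImplicit false

open MeasureTheory Set Filter Topology Metric
open scoped ComplexConjugate

namespace Pool.Agent.H487.GL

open NB NZ H370.Loc

/-- exponential of a primitive -/
lemma exp_path {q w : ℝ → ℂ} {v₁ v₂ B : ℝ} (h12 : v₁ ≤ v₂) (hw : ContinuousOn w (Icc v₁ v₂))
    (hq : ∀ x ∈ Icc v₁ v₂, HasDerivWithinAt q (q x * w x) (Icc v₁ v₂) x) (hB : ∀ x ∈ Icc v₁ v₂, ‖w x‖ ≤ B) :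
    ∃ G : ℝ → ℂ, Continuous G ∧ (∀ x ∈ Icc v₁ v₂, q x = q v₁ * Complex.exp (G x)) ∧ G v₁ = 0 ∧
      ‖G v₂‖ ≤ B * (v₂ - v₁) := by
  set W : ℝ → ℂ := IccExtend h12 ((Icc v₁ v₂).domRestrict w) with hW
  have hWc : Continuous W := Continuous.Icc_extend' (hw.domRestrict)
  have hWw : ∀ x ∈ Icc v₁ v₂, W x = w x := fun x hx => by
    rw [hW, IccExtend_of_mem h12 _ hx]; rfl
  set G : ℝ → ℂ := fun x => ∫ y in v₁..x, W y with hG
  have hGd : ∀ x, HasDerivAt G (W x) x := fun x =>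
    intervalIntegral.integral_hasDerivAt_right (hWc.intervalIntegrable _ _)
      (hWc.stronglyMeasurableAtFilter _ _) hWc.continuousAt
  have hG0 : G v₁ = 0 := by simp [hG]
  have hH : ∀ y ∈ Icc v₁ v₂, HasDerivWithinAt (fun y => q y * Complex.exp (-G y)) 0 (Icc v₁ v₂) y := fun y hy => by
    have h1 := (hq y hy).mul ((hGd y).neg.cexp).hasDerivWithinAt
    refine h1.congr_deriv ?_
    rw [← hWw y hy]
    simp only [Pi.neg_apply]
    ring
  refine ⟨G, continuous_iff_continuousAt.mpr fun x => (hGd x).continuousAt, fun x hx => ?_, hG0, ?_⟩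
  · have h2 := (convex_Icc v₁ v₂).norm_image_sub_le_of_norm_hasDerivWithin_le (C := 0) hH
      (fun y _ => by simp) (x := v₁) (y := x) ⟨le_rfl, h12⟩ hx
    rw [zero_mul] at h2
    have hconst := sub_eq_zero.mp (norm_le_zero_iff.mp h2)
    rw [hG0, neg_zero, Complex.exp_zero, mul_one] at hconst
    rw [← hconst, mul_assoc, ← Complex.exp_add, neg_add_cancel, Complex.exp_zero, mul_one]
  · have h9 := intervalIntegral.norm_integral_le_of_norm_le_const (a := v₁) (b := v₂) (C := B) (f := W) (fun x hx => by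
      rw [uIoc_of_le h12] at hx
      rw [hWw x ⟨hx.1.le, hx.2⟩]
      exact hB x ⟨hx.1.le, hx.2⟩)
    rwa [abs_of_nonneg (by linarith)] at h9

lemma pf_line (s : Multiset ℂ) (y : ℝ) (w : ℝ) : Pf s (pt y 0 w) =
    Complex.I ^ Multiset.card s * Pf (s.map fun ρ => Complex.I * (1 / 2 + y * Complex.I - ρ)) w := by
  induction s using Multiset.induction_on with
  | empty => simp [Pf_zero]
  | cons ρ s ih =>
    rw [Pf_cons, ih, Multiset.map_cons, Pf_cons, Multiset.card_cons, pow_succ]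
    have e : pt y 0 w - ρ = Complex.I * (w - Complex.I * (1 / 2 + y * Complex.I - ρ)) := by
      unfold pt
      push_cast
      linear_combination ((1 / 2 : ℂ) + y * Complex.I - ρ) * Complex.I_sq
    rw [e]
    ring

lemma sqrt_unit {ε : ℂ} (hε : ‖ε‖ = 1) : ∃ ω : ℂ, ‖ω‖ = 1 ∧ conj ω ^ 2 = ε := by
  have h1 : (ε ^ (((2 : ℕ) : ℂ)⁻¹)) ^ 2 = ε := Complex.cpow_nat_inv_pow ε two_ne_zero
  refine ⟨conj (ε ^ (((2 : ℕ) : ℂ)⁻¹)), ?_, ?_⟩
  · rw [RCLike.norm_conj]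
    have h2 : ‖ε ^ (((2 : ℕ) : ℂ)⁻¹)‖ ^ 2 = 1 := by rw [← norm_pow, h1, hε]
    have h3 := norm_nonneg (ε ^ (((2 : ℕ) : ℂ)⁻¹))
    nlinarith
  · rw [Complex.conj_conj, h1]

/-- **zeros of the heat flow on the critical line** -/
theorem line_zeros (a K T₀ τ₀ A h ε : ℝ) (ha : 0 < a) (hT₀ : 0 < T₀) (hτ₀ : 0 < τ₀) (hτT₀ : τ₀ ≤ T₀) (hh : 0 < h)
    (hh1 : h ≤ τ₀ / 4) (hh2 : h ≤ 1) (hε : 0 < ε) (hA : 0 ≤ A) :
    ∃ δ ℓ₀ : ℝ, 0 < δ ∧ 1 ≤ ℓ₀ ∧ ∀ (X : ℂ → ℂ) (M ℓ y : ℝ), Base X a K M ℓ y → ℓ₀ ≤ ℓ →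
      Lin X a M ℓ y δ (A + 1 + (a + T₀ + 2)) → ∀ τ : ℝ, τ₀ ≤ τ → τ ≤ T₀ → ∀ v₁ : ℝ, |v₁| ≤ A →
      ∃ S : Finset ℝ, (∀ v ∈ S, v₁ < v ∧ v < v₁ + h ∧ heat (τ / (2 * ℓ)) X (pt y 0 v) = 0) ∧
        ℓ * h / Real.pi - ε * ℓ ≤ S.card := by
  have hpi := Real.pi_pos
  have hpi3 := Real.pi_gt_three
  obtain ⟨C, hC1, HC⟩ := tc (r := τ₀ / 4) (r₁ := 3 * τ₀ / 8) (R := τ₀ / 2) (by linarith) (by linarith) (by linarith)
  set u₁ : ℝ := min 1 (τ₀ / 16) with hu₁
  have hu10 : 0 < u₁ := by positivity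
  have hu11 : u₁ ≤ 1 := min_le_left _ _
  have hu12 : u₁ ≤ τ₀ / 16 := min_le_right _ _
  set ε₂ : ℝ := min u₁ (ε / (4 * C)) with hε₂
  have hε20 : 0 < ε₂ := by positivity
  have hε2u : ε₂ ≤ u₁ := min_le_left _ _
  have hε2C : C * ε₂ ≤ ε / 4 := by
    have : ε₂ ≤ ε / (4 * C) := min_le_right _ _
    rw [le_div_iff₀ (by positivity)] at this
    linarith
  obtain ⟨δ₁, L1, hδ₁, hL1, H1⟩ := low_pt a K T₀ τ₀ (A + 1) u₁ (u₁ / 8) (ε₂ / 2) ha hT₀ hτ₀ hu10 hu11 (by linarith) (by linarith)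
    (by linarith) (by linarith)
  obtain ⟨δ₂, L2, hδ₂, hL2, H2⟩ := up_rs a K T₀ (T₀ + 2) (A + 1 + (a + T₀ + 2)) ε₂ hT₀ ha (by linarith) hε20
  refine ⟨min δ₁ δ₂, max L1 (max L2 (max (2 / ε) (max (1 / ε₂) (4 / (3 * τ₀ * ε₂ ^ 2))))), lt_min hδ₁ hδ₂, hL1.trans (le_max_left _ _),
    fun X M ℓ y B hℓ L τ hτ hτT v₁ hv₁ => ?_⟩
  have hℓ1 : L1 ≤ ℓ := (le_max_left _ _).trans hℓ
  have l' := (le_max_right _ _).trans hℓ
  have hℓ2 : L2 ≤ ℓ := (le_max_left _ _).trans l'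
  have l'' := (le_max_right _ _).trans l'
  have hℓ3 : 2 / ε ≤ ℓ := (le_max_left _ _).trans l''
  have l3 := (le_max_right _ _).trans l''
  have hℓ4 : 1 / ε₂ ≤ ℓ := (le_max_left _ _).trans l3
  have hℓ5 : 4 / (3 * τ₀ * ε₂ ^ 2) ≤ ℓ := (le_max_right _ _).trans l3
  rw [div_le_iff₀ hε] at hℓ3
  rw [div_le_iff₀ hε20] at hℓ4
  rw [div_le_iff₀ (by positivity)] at hℓ5
  have hℓ0 : 1 ≤ ℓ := hL1.trans hℓ1
  have hM := B.hM
  have hτ0 : 0 < τ := by linarith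
  have L₁ : Lin X a M ℓ y δ₁ (A + 1 + (a + T₀ + 2)) := fun u v hu hv => (L u v hu hv).trans (mul_le_mul_of_nonneg_left
    (Real.exp_le_exp.mpr (by
      have := mul_le_mul_of_nonneg_right (min_le_left δ₁ δ₂) (by linarith : 0 ≤ ℓ)
      linarith)) hM.le)
  have L₂ : Lin X a M ℓ y δ₂ (A + 1 + (a + T₀ + 2)) := fun u v hu hv => (L u v hu hv).trans (mul_le_mul_of_nonneg_left
    (Real.exp_le_exp.mpr (by
      have := mul_le_mul_of_nonneg_right (min_le_right δ₁ δ₂) (by linarith : 0 ≤ ℓ)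
      linarith)) hM.le)
  set t : ℝ := τ / (2 * ℓ) with ht
  have ht0 : 0 < t := by positivity
  set v₀ : ℝ := v₁ + h / 2 with hv₀
  have hv₀A : |v₀| ≤ A + 1 := by
    have := abs_add_le v₁ (h / 2)
    rw [abs_of_pos (by linarith : 0 < h / 2)] at this
    linarith
  obtain ⟨u', v', hu', hv', hlow⟩ := H1 X M ℓ y B hℓ1 L₁ τ hτ hτT v₀ hv₀A
  obtain ⟨hu'1, hu'2⟩ := abs_le.mp hu'
  have hv'A : |v'| ≤ A + 2 := by
    have := abs_add_le (v' - v₀) v₀
    rw [sub_add_cancel] at this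
    linarith
  set H : ℂ → ℂ := heat t X with hH
  set Rf : ℂ → ℂ := RS t X (y + v₀) with hRf
  have hRd : Differentiable ℂ Rf := rs_diff B.diff.continuous B.slow.type0 ht0 (y + v₀)
  obtain ⟨e₀, he₀, hfe⟩ := B.fe
  have hdec : ∀ s, H s = ((1 / Real.sqrt (4 * Real.pi * t) : ℝ) : ℂ) * (Rf s + e₀ * conj (Rf (1 - conj s))) := fun s =>
    rs_halves B.diff B.slow.type0 hfe ht0 (y + v₀) s
  set κ : ℝ := Real.sqrt (4 * Real.pi * t) with hκ
  have hκ0 : 0 < κ := Real.sqrt_pos.mpr (by positivity)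
  have hupR : ∀ u v : ℝ, |u| ≤ T₀ + 2 → |v| ≤ A + 1 + (a + T₀ + 2) → |v - v₀| ≤ u + τ →
      ‖Rf (pt y u v)‖ ≤ M * Real.exp (ℓ * (u + τ / 2) + ε₂ * ℓ) := fun u v h1 h2 h3 =>
    H2 X M ℓ y B hℓ2 L₂ τ hτ0 hτT u v v₀ h1 h2 (by linarith) h3
  -- lower bound at `q`
  set q : ℂ := pt y u' v' with hq
  have hrefl : 1 - conj q = pt y (-u') v' := by
    rw [hq]
    apply Complex.ext <;> simp
    ring
  have hRq : M * Real.exp (ℓ * (u' + τ / 2) - ε₂ * ℓ) ≤ ‖Rf q‖ := by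
    have h1 := hupR (-u') v' (by rw [abs_neg, abs_of_nonneg (by linarith)]; linarith) (by linarith) (by linarith)
    rw [← hrefl] at h1
    have h2 := hdec q
    have h3 : κ * ‖H q‖ ≤ ‖Rf q‖ + ‖Rf (1 - conj q)‖ := by
      rw [h2, norm_mul, Complex.norm_real, Real.norm_of_nonneg (by positivity), ← mul_assoc, mul_one_div_cancel hκ0.ne', one_mul]
      refine (norm_add_le _ _).trans ?_
      rw [norm_mul, he₀, one_mul, RCLike.norm_conj]
    -- `κ e^(ε₂ ℓ / 2) ≥ 2`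
    have h4 : 2 ≤ κ * Real.exp (ε₂ / 2 * ℓ) := by
      have h5 : 2 ^ 2 ≤ (κ * Real.exp (ε₂ / 2 * ℓ)) ^ 2 := by
        rw [mul_pow, hκ, Real.sq_sqrt (by positivity), ← Real.exp_nat_mul]
        have h6 : (ε₂ * ℓ) ^ 2 / 2 ≤ Real.exp (((2 : ℕ) : ℝ) * (ε₂ / 2 * ℓ)) := by
          have h7 := Real.pow_div_factorial_le_exp (ε₂ * ℓ) (by positivity) 2
          have e : ((2 : ℕ) : ℝ) * (ε₂ / 2 * ℓ) = ε₂ * ℓ := by push_cast; ring
          rw [e]
          simpa using h7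
        have h8 : 4 * Real.pi * t * ((ε₂ * ℓ) ^ 2 / 2) ≤ 4 * Real.pi * t * Real.exp (((2 : ℕ) : ℝ) * (ε₂ / 2 * ℓ)) := by gcongr
        refine le_trans ?_ h8
        have e : 4 * Real.pi * t * ((ε₂ * ℓ) ^ 2 / 2) = Real.pi * (τ * (ε₂ ^ 2 * ℓ)) := by rw [ht]; field_simp; ring
        rw [e]
        have h9 : τ₀ * (ε₂ ^ 2 * ℓ) ≤ τ * (ε₂ ^ 2 * ℓ) := by gcongr
        have h10 : 3 * (τ₀ * (ε₂ ^ 2 * ℓ)) ≤ Real.pi * (τ * (ε₂ ^ 2 * ℓ)) :=
          mul_le_mul hpi3.le h9 (by positivity) hpi.le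
        linarith
      exact le_of_sq_le_sq h5 (by positivity)
    have h11 : Real.exp (ℓ * (-u' + τ / 2) + ε₂ * ℓ) ≤ Real.exp (ℓ * (u' + τ / 2) - ε₂ * ℓ) := by
      apply Real.exp_le_exp.mpr
      have := mul_nonneg (by linarith : 0 ≤ ℓ) (by linarith : 0 ≤ u' - ε₂)
      linarith
    have h12 : 2 * Real.exp (ℓ * (u' + τ / 2) - ε₂ * ℓ) ≤ κ * Real.exp (ℓ * (u' + τ / 2) - ε₂ / 2 * ℓ) := by
      have e : ℓ * (u' + τ / 2) - ε₂ / 2 * ℓ = ε₂ / 2 * ℓ + (ℓ * (u' + τ / 2) - ε₂ * ℓ) := by ring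
      rw [e, Real.exp_add, ← mul_assoc]
      exact mul_le_mul_of_nonneg_right h4 (Real.exp_pos _).le
    have h13 : κ * (M * Real.exp (ℓ * (u' + τ / 2) - ε₂ / 2 * ℓ)) ≤ κ * ‖H q‖ := mul_le_mul_of_nonneg_left hlow hκ0.le
    have h14 := mul_le_mul_of_nonneg_left h11 hM.le
    have h15 := mul_le_mul_of_nonneg_left h12 hM.le
    linarith
  -- local factorization of the half line average
  have hFd := nrm_diff hRd M ℓ τ
  obtain ⟨s, g, s1, s2, s3, s4, s5, s6, s7⟩ := HC (nrm Rf M ℓ τ) q (ε₂ * ℓ) (by linarith)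
    (fun z _ => hFd.analyticAt z) (fun z hz => by
      obtain ⟨b1, b2⟩ := ball_pt hz
      obtain ⟨b3, b4⟩ := abs_le.mp b1
      rw [pt_eq y z, nrm_le hM]
      have b5 := abs_add_le (z.im - y - v') v'
      have b6 := abs_add_le (z.im - y - v') (v' - v₀)
      rw [sub_add_cancel] at b5
      rw [sub_add_sub_cancel] at b6
      exact hupR (z.re - 1 / 2) (z.im - y) (abs_le.mpr ⟨by linarith, by linarith⟩) (by linarith) (by linarith)) (by
      rw [le_nrm hM]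
      exact hRq)
  -- the segment
  set P : ℝ → ℂ := fun w => pt y 0 w with hP
  have hPmem : ∀ w ∈ Icc v₁ (v₁ + h), P w ∈ closedBall q (τ₀ / 4) := by
    intro w hw
    rw [mem_closedBall, dist_eq_norm]
    have h1 := norm_pt_sub_le y 0 w u' v'
    have h2 : |w - v'| ≤ h / 2 + u₁ / 8 := by
      have h3 := abs_add_le (w - v₀) (v₀ - v')
      rw [sub_add_sub_cancel, abs_sub_comm v₀ v'] at h3
      have h4 : |w - v₀| ≤ h / 2 := abs_le.mpr ⟨by linarith [hw.1], by linarith [hw.2]⟩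
      linarith
    have h3 : |0 - u'| ≤ 5 / 4 * u₁ := by
      rw [zero_sub, abs_neg, abs_of_nonneg (by linarith)]
      linarith
    linarith
  have hPeq : ∀ w : ℝ, P w = (1 / 2 + y * Complex.I) + (w : ℂ) * Complex.I := fun w => by
    simp only [hP, pt]; push_cast; ring
  have hg0 : ∀ w ∈ Icc v₁ (v₁ + h), g (P w) ≠ 0 := fun w hw =>
    s4 _ (closedBall_subset_closedBall (by linarith) (hPmem w hw))
  have hgan : ∀ w ∈ Icc v₁ (v₁ + h), AnalyticAt ℂ g (P w) := fun w hw =>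
    s2 _ (closedBall_subset_closedBall (by linarith) (hPmem w hw))
  have hPd : ∀ w : ℝ, HasDerivAt P Complex.I w := fun w => by
    have e : P = fun w : ℝ => (1 / 2 + y * Complex.I) + (w : ℂ) * Complex.I := funext hPeq
    rw [e]
    have := ((Complex.ofRealCLM.hasDerivAt (x := w)).mul_const Complex.I).const_add (1 / 2 + y * Complex.I)
    simpa using this
  obtain ⟨G, G1, G2, G3, G4⟩ := exp_path (q := fun w => g (P w)) (w := fun w => Complex.I * logDeriv g (P w))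
    (B := C * (ε₂ * ℓ)) (by linarith : v₁ ≤ v₁ + h) (by
      refine continuousOn_const.mul fun w hw => ?_
      have h2 : DifferentiableAt ℂ (logDeriv g) (P w) := ((hgan w hw).deriv.div (hgan w hw) (hg0 w hw)).differentiableAt
      exact (ContinuousAt.comp (g := logDeriv g) (f := P) h2.continuousAt (hPd w).continuousAt).continuousWithinAt)
    (fun w hw => by
      have h10 := ((hgan w hw).differentiableAt).hasDerivAt.scomp w (hPd w)
      refine (h10.congr_deriv ?_).hasDerivWithinAt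
      rw [logDeriv_apply, smul_eq_mul]
      have h11 := hg0 w hw
      generalize P w = Y at h11 ⊢
      field_simp)
    (fun w hw => by
      rw [norm_mul, Complex.norm_I, one_mul]
      exact s6 _ (hPmem w hw))
  obtain ⟨ω, hω1, hω2⟩ := sqrt_unit he₀
  have hω0 : ω ≠ 0 := fun h => by rw [h, norm_zero] at hω1; exact one_ne_zero hω1.symm
  -- the constant
  set c₀ : ℂ := ω * ((M * Real.exp (ℓ * τ / 2) : ℝ) : ℂ) * Complex.exp (ℓ * (y * Complex.I)) * Complex.I ^ Multiset.card s * g (P v₁) with hc₀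
  have hc₀0 : c₀ ≠ 0 := by
    rw [hc₀]
    have h1 : ((M * Real.exp (ℓ * τ / 2) : ℝ) : ℂ) ≠ 0 := by exact_mod_cast (by positivity : M * Real.exp (ℓ * τ / 2) ≠ 0)
    have h2 := hg0 v₁ ⟨le_rfl, by linarith⟩
    exact mul_ne_zero (mul_ne_zero (mul_ne_zero (mul_ne_zero hω0 h1) (Complex.exp_ne_zero _)) (pow_ne_zero _ Complex.I_ne_zero)) h2
  set φ : ℝ → ℂ := fun w => Complex.log c₀ + (ℓ * w * Complex.I + G w) with hφ
  set s' : Multiset ℂ := s.map fun ρ => Complex.I * (1 / 2 + y * Complex.I - ρ) with hs'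
  have hωR : ∀ w ∈ Icc v₁ (v₁ + h), ω * Rf (P w) = Pf s' w * Complex.exp (φ w) := by
    intro w hw
    have h1 := s3 (P w)
    have h2 : Pf s (P w) = Complex.I ^ Multiset.card s * Pf s' w := pf_line s y w
    have h3 := G2 w hw
    have h4 : Rf (P w) = nrm Rf M ℓ τ (P w) * ((M * Real.exp (ℓ * τ / 2) : ℝ) : ℂ) * Complex.exp (ℓ * (P w - 1 / 2)) := by
      unfold nrm
      have h5 : ((M * Real.exp (ℓ * τ / 2) : ℝ) : ℂ) ≠ 0 := by exact_mod_cast (by positivity : M * Real.exp (ℓ * τ / 2) ≠ 0)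
      rw [Complex.ofReal_inv, Complex.exp_neg]
      field_simp
    have h6 : Complex.exp (φ w) = c₀ * (Complex.exp (ℓ * w * Complex.I) * Complex.exp (G w)) := by
      simp only [hφ]
      rw [Complex.exp_add, Complex.exp_log hc₀0, Complex.exp_add]
    have h7 : Complex.exp (ℓ * (P w - 1 / 2)) = Complex.exp (ℓ * (y * Complex.I)) * Complex.exp (ℓ * w * Complex.I) := by
      rw [← Complex.exp_add, hPeq]
      congr 1
      ring
    rw [h4, h1, h2, h3, h6, h7, hc₀]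
    ring
  have hcard : Multiset.card s' = Multiset.card s := by rw [hs', Multiset.card_map]
  obtain ⟨S, hS1, hS2⟩ := real_zeros s' (φ := φ) (v₁ := v₁) (v₂ := v₁ + h) (L := ℓ * h - C * (ε₂ * ℓ) * h) (by linarith)
    (by
      refine Continuous.continuousOn ?_
      exact continuous_const.add ((by fun_prop : Continuous fun w : ℝ => (ℓ : ℂ) * w * Complex.I).add G1))
    (by
      simp only [hφ, Complex.add_im, G3, add_zero]
      have h1 : ∀ w : ℝ, ((ℓ : ℂ) * w * Complex.I).im = ℓ * w := fun w => by simp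
      rw [h1, h1]
      have h2 := (abs_le.mp ((Complex.abs_im_le_norm (G (v₁ + h))).trans G4)).1
      have h3 : v₁ + h - v₁ = h := by ring
      rw [h3] at h2
      linarith)
  refine ⟨S, fun v hv => ?_, ?_⟩
  · obtain ⟨h1, h2, h3⟩ := hS1 v hv
    refine ⟨h1, h2, ?_⟩
    have h4 := hdec (P v)
    have h5 : 1 - conj (P v) = P v := by
      simp only [hP]
      apply Complex.ext <;> simp
      norm_num
    rw [h5] at h4
    rw [← hωR v ⟨h1.le, h2.le⟩] at h3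
    have h6 : Rf (P v) + e₀ * conj (Rf (P v)) = conj ω * (ω * Rf (P v) + conj (ω * Rf (P v))) := by
      have h7 : conj ω * ω = 1 := by rw [mul_comm, Complex.mul_conj, Complex.normSq_eq_norm_sq, hω1]; norm_num
      rw [map_mul, ← hω2]
      linear_combination (-(Rf (P v))) * h7
    have h8 : ω * Rf (P v) + conj (ω * Rf (P v)) = 0 := by
      rw [Complex.add_conj, h3]; simp
    rw [h6, h8, mul_zero, mul_zero] at h4
    exact h4
  · refine le_trans ?_ hS2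
    rw [hcard]
    have h1 : C * (ε₂ * ℓ) ≤ ε / 4 * ℓ := by
      have := mul_le_mul_of_nonneg_right hε2C (by linarith : 0 ≤ ℓ)
      linarith
    have h2 : (ℓ * h - C * (ε₂ * ℓ) * h) / Real.pi = ℓ * h / Real.pi - C * (ε₂ * ℓ) * h / Real.pi := by ring
    have h3 : C * (ε₂ * ℓ) * h / Real.pi ≤ ε / 4 * ℓ := by
      rw [div_le_iff₀ hpi]
      have h4 : C * (ε₂ * ℓ) * h ≤ (ε / 4 * ℓ) * 1 := mul_le_mul h1 hh2 hh.le (by positivity)
      have h5 : (ε / 4 * ℓ) * 1 ≤ (ε / 4 * ℓ) * Real.pi := mul_le_mul_of_nonneg_left (by linarith) (by positivity)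
      linarith
    rw [h2]
    linarith

end Pool.Agent.H487.GL
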