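import Pool.Agent.H487.NZ.Rl
import Pool.Agent.H487.NZ.Circ

/-!
# Local factorization of analytic functions of small logarithmic size
-/

set_option autoImplicit false

open Filter Topology Set Metric MeasureTheory

namespace Pool.Agent.H487.GL

open H370.Loc

/-- lower bound from a bound of the logarithmic derivative -/
lemma lower_of_logDeriv {g : ℂ → ℂ} {c : ℂ} {r L : ℝ} (hg : AnalyticOnNhd ℂ g (closedBall c r))
    (h0 : ∀ z ∈ closedBall c r, g z ≠ 0) (hL : ∀ z ∈ closedBall c r, ‖logDeriv g z‖ ≤ L) (hL0 : 0 ≤ L) {z : ℂ}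
    (hz : z ∈ closedBall c r) : ‖g c‖ * Real.exp (-(L * r)) ≤ ‖g z‖ ∧ ‖g z‖ ≤ ‖g c‖ * Real.exp (L * r) := by
  have hzr : ‖z - c‖ ≤ r := by rwa [mem_closedBall, dist_eq_norm] at hz
  have hr0 : 0 ≤ r := (norm_nonneg _).trans hzr
  have hc : c ∈ closedBall c r := mem_closedBall_self hr0
  have hseg : ∀ x ∈ Icc (0 : ℝ) 1, c + (x : ℂ) * (z - c) ∈ closedBall c r := by
    intro x hx
    rw [mem_closedBall, dist_eq_norm, add_sub_cancel_left, norm_mul, Complex.norm_real, Real.norm_of_nonneg hx.1]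
    calc x * ‖z - c‖ ≤ 1 * ‖z - c‖ := by gcongr; exact hx.2
      _ ≤ r := by rw [one_mul]; exact hzr
  have hwc : ContinuousOn (fun x : ℝ => (z - c) * logDeriv g (c + (x : ℂ) * (z - c))) (Icc 0 1) := by
    refine continuousOn_const.mul fun x hx => ?_
    have h1 := hseg x hx
    have h2 : DifferentiableAt ℂ (logDeriv g) (c + (x : ℂ) * (z - c)) :=
      ((hg _ h1).deriv.div (hg _ h1) (h0 _ h1)).differentiableAt
    refine ContinuousAt.continuousWithinAt ?_
    refine ContinuousAt.comp (g := logDeriv g) (f := fun x : ℝ => c + (x : ℂ) * (z - c)) h2.continuousAt ?_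
    exact Continuous.continuousAt (by fun_prop)
  have h8 := NZ.exp_seg (q := fun x : ℝ => g (c + (x : ℂ) * (z - c))) hwc (fun x hx => by
    have h1 := hseg x hx
    have h9 : HasDerivAt (fun x : ℝ => c + (x : ℂ) * (z - c)) (z - c) x := by
      have := ((Complex.ofRealCLM.hasDerivAt (x := x)).mul_const (z - c)).const_add c
      simpa using this
    have h10 := ((hg _ h1).differentiableAt).hasDerivAt.scomp x h9
    refine (h10.congr_deriv ?_).hasDerivWithinAt
    rw [logDeriv_apply, smul_eq_mul]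
    have h11 := h0 _ h1
    generalize c + (x : ℂ) * (z - c) = Y at h11 ⊢
    field_simp)
  simp only [Complex.ofReal_one, one_mul, Complex.ofReal_zero, zero_mul, add_zero, add_sub_cancel] at h8
  set J : ℂ := ∫ x in (0 : ℝ)..1, (z - c) * logDeriv g (c + (x : ℂ) * (z - c)) with hJ
  have hJb : ‖J‖ ≤ L * r := by
    have h9 := intervalIntegral.norm_integral_le_of_norm_le_const (a := (0 : ℝ)) (b := 1) (C := L * r)
      (f := fun x : ℝ => (z - c) * logDeriv g (c + (x : ℂ) * (z - c))) (fun x hx => ?_)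
    · rwa [sub_zero, abs_one, mul_one] at h9
    · rw [uIoc_of_le zero_le_one] at hx
      rw [norm_mul, mul_comm]
      exact mul_le_mul (hL _ (hseg x ⟨hx.1.le, hx.2⟩)) hzr (norm_nonneg _) hL0
  have hJre := abs_le.mp ((Complex.abs_re_le_norm J).trans hJb)
  rw [h8, norm_mul, Complex.norm_exp]
  exact ⟨mul_le_mul_of_nonneg_left (Real.exp_le_exp.mpr hJre.1) (norm_nonneg _),
    mul_le_mul_of_nonneg_left (Real.exp_le_exp.mpr hJre.2) (norm_nonneg _)⟩

lemma pow_le_exp {x B : ℝ} (hx : 0 < x) (n : ℕ) (h : (n : ℝ) ≤ B) : x ^ n ≤ Real.exp (B * |Real.log x|) := by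
  rw [← Real.exp_log (pow_pos hx n), Real.log_pow]
  apply Real.exp_le_exp.mpr
  calc (n : ℝ) * Real.log x ≤ n * |Real.log x| := mul_le_mul_of_nonneg_left (le_abs_self _) (Nat.cast_nonneg n)
    _ ≤ B * |Real.log x| := mul_le_mul_of_nonneg_right h (abs_nonneg _)

lemma exp_le_pow {x B : ℝ} (hx : 0 < x) (n : ℕ) (h : (n : ℝ) ≤ B) : Real.exp (-(B * |Real.log x|)) ≤ x ^ n := by
  rw [← Real.exp_log (pow_pos hx n), Real.log_pow]
  apply Real.exp_le_exp.mpr
  have h1 := neg_abs_le (Real.log x)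
  have h2 : (n : ℝ) * (-|Real.log x|) ≤ n * Real.log x := mul_le_mul_of_nonneg_left h1 (Nat.cast_nonneg n)
  have h3 : (n : ℝ) * |Real.log x| ≤ B * |Real.log x| := mul_le_mul_of_nonneg_right h (abs_nonneg _)
  linarith

/-- **local factorization**: a function with `|F| ≤ e^D` on a disc and `|F c| ≥ e^(-D)` at its centre has `O(D)` zeros, the
remaining factor has logarithmic derivative `O(D)` -/
theorem tc {r r₁ R : ℝ} (hr : 0 < r) (hr1 : r < r₁) (hR : r₁ < R) :
    ∃ C : ℝ, 1 ≤ C ∧ ∀ (F : ℂ → ℂ) (c : ℂ) (D : ℝ), 1 ≤ D → AnalyticOnNhd ℂ F (closedBall c R) →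
      (∀ z ∈ closedBall c R, ‖F z‖ ≤ Real.exp D) → Real.exp (-D) ≤ ‖F c‖ →
      ∃ (s : Multiset ℂ) (g : ℂ → ℂ), (∀ ρ ∈ s, ρ ∈ closedBall c r₁ ∧ F ρ = 0) ∧
        AnalyticOnNhd ℂ g (closedBall c R) ∧ (∀ z, F z = Pf s z * g z) ∧ (∀ z ∈ closedBall c r₁, g z ≠ 0) ∧
        (Multiset.card s : ℝ) ≤ C * D ∧ (∀ z ∈ closedBall c r, ‖logDeriv g z‖ ≤ C * D) ∧
        ∀ z ∈ closedBall c r, Real.exp (-(C * D)) ≤ ‖g z‖ := by
  have hr10 : 0 < r₁ := hr.trans hr1
  have hR0 : 0 < R := hr10.trans hR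
  set q : ℝ := Real.log (R / r₁) with hq
  have hq0 : 0 < q := Real.log_pos ((one_lt_div hr10).mpr hR)
  set C₁ : ℝ := 2 / q with hC₁
  have hC₁0 : 0 < C₁ := by positivity
  set C₂ : ℝ := 2 + C₁ * (|Real.log (R - r₁)| + |Real.log r₁|) with hC₂
  have hC₂0 : 2 ≤ C₂ := by
    have : 0 ≤ C₁ * (|Real.log (R - r₁)| + |Real.log r₁|) := by positivity
    linarith
  set rm : ℝ := (r + r₁) / 2 with hrm
  set C₃ : ℝ := 2 * (C₂ + 1) * rm / (r₁ - rm) / (rm - r) with hC₃
  have d1 : 0 < r₁ - rm := by rw [hrm]; linarith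
  have d2 : 0 < rm - r := by rw [hrm]; linarith
  have drm : 0 < rm := by linarith
  have hC₃0 : 0 < C₃ := by positivity
  set C₄ : ℝ := 1 + C₁ * |Real.log r₁| + C₃ * r with hC₄
  refine ⟨max (max 1 C₁) (max C₃ C₄), (le_max_left _ _).trans (le_max_left _ _), fun F c D hD hF hb hc => ?_⟩
  have hD0 : 0 < D := by linarith
  have hc0 : F c ≠ 0 := by
    intro h
    rw [h, norm_zero] at hc
    exact absurd (Real.exp_pos (-D)) (not_lt.mpr hc)
  obtain ⟨s, g, h1, h2, h3, h4, h5⟩ := extract hr10 hR (Real.one_le_exp hD0.le) hF hc0 hb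
  have hcard : (Multiset.card s : ℝ) ≤ C₁ * D := by
    refine h5.trans ?_
    rw [← hq, hC₁, div_mul_eq_mul_div]
    refine div_le_div_of_nonneg_right ?_ hq0.le
    rw [Real.log_div (Real.exp_pos _).ne' (norm_ne_zero_iff.mpr hc0), Real.log_exp]
    have : -D ≤ Real.log ‖F c‖ := by
      rw [Real.le_log_iff_exp_le (norm_pos_iff.mpr hc0)]
      exact hc
    linarith
  have hcmem : c ∈ closedBall c r₁ := mem_closedBall_self hr10.le
  -- the centre
  have hPc : ‖Pf s c‖ ≤ Real.exp (C₁ * D * |Real.log r₁|) := by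
    refine (Pf_norm_le (a := r₁) fun ρ hρ => ?_).trans (pow_le_exp hr10 _ hcard)
    have := (h1 ρ hρ).1
    rwa [mem_closedBall, dist_comm, dist_eq_norm] at this
  have hgc : Real.exp (-(D + C₁ * D * |Real.log r₁|)) ≤ ‖g c‖ := by
    have e := h3 c
    have h6 : ‖F c‖ ≤ Real.exp (C₁ * D * |Real.log r₁|) * ‖g c‖ := by
      rw [e, norm_mul]; gcongr
    have h7 := hc.trans h6
    have h8 : Real.exp (-(D + C₁ * D * |Real.log r₁|)) = Real.exp (-D) * Real.exp (-(C₁ * D * |Real.log r₁|)) := by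
      rw [← Real.exp_add]; congr 1; ring
    rw [h8]
    calc Real.exp (-D) * Real.exp (-(C₁ * D * |Real.log r₁|))
        ≤ (Real.exp (C₁ * D * |Real.log r₁|) * ‖g c‖) * Real.exp (-(C₁ * D * |Real.log r₁|)) := by gcongr
      _ = (Real.exp (C₁ * D * |Real.log r₁|) * Real.exp (-(C₁ * D * |Real.log r₁|))) * ‖g c‖ := by ring
      _ = ‖g c‖ := by rw [← Real.exp_add]; simp
  -- the boundary
  have hgR : ∀ z ∈ closedBall c R, ‖g z‖ ≤ Real.exp (D + C₁ * D * |Real.log (R - r₁)|) := by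
    have hsph : ∀ z ∈ sphere c R, ‖g z‖ ≤ Real.exp (D + C₁ * D * |Real.log (R - r₁)|) := by
      intro z hz
      have hzR : ‖z - c‖ = R := by rwa [mem_sphere, dist_eq_norm] at hz
      have h6 : Real.exp (-(C₁ * D * |Real.log (R - r₁)|)) ≤ ‖Pf s z‖ := by
        refine (exp_le_pow (by linarith) _ hcard).trans (Pf_norm_ge (by linarith) fun ρ hρ => ?_)
        have h7 := (h1 ρ hρ).1
        rw [mem_closedBall, dist_eq_norm] at h7
        have h8 := norm_sub_norm_le (z - c) (ρ - c)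
        have h9 : z - c - (ρ - c) = z - ρ := by ring
        rw [h9, hzR] at h8
        linarith
      have h7 := hb z (sphere_subset_closedBall hz)
      rw [h3 z, norm_mul] at h7
      have h8 : Real.exp (-(C₁ * D * |Real.log (R - r₁)|)) * ‖g z‖ ≤ Real.exp D :=
        (mul_le_mul_of_nonneg_right h6 (norm_nonneg _)).trans h7
      rw [Real.exp_add]
      calc ‖g z‖ = Real.exp (C₁ * D * |Real.log (R - r₁)|) * (Real.exp (-(C₁ * D * |Real.log (R - r₁)|)) * ‖g z‖) := by
            rw [← mul_assoc, ← Real.exp_add]; simp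
        _ ≤ Real.exp (C₁ * D * |Real.log (R - r₁)|) * Real.exp D := by gcongr
        _ = _ := mul_comm _ _
    intro z hz
    have hdc : DiffContOnCl ℂ g (ball c R) := by
      refine DifferentiableOn.diffContOnCl ?_
      rw [closure_ball c hR0.ne']
      exact h2.differentiableOn
    refine Complex.norm_le_of_forall_mem_frontier_norm_le isBounded_ball hdc (fun w hw => ?_) (by rw [closure_ball c hR0.ne']; exact hz)
    rw [frontier_ball c hR0.ne'] at hw
    exact hsph w hw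
  have hratio : ∀ z ∈ closedBall c r₁, ‖g z‖ ≤ Real.exp (C₂ * D) * ‖g c‖ := by
    intro z hz
    refine (hgR z (closedBall_subset_closedBall hR.le hz)).trans ?_
    refine le_trans ?_ (mul_le_mul_of_nonneg_left hgc (Real.exp_pos _).le)
    rw [← Real.exp_add]
    apply Real.exp_le_exp.mpr
    rw [hC₂]
    linarith
  have hld : ∀ z ∈ closedBall c r, ‖logDeriv g z‖ ≤ C₃ * D := by
    intro z hz
    have h6 := logDeriv_zero_free (g := g) (c := c) (r := r₁) (r1 := rm) (r2 := r) (B := C₂ * D) hr (by linarith) (by linarith)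
      (by positivity) (h2.mono (closedBall_subset_closedBall hR.le)) h4 hratio hz
    refine h6.trans ?_
    have h7 : C₂ * D + 1 ≤ (C₂ + 1) * D := by linarith
    have h8 : C₃ * D = 2 * ((C₂ + 1) * D) * rm / (r₁ - rm) / (rm - r) := by rw [hC₃]; ring
    rw [h8]
    gcongr
  have hlow : ∀ z ∈ closedBall c r, Real.exp (-(C₄ * D)) ≤ ‖g z‖ := by
    intro z hz
    have h6 := (lower_of_logDeriv (h2.mono (closedBall_subset_closedBall (hr1.le.trans hR.le)))
      (fun w hw => h4 w (closedBall_subset_closedBall hr1.le hw)) hld (by positivity) hz).1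
    refine le_trans ?_ h6
    refine le_trans ?_ (mul_le_mul_of_nonneg_right hgc (Real.exp_pos _).le)
    rw [← Real.exp_add]
    apply Real.exp_le_exp.mpr
    rw [hC₄]
    linarith
  have m1 : C₁ ≤ max (max 1 C₁) (max C₃ C₄) := (le_max_right _ _).trans (le_max_left _ _)
  have m3 : C₃ ≤ max (max 1 C₁) (max C₃ C₄) := (le_max_left _ _).trans (le_max_right _ _)
  have m4 : C₄ ≤ max (max 1 C₁) (max C₃ C₄) := (le_max_right _ _).trans (le_max_right _ _)
  refine ⟨s, g, h1, h2, h3, h4, hcard.trans (by gcongr), fun z hz => (hld z hz).trans (by gcongr), fun z hz => ?_⟩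
  refine le_trans (Real.exp_le_exp.mpr ?_) (hlow z hz)
  have : C₄ * D ≤ max (max 1 C₁) (max C₃ C₄) * D := by gcongr
  linarith

/-- the reversed polynomial -/
noncomputable def Pr (s : Multiset ℂ) (p w : ℂ) : ℂ := (s.map fun ρ => 1 - (ρ - p) * w).prod

lemma Pr_cons (ρ : ℂ) (s : Multiset ℂ) (p w : ℂ) : Pr (ρ ::ₘ s) p w = (1 - (ρ - p) * w) * Pr s p w := by
  simp [Pr]

lemma Pr_empty (p w : ℂ) : Pr 0 p w = 1 := by simp [Pr]

lemma Pr_diff (s : Multiset ℂ) (p : ℂ) : Differentiable ℂ (Pr s p) := by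
  induction s using Multiset.induction_on with
  | empty =>
    have : Pr 0 p = fun _ => (1 : ℂ) := funext (Pr_empty p)
    rw [this]; exact differentiable_const _
  | cons ρ s ih =>
    have : Pr (ρ ::ₘ s) p = fun z => (1 - (ρ - p) * z) * Pr s p z := funext (Pr_cons ρ s p)
    rw [this]
    exact Differentiable.mul (by fun_prop) ih

lemma Pr_zero (s : Multiset ℂ) (p : ℂ) : Pr s p 0 = 1 := by
  simp [Pr]

lemma Pr_rel (s : Multiset ℂ) (p : ℂ) {w : ℂ} (hw : w ≠ 0) :
    Pf s (p + w⁻¹) = (w⁻¹) ^ Multiset.card s * Pr s p w := by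
  induction s using Multiset.induction_on with
  | empty => simp [Pf_zero, Pr_empty]
  | cons ρ s ih =>
    rw [Pf_cons, ih, Pr_cons, Multiset.card_cons, pow_succ]
    field_simp
    ring

/-- **Chebyshev**: a monic polynomial is not small on a circle -/
theorem cheb (s : Multiset ℂ) (p : ℂ) {ρ₀ : ℝ} (hρ : 0 < ρ₀) : ∃ q : ℂ, ‖q - p‖ = ρ₀ ∧ ρ₀ ^ Multiset.card s ≤ ‖Pf s q‖ := by
  have hρ' : (0 : ℝ) < ρ₀⁻¹ := by positivity
  obtain ⟨w, hw, hmax⟩ := Complex.exists_mem_frontier_isMaxOn_norm (isBounded_ball (x := (0 : ℂ)) (r := ρ₀⁻¹))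
    ⟨0, mem_ball_self hρ'⟩ (Pr_diff s p).diffContOnCl
  rw [frontier_ball (0 : ℂ) hρ'.ne', mem_sphere, dist_zero_right] at hw
  have hw0 : w ≠ 0 := by
    intro h
    rw [h, norm_zero] at hw
    exact hρ'.ne hw
  have h1 : 1 ≤ ‖Pr s p w‖ := by
    have h2 := hmax (subset_closure (mem_ball_self hρ') : (0 : ℂ) ∈ closure (ball 0 ρ₀⁻¹))
    simp only [Function.comp_apply, mem_ofPred_eq] at h2
    rw [Pr_zero, norm_one] at h2
    exact h2
  refine ⟨p + w⁻¹, ?_, ?_⟩
  · rw [add_sub_cancel_left, norm_inv, hw, inv_inv]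
  · rw [Pr_rel s p hw0, norm_mul, norm_pow, norm_inv, hw, inv_inv]
    exact le_mul_of_one_le_right (by positivity) h1

end Pool.Agent.H487.GL
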