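import Pool.Agent.H487.GL.Up
import Pool.Agent.H487.GL.Tc
import Pool.Agent.H487.NZ.HCrude

/-!
# Points near the critical line where the heat flow is not small
-/

set_option autoImplicit false

open MeasureTheory Set Filter Topology Metric
open scoped ComplexConjugate

namespace Pool.Agent.H487.GL

open NB NZ H370.Loc

lemma base_a {X : ℂ → ℂ} {a K M ℓ y : ℝ} (B : Base X a K M ℓ y) : 0 < a := B.ha

/-- the flow far to the right -/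
theorem far_heat (a K T₀ τ₀ R A : ℝ) (hτ₀ : 0 < τ₀) :
    ∃ K₀ ℓ₀ : ℝ, 0 ≤ K₀ ∧ 1 ≤ ℓ₀ ∧ ∀ (X : ℂ → ℂ) (M ℓ y : ℝ), Base X a K M ℓ y → ℓ₀ ≤ ℓ → ∀ τ : ℝ, τ₀ ≤ τ → τ ≤ T₀ →
      ∀ u v : ℝ, a + T₀ ≤ u → u ≤ R → |v| ≤ A →
      M * Real.exp (ℓ * (u + τ / 2) - K₀) ≤ ‖heat (τ / (2 * ℓ)) X (pt y u v)‖ ∧
      ‖heat (τ / (2 * ℓ)) X (pt y u v)‖ ≤ M * Real.exp (ℓ * (u + τ / 2) + K₀) := by
  set K0 : ℝ := |K| * (1 + (R + T₀) ^ 2 + A ^ 2) with hK0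
  have hK00 : 0 ≤ K0 := by positivity
  obtain ⟨L1, hL1, H1⟩ := h1 a K A R T₀ τ₀ hτ₀ (ϑ := 1 / 2) (by norm_num)
  refine ⟨K0 + 1, L1, by linarith, hL1, fun X M ℓ y B hℓ τ hτ hτT u v hu huR hv => ?_⟩
  have hK := B.hK
  have hM := B.hM
  have ha := B.ha
  have hKabs : |K| = K := abs_of_pos (by linarith)
  have hτ0 : 0 < τ := by linarith
  have h4 := H1 X M ℓ y B hℓ τ hτ hτT u v hu huR hv
  have h5 := B.lo (u + τ) v (by linarith)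
  have h6 := B.up (u + τ) v
  have hmax : max |u + τ| a = u + τ := by
    rw [abs_of_nonneg (by linarith)]
    exact max_eq_left (by linarith)
  rw [hmax] at h6
  have hv2 : v ^ 2 ≤ A ^ 2 := by rw [← sq_abs v]; exact pow_le_pow_left₀ (abs_nonneg v) hv 2
  have hu2 : (u + τ) ^ 2 ≤ (R + T₀) ^ 2 := pow_le_pow_left₀ (by linarith) (by linarith) 2
  have hKK : K * (1 + (u + τ) ^ 2 + v ^ 2) ≤ K0 := by
    rw [hK0, hKabs]
    gcongr
  set Y : ℝ := ‖X (pt y (u + τ) v)‖ * Real.exp (-(τ * ℓ / 2)) with hY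
  have hYn : ‖X (pt y (u + τ) v) * ((Real.exp (-(τ * ℓ / 2)) : ℝ) : ℂ)‖ = Y := by
    rw [norm_mul, Complex.norm_real, Real.norm_of_nonneg (Real.exp_pos _).le]
  have hexp1 : Real.exp (-1 : ℝ) ≤ 1 / 2 := by
    rw [Real.exp_neg, ← one_div]
    have := Real.add_one_le_exp (1 : ℝ)
    exact one_div_le_one_div_of_le (by norm_num) (by linarith)
  have hexp2 : (3 : ℝ) / 2 ≤ Real.exp 1 := by
    have := Real.add_one_le_exp (1 : ℝ)
    linarith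
  have hYl : 1 / 2 * Y ≤ ‖heat (τ / (2 * ℓ)) X (pt y u v)‖ := by
    have := norm_sub_norm_le (X (pt y (u + τ) v) * ((Real.exp (-(τ * ℓ / 2)) : ℝ) : ℂ)) (heat (τ / (2 * ℓ)) X (pt y u v))
    rw [norm_sub_rev, hYn] at this
    linarith
  have hYu : ‖heat (τ / (2 * ℓ)) X (pt y u v)‖ ≤ 3 / 2 * Y := by
    have := norm_sub_norm_le (heat (τ / (2 * ℓ)) X (pt y u v)) (X (pt y (u + τ) v) * ((Real.exp (-(τ * ℓ / 2)) : ℝ) : ℂ))
    rw [hYn] at this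
    linarith
  constructor
  · refine le_trans ?_ hYl
    calc M * Real.exp (ℓ * (u + τ / 2) - (K0 + 1))
        ≤ M * Real.exp (-1 + (ℓ * (u + τ) - K * (1 + (u + τ) ^ 2 + v ^ 2)) + -(τ * ℓ / 2)) := by
          refine mul_le_mul_of_nonneg_left (Real.exp_le_exp.mpr ?_) hM.le
          linarith
      _ = Real.exp (-1) * ((M * Real.exp (ℓ * (u + τ) - K * (1 + (u + τ) ^ 2 + v ^ 2))) * Real.exp (-(τ * ℓ / 2))) := by
          rw [Real.exp_add (-1 + _) (-(τ * ℓ / 2)), Real.exp_add (-1) _]; ring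
      _ ≤ 1 / 2 * Y := by rw [hY]; gcongr
  · refine hYu.trans ?_
    calc 3 / 2 * Y ≤ Real.exp 1 * ((M * Real.exp (ℓ * (u + τ) + K * (1 + (u + τ) ^ 2 + v ^ 2))) * Real.exp (-(τ * ℓ / 2))) := by
          rw [hY]; gcongr
      _ = M * Real.exp (1 + (ℓ * (u + τ) + K * (1 + (u + τ) ^ 2 + v ^ 2)) + -(τ * ℓ / 2)) := by
          rw [Real.exp_add (1 + _) (-(τ * ℓ / 2)), Real.exp_add 1 _]; ring
      _ ≤ _ := by
          refine mul_le_mul_of_nonneg_left (Real.exp_le_exp.mpr ?_) hM.le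
          linarith

/-- the normalized function `H(s) e^(-ℓ (s - 1/2)) / (M e^(ℓ τ / 2))` -/
noncomputable def nrm (H : ℂ → ℂ) (M ℓ τ : ℝ) (s : ℂ) : ℂ :=
  H s * Complex.exp (-(ℓ * (s - 1 / 2))) * (((M * Real.exp (ℓ * τ / 2))⁻¹ : ℝ) : ℂ)

lemma nrm_diff {H : ℂ → ℂ} (hH : Differentiable ℂ H) (M ℓ τ : ℝ) : Differentiable ℂ (nrm H M ℓ τ) := by
  unfold nrm
  fun_prop

lemma norm_nrm {H : ℂ → ℂ} {M : ℝ} (hM : 0 < M) (ℓ τ y u v : ℝ) :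
    ‖nrm H M ℓ τ (pt y u v)‖ = ‖H (pt y u v)‖ * Real.exp (-(ℓ * u)) * (M * Real.exp (ℓ * τ / 2))⁻¹ := by
  unfold nrm
  rw [norm_mul, norm_mul, Complex.norm_real, Real.norm_of_nonneg (by positivity), Complex.norm_exp]
  congr 3
  rw [Complex.neg_re, Complex.re_ofReal_mul, Complex.sub_re, pt_re]
  norm_num

lemma nrm_le {H : ℂ → ℂ} {M : ℝ} (hM : 0 < M) {ℓ τ y u v b : ℝ} :
    ‖nrm H M ℓ τ (pt y u v)‖ ≤ Real.exp b ↔ ‖H (pt y u v)‖ ≤ M * Real.exp (ℓ * (u + τ / 2) + b) := by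
  rw [norm_nrm hM, mul_inv_le_iff₀ (by positivity), ← le_mul_inv_iff₀ (Real.exp_pos _), ← Real.exp_neg, neg_neg]
  have e : Real.exp b * (M * Real.exp (ℓ * τ / 2)) * Real.exp (ℓ * u) = M * Real.exp (ℓ * (u + τ / 2) + b) := by
    have : ℓ * (u + τ / 2) + b = b + ℓ * τ / 2 + ℓ * u := by ring
    rw [this, Real.exp_add, Real.exp_add]
    ring
  rw [e]

lemma le_nrm {H : ℂ → ℂ} {M : ℝ} (hM : 0 < M) {ℓ τ y u v b : ℝ} :
    Real.exp b ≤ ‖nrm H M ℓ τ (pt y u v)‖ ↔ M * Real.exp (ℓ * (u + τ / 2) + b) ≤ ‖H (pt y u v)‖ := by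
  rw [norm_nrm hM, le_mul_inv_iff₀ (by positivity), ← mul_inv_le_iff₀ (Real.exp_pos _), ← Real.exp_neg, neg_neg]
  have e : Real.exp b * (M * Real.exp (ℓ * τ / 2)) * Real.exp (ℓ * u) = M * Real.exp (ℓ * (u + τ / 2) + b) := by
    have : ℓ * (u + τ / 2) + b = b + ℓ * τ / 2 + ℓ * u := by ring
    rw [this, Real.exp_add, Real.exp_add]
    ring
  rw [e]

lemma ball_pt {y U v r : ℝ} {w : ℂ} (h : w ∈ closedBall (pt y U v) r) :
    |w.re - 1 / 2 - U| ≤ r ∧ |w.im - y - v| ≤ r := by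
  rw [mem_closedBall, dist_eq_norm] at h
  have h1 := (Complex.abs_re_le_norm (w - pt y U v)).trans h
  have h2 := (Complex.abs_im_le_norm (w - pt y U v)).trans h
  rw [Complex.sub_re, pt_re] at h1
  rw [Complex.sub_im, pt_im] at h2
  exact ⟨by rwa [show w.re - 1 / 2 - U = w.re - (1 / 2 + U) by ring], by rwa [show w.im - y - v = w.im - (y + v) by ring]⟩

lemma pt_sub (y u v u' v' : ℝ) : pt y u v - pt y u' v' = ((u - u' : ℝ) : ℂ) + ((v - v' : ℝ) : ℂ) * Complex.I := by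
  unfold pt
  push_cast
  ring

lemma norm_pt_sub_le (y u v u' v' : ℝ) : ‖pt y u v - pt y u' v'‖ ≤ |u - u'| + |v - v'| := by
  rw [pt_sub]
  refine (norm_add_le _ _).trans ?_
  rw [norm_mul, Complex.norm_I, mul_one, Complex.norm_real, Complex.norm_real, Real.norm_eq_abs, Real.norm_eq_abs]

/-- **points where the flow is not small** -/
theorem low_pt (a K T₀ τ₀ A u₁ ρ₀ ε : ℝ) (ha : 0 < a) (hT₀ : 0 < T₀) (hτ₀ : 0 < τ₀) (hu₁ : 0 < u₁) (hu11 : u₁ ≤ 1) (hρ : 0 < ρ₀)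
    (hρ1 : ρ₀ ≤ 1) (hε : 0 < ε) (hA : 0 ≤ A) :
    ∃ δ ℓ₀ : ℝ, 0 < δ ∧ 1 ≤ ℓ₀ ∧ ∀ (X : ℂ → ℂ) (M ℓ y : ℝ), Base X a K M ℓ y → ℓ₀ ≤ ℓ →
      Lin X a M ℓ y δ (A + (a + T₀ + 2)) → ∀ τ : ℝ, τ₀ ≤ τ → τ ≤ T₀ → ∀ v : ℝ, |v| ≤ A →
      ∃ u' v' : ℝ, |u' - (u₁ + ρ₀)| ≤ ρ₀ ∧ |v' - v| ≤ ρ₀ ∧
        M * Real.exp (ℓ * (u' + τ / 2) - ε * ℓ) ≤ ‖heat (τ / (2 * ℓ)) X (pt y u' v')‖ := by
  set U : ℝ := a + T₀ + 2 with hU
  obtain ⟨C, hC1, HC⟩ := tc (r := U - u₁) (r₁ := U - u₁ / 2) (R := U - u₁ / 4) (by linarith) (by linarith) (by linarith)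
  set ε₁ : ℝ := ε / (C * (1 + |Real.log ρ₀|)) with hε₁
  have hε10 : 0 < ε₁ := by positivity
  have hεC : C * (1 + |Real.log ρ₀|) * ε₁ = ε := by rw [hε₁]; field_simp
  obtain ⟨δ, L1, hδ, hL1, H1⟩ := up_heat a K T₀ (2 * U) (A + U) ε₁ hT₀ hε10
  obtain ⟨K₀, L2, hK₀, hL2, H2⟩ := far_heat a K T₀ τ₀ (2 * U) (A + U) hτ₀
  refine ⟨δ, max L1 (max L2 ((K₀ + 1) / ε₁)), hδ, hL1.trans (le_max_left _ _), fun X M ℓ y B hℓ L τ hτ hτT v hv => ?_⟩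
  have hℓ1 : L1 ≤ ℓ := (le_max_left _ _).trans hℓ
  have hℓ2 : L2 ≤ ℓ := ((le_max_left _ _).trans (le_max_right _ _)).trans hℓ
  have hℓ3 : K₀ + 1 ≤ ε₁ * ℓ := by
    have := ((le_max_right _ _).trans (le_max_right _ _)).trans hℓ
    rw [div_le_iff₀ hε10] at this
    linarith
  have hℓ0 : 1 ≤ ℓ := hL1.trans hℓ1
  have hM := B.hM
  have hτ0 : 0 < τ := by linarith
  set t : ℝ := τ / (2 * ℓ) with ht
  have ht0 : 0 < t := by positivity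
  set H : ℂ → ℂ := heat t X with hH
  have hHd : Differentiable ℂ H := heat_differentiable B.diff B.slow ht0
  have hFd := nrm_diff hHd M ℓ τ
  obtain ⟨s, g, s1, s2, s3, s4, s5, s6, s7⟩ := HC (nrm H M ℓ τ) (pt y U v) (ε₁ * ℓ) (by linarith)
    (fun z _ => hFd.analyticAt z) (fun z hz => by
      obtain ⟨b1, b2⟩ := ball_pt hz
      obtain ⟨b3, b4⟩ := abs_le.mp b1
      rw [pt_eq y z, nrm_le hM]
      have h3 := H1 X M ℓ y B hℓ1 L τ hτ0 hτT (z.re - 1 / 2) (z.im - y)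
        (by rw [abs_of_nonneg (by linarith)]; linarith) (by
          have := abs_add_le (z.im - y - v) v
          rw [sub_add_cancel] at this
          linarith)
      rwa [abs_of_nonneg (by linarith)] at h3) (by
      rw [le_nrm hM]
      have h3 := (H2 X M ℓ y B hℓ2 τ hτ hτT U v (by linarith) (by linarith) (by linarith)).1
      refine le_trans (mul_le_mul_of_nonneg_left (Real.exp_le_exp.mpr ?_) hM.le) h3
      linarith)
  obtain ⟨q, q1, q2⟩ := cheb s (pt y (u₁ + ρ₀) v) hρ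
  have hqc : q ∈ closedBall (pt y U v) (U - u₁) := by
    rw [mem_closedBall, dist_eq_norm]
    have h3 := norm_add_le (q - pt y (u₁ + ρ₀) v) (pt y (u₁ + ρ₀) v - pt y U v)
    rw [sub_add_sub_cancel, q1] at h3
    have h4 := norm_pt_sub_le y (u₁ + ρ₀) v U v
    rw [sub_self, abs_zero, add_zero, abs_of_nonpos (by linarith : u₁ + ρ₀ - U ≤ 0)] at h4
    linarith
  have hqp : q ∈ closedBall (pt y (u₁ + ρ₀) v) ρ₀ := by rw [mem_closedBall, dist_eq_norm, q1]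
  obtain ⟨b1, b2⟩ := ball_pt hqp
  refine ⟨q.re - 1 / 2, q.im - y, b1, b2, ?_⟩
  have h3 := s7 q hqc
  have h4 : Real.exp (-(C * (ε₁ * ℓ) * |Real.log ρ₀|)) ≤ ‖Pf s q‖ := (exp_le_pow hρ _ s5).trans q2
  have h5 : Real.exp (-(ε * ℓ)) ≤ ‖nrm H M ℓ τ q‖ := by
    rw [s3, norm_mul]
    refine le_trans (le_of_eq ?_) (mul_le_mul h4 h3 (Real.exp_pos _).le (norm_nonneg _))
    rw [← Real.exp_add]
    congr 1
    rw [← hεC]
    ring
  rw [pt_eq y q, le_nrm hM] at h5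
  exact h5

end Pool.Agent.H487.GL
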