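import Pool.Agent.H487.GL.Few
import Pool.Agent.H487.GL.Flat2

/-!
# Few zeros of the heat flow off the line give a bound of the function on the line
-/

set_option autoImplicit false

open MeasureTheory Set Filter Topology Metric
open scoped ComplexConjugate

namespace Pool.Agent.H487.GL

open NB NZ H370.Loc H370

lemma mult_mul {f g : ℂ → ℂ} {w : ℂ} (hf : AnalyticAt ℂ f w) (hg : AnalyticAt ℂ g w) (hc : g w ≠ 0) :
    mult (fun z => f z * g z) w = mult f w := by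
  unfold mult analyticOrderNatAt
  have h1 : analyticOrderAt (f * g) w = analyticOrderAt f w + analyticOrderAt g w :=
    analyticOrderAt_mul hf hg
  have h2 : analyticOrderAt g w = 0 := hg.analyticOrderAt_eq_zero.mpr hc
  rw [h2, add_zero] at h1
  have h3 : (fun z => f z * g z) = f * g := rfl
  rw [h3, h1]

lemma mult_nrm {H : ℂ → ℂ} (hH : Differentiable ℂ H) {M : ℝ} (hM : 0 < M) (ℓ τ : ℝ) (w : ℂ) :
    mult (nrm H M ℓ τ) w = mult H w := by
  have e : nrm H M ℓ τ = fun s => H s * (Complex.exp (-(ℓ * (s - 1 / 2))) * (((M * Real.exp (ℓ * τ / 2))⁻¹ : ℝ) : ℂ)) := by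
    funext s
    unfold nrm
    ring
  rw [e]
  refine mult_mul (hH.analyticAt w) ?_ ?_
  · exact Differentiable.analyticAt (by fun_prop) w
  · refine mul_ne_zero (Complex.exp_ne_zero _) ?_
    exact_mod_cast (by positivity : (M * Real.exp (ℓ * τ / 2))⁻¹ ≠ 0)

/-- **few zeros to the right of the line give a bound on the line** -/
theorem size_of_flow (a K T₀ τ₀ η : ℝ) (ha : 0 < a) (hT₀ : 0 < T₀) (hτ₀ : 0 < τ₀) (hη : 0 < η) :
    ∃ A δ ℓ₀ : ℝ, 0 < A ∧ 0 < δ ∧ 1 ≤ ℓ₀ ∧ ∀ (X : ℂ → ℂ) (M ℓ y : ℝ), Base X a K M ℓ y → ℓ₀ ≤ ℓ →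
      ∀ τ : ℝ, τ₀ ≤ τ → τ ≤ T₀ →
      (∀ T : Finset ℂ, (∀ s ∈ T, 1 / 2 < s.re ∧ |s.im - y| ≤ A) → ∑ s ∈ T, (mult (heat (τ / (2 * ℓ)) X) s : ℝ) ≤ δ * ℓ) →
      ‖X (pt y 0 0)‖ ≤ M * Real.exp (ℓ * (τ / 2) + η * ℓ) := by
  set β : ℝ := min 1 (η / 32) with hβ
  have hβ0 : 0 < β := by positivity
  have hβ1 : β ≤ 1 := min_le_left _ _
  have hβη : β ≤ η / 32 := min_le_right _ _
  set R₁ : ℝ := a + T₀ + 3 with hR₁
  obtain ⟨K₂, L1, hK₂, hL1, H2⟩ := h2 a K (2 * R₁ + 2) T₀ hT₀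
  set A₁ : ℝ := 1 + K₂ + 8 * T₀ * K₂ with hA₁
  have hA₁1 : 1 ≤ A₁ := by
    have : 0 ≤ 8 * T₀ * K₂ := by positivity
    linarith
  have hAA : A₁ ≤ A₁ ^ 2 := le_self_pow₀ hA₁1 two_ne_zero
  set A : ℝ := 2 * A₁ + R₁ + 1 with hA
  set K₃ : ℝ := K₂ * (1 + A ^ 2) with hK₃
  have hK₃0 : 0 ≤ K₃ := by positivity
  obtain ⟨K₀, L2, hK₀, hL2, H3⟩ := far_heat a K T₀ τ₀ (2 * R₁ + 2) A hτ₀
  obtain ⟨δ, L3, hδ, hL3, H4⟩ := flat_few (R₁ := R₁) (d := β / 4) (K₃ := K₃) (K₀ := K₀) (ε := η / 8) (by linarith) (by positivity)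
    (by linarith) hK₃0 hK₀ (by positivity)
  refine ⟨A, δ, max L1 (max L2 (max L3 (max (4 * T₀ * K₂) (max (4 * K₂ * A₁ ^ 2) (2 / η))))), by positivity, hδ,
    hL1.trans (le_max_left _ _), fun X M ℓ y B hℓ τ hτ hτT hT => ?_⟩
  have hℓ1 : L1 ≤ ℓ := (le_max_left _ _).trans hℓ
  have l' := (le_max_right _ _).trans hℓ
  have hℓ2 : L2 ≤ ℓ := (le_max_left _ _).trans l'
  have l'' := (le_max_right _ _).trans l'
  have hℓ3 : L3 ≤ ℓ := (le_max_left _ _).trans l''
  have l3 := (le_max_right _ _).trans l''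
  have hℓ4 : 4 * T₀ * K₂ ≤ ℓ := (le_max_left _ _).trans l3
  have l4 := (le_max_right _ _).trans l3
  have hℓ5 : 4 * K₂ * A₁ ^ 2 ≤ ℓ := (le_max_left _ _).trans l4
  have hℓ6 : 2 / η ≤ ℓ := (le_max_right _ _).trans l4
  rw [div_le_iff₀ hη] at hℓ6
  have hℓ0 : 1 ≤ ℓ := hL1.trans hℓ1
  have hℓp : 0 < ℓ := by linarith
  have hM := B.hM
  have hτ0 : 0 < τ := by linarith
  set t : ℝ := τ / (2 * ℓ) with ht
  have ht0 : 0 < t := by positivity
  have hcr := H2 X M ℓ y B hℓ1 τ hτ0 hτT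
  have hfar := H3 X M ℓ y B hℓ2 τ hτ hτT
  set H : ℂ → ℂ := heat t X with hH
  have hHd : Differentiable ℂ H := heat_differentiable B.diff B.slow ht0
  have hFd := nrm_diff hHd M ℓ τ
  have hKA : K₂ * A₁ ^ 2 ≤ ℓ := by
    have : 0 ≤ K₂ * A₁ ^ 2 := by positivity
    linarith
  -- size at distance `β` from the line
  have hside : ∀ v : ℝ, |v| ≤ 2 * A₁ → ‖H (pt y β v)‖ ≤ M * Real.exp (ℓ * (β + τ / 2) + η / 8 * ℓ) := by
    intro v hv
    rw [← nrm_le hM]
    set U : ℝ := β / 2 + R₁ with hU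
    refine H4 ℓ hℓ3 (nrm H M ℓ τ) (pt y U v) (fun z _ => hFd.analyticAt z) (fun z hz => ?_) (fun z hz => ?_) (fun T hTb => ?_) _ ?_
    · obtain ⟨b1, b2⟩ := ball_pt hz
      obtain ⟨b3, b4⟩ := abs_le.mp b1
      rw [pt_eq y z, nrm_le hM]
      have h1 := hcr (z.re - 1 / 2) (z.im - y) (by rw [abs_of_nonneg (by linarith)]; linarith)
      refine h1.trans (mul_le_mul_of_nonneg_left (Real.exp_le_exp.mpr ?_) hM.le)
      have b5 := abs_add_le (z.im - y - v) v
      rw [sub_add_cancel] at b5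
      have h2 : (z.im - y) ^ 2 ≤ A ^ 2 := by
        rw [← sq_abs (z.im - y)]
        exact pow_le_pow_left₀ (abs_nonneg _) (by linarith) 2
      have h3 : A ^ 2 ≤ A ^ 2 * ℓ := le_mul_of_one_le_right (sq_nonneg _) hℓ0
      have h4 : K₂ * (ℓ + (z.im - y) ^ 2) ≤ K₂ * (ℓ + A ^ 2 * ℓ) := mul_le_mul_of_nonneg_left (by linarith) (by linarith)
      have h5 : 0 ≤ ℓ * (z.re - 1 / 2 + τ / 2) := mul_nonneg hℓp.le (by linarith)
      rw [hK₃]
      linarith
    · obtain ⟨b1, b2⟩ := ball_pt hz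
      obtain ⟨b3, b4⟩ := abs_le.mp b1
      have b5 := abs_add_le (z.im - y - v) v
      rw [sub_add_cancel] at b5
      rw [pt_eq y z, le_nrm hM, nrm_le hM]
      exact hfar (z.re - 1 / 2) (z.im - y) (by linarith) (by linarith) (by linarith)
    · refine le_trans (le_of_eq (Finset.sum_congr rfl fun z _ => by rw [mult_nrm hHd hM])) (hT T fun z hz => ?_)
      obtain ⟨b1, b2⟩ := ball_pt (hTb z hz)
      obtain ⟨b3, b4⟩ := abs_le.mp b1
      have b5 := abs_add_le (z.im - y - v) v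
      rw [sub_add_cancel] at b5
      exact ⟨by linarith, by linarith⟩
    · rw [mem_closedBall, dist_eq_norm]
      have h1 := norm_pt_sub_le y β v U v
      rw [sub_self, abs_zero, add_zero, abs_of_nonpos (by linarith : β - U ≤ 0)] at h1
      linarith
  -- functional equation
  obtain ⟨e₀, he₀, hfe⟩ := B.fe
  have hfeH : ∀ s, H s = e₀ * conj (H (1 - conj s)) := fun s => by
    rw [hH, heat_eq_flow B.diff B.slow.type0 ht0]
    exact fe_flow B.diff hfe t s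
  have hsym : ∀ u v : ℝ, ‖H (pt y (-u) v)‖ = ‖H (pt y u v)‖ := by
    intro u v
    rw [hfeH (pt y (-u) v), norm_mul, he₀, one_mul, RCLike.norm_conj]
    congr 2
    apply Complex.ext <;> simp
    ring
  -- the strip
  set P : ℝ := M * Real.exp (ℓ * (β + τ / 2) + η / 8 * ℓ) with hP
  have hP0 : 0 < P := by positivity
  have hstrip : ∀ v : ℝ, |v| ≤ A₁ → ‖H (pt y 0 v)‖ ≤ M * Real.exp (ℓ * (τ / 2) + η / 2 * ℓ) := by
    intro v hv
    have h1 := strip_max hHd (y := y) (β := β) (A := A₁) (c := 1) (D := K₂ + 1) (ℓ := ℓ) (P := P) hβ0 (by linarith) (by norm_num)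
      hℓp.le hP0.le (by
        have : 0 ≤ 8 * T₀ * K₂ := by positivity
        linarith) (fun v hv => ⟨hside v hv, by rw [hsym]; exact hside v hv⟩) (fun u v hu hv => by
        have h1 := hcr u v (by linarith)
        refine h1.trans ?_
        rw [hP, mul_assoc, ← Real.exp_add]
        refine mul_le_mul_of_nonneg_left (Real.exp_le_exp.mpr ?_) hM.le
        have h2 : v ^ 2 ≤ (2 * A₁) ^ 2 := by
          rw [← sq_abs v]
          exact pow_le_pow_left₀ (abs_nonneg _) hv 2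
        have h4 : K₂ * (ℓ + v ^ 2) ≤ K₂ * (ℓ + (2 * A₁) ^ 2) := mul_le_mul_of_nonneg_left (by linarith) (by linarith)
        have h5 : 0 ≤ ℓ * (β + τ / 2) + η / 8 * ℓ := by positivity
        linarith) (u₀ := 0) (v₀ := v) (by rw [abs_zero]; exact hβ0.le) hv
    refine h1.trans ?_
    rw [hP, mul_assoc, ← Real.exp_add]
    refine mul_le_mul_of_nonneg_left (Real.exp_le_exp.mpr ?_) hM.le
    have h2 : β ^ 2 ≤ β := by
      rw [sq]
      exact mul_le_of_le_one_left hβ0.le hβ1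
    have h3 := mul_le_mul_of_nonneg_right h2 hℓp.le
    have h4 := mul_le_mul_of_nonneg_right hβη hℓp.le
    have h5 : 0 < η * ℓ := by positivity
    linarith
  -- recovering `X`
  have hrec := recover B.diff B.slow ht0 (pt y 0 0) (pt y 0 0)
  have hpi := Real.pi_pos
  have h4t : ∀ x : ℝ, x / (4 * t) = x * (ℓ / (2 * τ)) := fun x => by rw [ht]; field_simp; ring
  have hbound : ∀ v : ℝ, ‖H (pt y 0 0 + Complex.I * v) * Complex.exp (-((v + Complex.I * (pt y 0 0 - pt y 0 0)) ^ 2 / (4 * t)))‖ ≤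
      M * Real.exp (ℓ * (τ / 2) + η / 2 * ℓ) * Real.exp (-(ℓ / (8 * τ)) * v ^ 2) := by
    intro v
    have e1 : pt y 0 0 + Complex.I * v = pt y 0 v := by
      unfold pt; push_cast; ring
    have e2 : ‖Complex.exp (-(((v : ℂ) + Complex.I * (pt y 0 0 - pt y 0 0)) ^ 2 / (4 * t)))‖ = Real.exp (-(v ^ 2 * (ℓ / (2 * τ)))) := by
      have h1 := kern_norm t v 0
      simp only [Complex.zero_re, Complex.zero_im, add_zero] at h1
      rw [sub_self, mul_zero, add_zero, h1]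
      congr 1
      rw [h4t]
      ring
    rw [norm_mul, e1, e2]
    rcases le_or_gt |v| A₁ with hv | hv
    · have h1 := hstrip v hv
      refine mul_le_mul h1 (Real.exp_le_exp.mpr ?_) (Real.exp_pos _).le (by positivity)
      have h2 : ℓ / (8 * τ) * v ^ 2 ≤ v ^ 2 * (ℓ / (2 * τ)) := by
        rw [mul_comm]
        refine mul_le_mul_of_nonneg_left ?_ (sq_nonneg v)
        refine div_le_div_of_nonneg_left hℓp.le (by positivity) (by linarith)
      linarith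
    · have h1 := hcr 0 v (by rw [abs_zero]; positivity)
      refine (mul_le_mul_of_nonneg_right h1 (Real.exp_pos _).le).trans ?_
      rw [mul_assoc, ← Real.exp_add, mul_assoc M, ← Real.exp_add]
      refine mul_le_mul_of_nonneg_left (Real.exp_le_exp.mpr ?_) hM.le
      have hv2 : A₁ ≤ v ^ 2 := by
        rw [← sq_abs v]
        exact hAA.trans (pow_le_pow_left₀ (by linarith) hv.le 2)
      -- `K₂ ℓ ≤ v² ℓ / (8 τ)` and `K₂ v² ≤ v² ℓ / (4 τ)`
      have k1 : K₂ * ℓ ≤ v ^ 2 * (ℓ / (8 * τ)) := by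
        rw [← mul_div_assoc, le_div_iff₀ (by positivity)]
        have h2 : 8 * τ * K₂ ≤ v ^ 2 := by
          have h3 : 8 * τ * K₂ ≤ 8 * T₀ * K₂ := by gcongr
          linarith
        have h3 := mul_le_mul_of_nonneg_right h2 hℓp.le
        linarith
      have k2 : K₂ * v ^ 2 ≤ v ^ 2 * (ℓ / (4 * τ)) := by
        rw [mul_comm]
        refine mul_le_mul_of_nonneg_left ?_ (sq_nonneg v)
        rw [le_div_iff₀ (by positivity)]
        have h3 : 4 * τ * K₂ ≤ 4 * T₀ * K₂ := by gcongr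
        linarith
      have e3 : v ^ 2 * (ℓ / (2 * τ)) = v ^ 2 * (ℓ / (4 * τ)) + 2 * (v ^ 2 * (ℓ / (8 * τ))) := by field_simp; ring
      have h5 : 0 ≤ ℓ * (τ / 2) + η / 2 * ℓ := by positivity
      rw [e3]
      linarith
  have hint : Integrable fun v : ℝ => M * Real.exp (ℓ * (τ / 2) + η / 2 * ℓ) * Real.exp (-(ℓ / (8 * τ)) * v ^ 2) :=
    (integrable_exp_neg_mul_sq (by positivity)).const_mul _
  have h6 := norm_integral_le_of_norm_le hint (Eventually.of_forall hbound)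
  rw [hrec, integral_const_mul, integral_gaussian, norm_mul, Complex.norm_real, Real.norm_of_nonneg (Real.sqrt_nonneg _)] at h6
  have e4 : Real.sqrt (Real.pi / (ℓ / (8 * τ))) = 2 * Real.sqrt (4 * Real.pi * t) := by
    have e5 : Real.pi / (ℓ / (8 * τ)) = 2 ^ 2 * (4 * Real.pi * t) := by rw [ht]; field_simp; ring
    rw [e5, Real.sqrt_mul (by norm_num), Real.sqrt_sq (by norm_num)]
  rw [e4] at h6
  have hs : 0 < Real.sqrt (4 * Real.pi * t) := Real.sqrt_pos.mpr (by positivity)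
  have h7 : ‖X (pt y 0 0)‖ ≤ 2 * (M * Real.exp (ℓ * (τ / 2) + η / 2 * ℓ)) := by
    have : Real.sqrt (4 * Real.pi * t) * ‖X (pt y 0 0)‖ ≤ Real.sqrt (4 * Real.pi * t) * (2 * (M * Real.exp (ℓ * (τ / 2) + η / 2 * ℓ))) := by
      linarith
    exact le_of_mul_le_mul_left this hs
  refine h7.trans ?_
  calc 2 * (M * Real.exp (ℓ * (τ / 2) + η / 2 * ℓ)) ≤ Real.exp 1 * (M * Real.exp (ℓ * (τ / 2) + η / 2 * ℓ)) := by
        have := Real.add_one_le_exp (1 : ℝ)
        gcongr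
        linarith
    _ = M * Real.exp (1 + (ℓ * (τ / 2) + η / 2 * ℓ)) := by rw [Real.exp_add 1]; ring
    _ ≤ _ := by
        refine mul_le_mul_of_nonneg_left (Real.exp_le_exp.mpr ?_) hM.le
        linarith

end Pool.Agent.H487.GL
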