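import Pool.Agent.H487.GL.Half2

/-!
# Upper bounds of the heat flow if the function is small on the critical line
-/

set_option autoImplicit false

open MeasureTheory Set Filter Topology
open scoped ComplexConjugate

namespace Pool.Agent.H487.GL

open NB NZ

/-- the completed function has (on the logarithmic scale) the size predicted by the Lindelöf hypothesis near height `y` -/
def Lin (X : ℂ → ℂ) (a M ℓ y δ A : ℝ) : Prop :=
  ∀ u v : ℝ, |u| ≤ a → |v| ≤ A → ‖X (pt y u v)‖ ≤ M * Real.exp (ℓ * |u| + δ * ℓ)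

lemma Lin.all {X : ℂ → ℂ} {a K M ℓ y δ A : ℝ} (B : Base X a K M ℓ y) (L : Lin X a M ℓ y δ A) (hδ : 0 ≤ δ * ℓ) {u v : ℝ}
    (hv : |v| ≤ A) : ‖X (pt y u v)‖ ≤ M * Real.exp (ℓ * |u| + δ * ℓ + K * (1 + u ^ 2 + v ^ 2)) := by
  have hK := B.hK
  have hM := B.hM
  have h0 : 0 ≤ K * (1 + u ^ 2 + v ^ 2) := by
    have := sq_nonneg u
    have := sq_nonneg v
    have : 0 ≤ 1 + u ^ 2 + v ^ 2 := by linarith
    exact mul_nonneg (by linarith) this
  rcases le_total |u| a with h | h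
  · refine (L u v h hv).trans (mul_le_mul_of_nonneg_left (Real.exp_le_exp.mpr (by linarith)) hM.le)
  · have h1 := B.up u v
    rw [max_eq_left h] at h1
    exact h1.trans (mul_le_mul_of_nonneg_left (Real.exp_le_exp.mpr (by linarith)) hM.le)

/-- a Gaussian integral with exponential growth -/
lemma gb {g : ℝ → ℂ} {S : Set ℝ} {r B ℓ τ ε₁ K : ℝ} (hτ : 0 < τ) (hℓ : 0 < ℓ) (hε : 0 < ε₁) (hε1 : ε₁ ≤ 1 / 4)
    (hK : 2 * K ≤ ε₁ * (ℓ / (2 * τ))) (hB : 0 ≤ B) (hS : MeasurableSet S)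
    (hg : ∀ x ∈ S, ‖g x‖ ≤ B * Real.exp (ℓ * |x - r| + 2 * K * (x - r) ^ 2 - (x - r) ^ 2 * (ℓ / (2 * τ)))) :
    ‖∫ x in S, g x‖ ≤ B * Real.exp (ℓ * τ / 2 * (1 + 4 * ε₁)) * Real.sqrt (2 * Real.pi * τ / (ε₁ * ℓ)) := by
  have hq0 : 0 < ε₁ * (ℓ / (2 * τ)) := by positivity
  have hint : Integrable fun x : ℝ => B * Real.exp (ℓ * τ / 2 * (1 + 4 * ε₁)) * Real.exp (-(ε₁ * (ℓ / (2 * τ))) * (x - r) ^ 2) :=
    ((integrable_exp_neg_mul_sq hq0).comp_sub_right r).const_mul _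
  have hval : ∫ x : ℝ, B * Real.exp (ℓ * τ / 2 * (1 + 4 * ε₁)) * Real.exp (-(ε₁ * (ℓ / (2 * τ))) * (x - r) ^ 2) =
      B * Real.exp (ℓ * τ / 2 * (1 + 4 * ε₁)) * Real.sqrt (2 * Real.pi * τ / (ε₁ * ℓ)) := by
    rw [integral_const_mul, integral_sub_right_eq_self (fun x : ℝ => Real.exp (-(ε₁ * (ℓ / (2 * τ))) * x ^ 2)) r,
      integral_gaussian]
    congr 2
    field_simp
  rw [← hval]
  refine (norm_integral_le_of_norm_le hint.integrableOn ?_).trans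
    (setIntegral_le_integral hint (Eventually.of_forall fun x => by positivity))
  filter_upwards [ae_restrict_mem hS] with x hx
  refine (hg x hx).trans ?_
  rw [mul_assoc B, ← Real.exp_add]
  refine mul_le_mul_of_nonneg_left (Real.exp_le_exp.mpr ?_) hB
  -- the quadratic inequality
  set Y : ℝ := |x - r| / τ with hY
  have hYτ : |x - r| = τ * Y := by rw [hY]; field_simp
  have hsq : (x - r) ^ 2 = τ ^ 2 * Y ^ 2 := by rw [← sq_abs, hYτ]; ring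
  have key : 0 ≤ (1 - 2 * ε₁) * Y ^ 2 - 2 * Y + (1 + 4 * ε₁) := by
    have h1 : 0 ≤ (1 - 2 * ε₁) * ((1 - 2 * ε₁) * Y ^ 2 - 2 * Y + (1 + 4 * ε₁)) := by
      have h2 := sq_nonneg ((1 - 2 * ε₁) * Y - 1)
      have h3 := mul_nonneg hε.le (by linarith : 0 ≤ 1 / 4 - ε₁)
      nlinarith
    exact nonneg_of_mul_nonneg_right (by linarith) (by linarith : 0 < 1 - 2 * ε₁)
  have h4 : 2 * K * (x - r) ^ 2 ≤ ε₁ * (ℓ / (2 * τ)) * (x - r) ^ 2 := mul_le_mul_of_nonneg_right hK (sq_nonneg _)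
  have e1 : (x - r) ^ 2 * (ℓ / (2 * τ)) = ℓ * τ / 2 * Y ^ 2 := by rw [hsq]; field_simp
  have e2 : ε₁ * (ℓ / (2 * τ)) * (x - r) ^ 2 = ε₁ * (ℓ * τ / 2 * Y ^ 2) := by rw [← e1]; ring
  have h5 : 0 ≤ ℓ * τ / 2 * ((1 - 2 * ε₁) * Y ^ 2 - 2 * Y + (1 + 4 * ε₁)) := by positivity
  rw [e2] at h4
  have e3 : -(ε₁ * (ℓ / (2 * τ))) * (x - r) ^ 2 = -(ε₁ * (ℓ * τ / 2 * Y ^ 2)) := by rw [← e2]; ring
  rw [e1, e3, hYτ]
  linarith

/-- **upper bound of the heat flow** -/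
theorem up_heat (a K T₀ R A ε : ℝ) (hT₀ : 0 < T₀) (hε : 0 < ε) :
    ∃ δ ℓ₀ : ℝ, 0 < δ ∧ 1 ≤ ℓ₀ ∧ ∀ (X : ℂ → ℂ) (M ℓ y : ℝ), Base X a K M ℓ y → ℓ₀ ≤ ℓ → Lin X a M ℓ y δ A →
      ∀ τ : ℝ, 0 < τ → τ ≤ T₀ → ∀ u v : ℝ, |u| ≤ R → |v| ≤ A →
      ‖heat (τ / (2 * ℓ)) X (pt y u v)‖ ≤ M * Real.exp (ℓ * (|u| + τ / 2) + ε * ℓ) := by
  set ε₁ : ℝ := min (1 / 4) (ε / (8 * T₀)) with hε₁
  have hε10 : 0 < ε₁ := by positivity
  have hε1T : ε₁ * (8 * T₀) ≤ ε := by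
    have : ε₁ ≤ ε / (8 * T₀) := min_le_right _ _
    rwa [le_div_iff₀ (by positivity)] at this
  set C : ℝ := |K| * (1 + 2 * R ^ 2 + A ^ 2) + 1 / ε₁ with hC
  have hC0 : 0 < C := by positivity
  refine ⟨ε / 4, max 1 (max (4 * |K| * T₀ / ε₁) (4 * C / ε)), by positivity, le_max_left _ _,
    fun X M ℓ y B hℓ L τ hτ hτT u v hu hv => ?_⟩
  have hK := B.hK
  have hM := B.hM
  have hKabs : |K| = K := abs_of_pos (by linarith)
  have hℓ1 : 1 ≤ ℓ := (le_max_left _ _).trans hℓ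
  have hℓ0 : 0 < ℓ := by linarith
  have hℓK : 4 * K * T₀ ≤ ε₁ * ℓ := by
    have := ((le_max_left _ _).trans (le_max_right _ _)).trans hℓ
    rw [div_le_iff₀ hε10, hKabs] at this
    linarith
  have hℓC : C ≤ ε / 4 * ℓ := by
    have := ((le_max_right _ _).trans (le_max_right _ _)).trans hℓ
    rw [div_le_iff₀ hε] at this
    linarith
  have hδ : 0 ≤ ε / 4 * ℓ := by positivity
  have hKq : 2 * K ≤ ε₁ * (ℓ / (2 * τ)) := by
    rw [← mul_div_assoc, le_div_iff₀ (by positivity)]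
    have : 2 * K * (2 * τ) ≤ 2 * K * (2 * T₀) := by gcongr
    linarith
  set t : ℝ := τ / (2 * ℓ) with ht
  have ht0 : 0 < t := by positivity
  have h4t : ∀ x : ℝ, x / (4 * t) = x * (ℓ / (2 * τ)) := fun x => by rw [ht]; field_simp; ring
  have h1 := gb (g := fun x : ℝ => X (pt y u v + x) * ((Real.exp (-(x ^ 2 / (4 * t))) : ℝ) : ℂ)) (S := univ) (r := 0)
    (B := M * Real.exp (ℓ * |u| + ε / 4 * ℓ + K * (1 + 2 * u ^ 2 + v ^ 2))) hτ hℓ0 hε10 (min_le_left _ _) hKq (by positivity)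
    MeasurableSet.univ (fun x _ => by
      rw [norm_mul, Complex.norm_real, Real.norm_of_nonneg (Real.exp_pos _).le, sub_zero, h4t]
      have e : pt y u v + x = pt y (u + x) v := by
        apply Complex.ext <;> simp; ring
      rw [e]
      have h2 := L.all B hδ (u := u + x) hv
      refine (mul_le_mul_of_nonneg_right h2 (Real.exp_pos _).le).trans ?_
      rw [mul_assoc, ← Real.exp_add, mul_assoc M, ← Real.exp_add]
      refine mul_le_mul_of_nonneg_left (Real.exp_le_exp.mpr ?_) hM.le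
      have h3 := mul_le_mul_of_nonneg_left (abs_add_le u x) hℓ0.le
      have h4 := mul_nonneg (by linarith : 0 ≤ K) (sq_nonneg (u - x))
      linarith)
  rw [setIntegral_univ] at h1
  unfold heat
  rw [norm_mul, Complex.norm_real, Real.norm_of_nonneg (by positivity)]
  have hsq : 1 / Real.sqrt (4 * Real.pi * t) * Real.sqrt (2 * Real.pi * τ / (ε₁ * ℓ)) ≤ 1 / ε₁ := by
    have hpi := Real.pi_pos
    have e : 2 * Real.pi * τ / (ε₁ * ℓ) = (4 * Real.pi * t) / ε₁ := by rw [ht]; field_simp; ring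
    have hs : 0 < Real.sqrt (4 * Real.pi * t) := Real.sqrt_pos.mpr (by positivity)
    rw [e, Real.sqrt_div (by positivity)]
    have h2 : ε₁ ≤ Real.sqrt ε₁ := by
      have h3 : ε₁ ≤ 1 := (min_le_left _ _).trans (by norm_num)
      rw [Real.le_sqrt' hε10]
      nlinarith
    calc 1 / Real.sqrt (4 * Real.pi * t) * (Real.sqrt (4 * Real.pi * t) / Real.sqrt ε₁) = 1 / Real.sqrt ε₁ := by field_simp
      _ ≤ 1 / ε₁ := one_div_le_one_div_of_le hε10 h2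
  calc 1 / Real.sqrt (4 * Real.pi * t) * ‖∫ x : ℝ, X (pt y u v + x) * ((Real.exp (-(x ^ 2 / (4 * t))) : ℝ) : ℂ)‖
      ≤ 1 / Real.sqrt (4 * Real.pi * t) * (M * Real.exp (ℓ * |u| + ε / 4 * ℓ + K * (1 + 2 * u ^ 2 + v ^ 2)) *
          Real.exp (ℓ * τ / 2 * (1 + 4 * ε₁)) * Real.sqrt (2 * Real.pi * τ / (ε₁ * ℓ))) := by gcongr
    _ = (1 / Real.sqrt (4 * Real.pi * t) * Real.sqrt (2 * Real.pi * τ / (ε₁ * ℓ))) *
          (M * Real.exp (ℓ * |u| + ε / 4 * ℓ + K * (1 + 2 * u ^ 2 + v ^ 2) + ℓ * τ / 2 * (1 + 4 * ε₁))) := by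
        rw [Real.exp_add _ (ℓ * τ / 2 * (1 + 4 * ε₁))]; ring
    _ ≤ Real.exp (1 / ε₁) * (M * Real.exp (ℓ * |u| + ε / 4 * ℓ + K * (1 + 2 * u ^ 2 + v ^ 2) + ℓ * τ / 2 * (1 + 4 * ε₁))) := by
        refine mul_le_mul_of_nonneg_right (hsq.trans ?_) (by positivity)
        have := Real.add_one_le_exp (1 / ε₁)
        linarith
    _ = M * Real.exp (1 / ε₁ + (ℓ * |u| + ε / 4 * ℓ + K * (1 + 2 * u ^ 2 + v ^ 2) + ℓ * τ / 2 * (1 + 4 * ε₁))) := by
        rw [Real.exp_add (1 / ε₁)]; ring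
    _ ≤ _ := by
        refine mul_le_mul_of_nonneg_left (Real.exp_le_exp.mpr ?_) hM.le
        have h2 : u ^ 2 ≤ R ^ 2 := by rw [← sq_abs u]; exact pow_le_pow_left₀ (abs_nonneg _) hu 2
        have h3 : v ^ 2 ≤ A ^ 2 := by rw [← sq_abs v]; exact pow_le_pow_left₀ (abs_nonneg _) hv 2
        have h4 : K * (1 + 2 * u ^ 2 + v ^ 2) ≤ K * (1 + 2 * R ^ 2 + A ^ 2) := by gcongr
        rw [hC, hKabs] at hℓC
        have h5 : ε₁ * τ ≤ ε₁ * T₀ := by gcongr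
        have h6 := mul_le_mul_of_nonneg_right h5 hℓ0.le
        have h7 := mul_le_mul_of_nonneg_right hε1T hℓ0.le
        linarith

/-- **upper bound of the half line average**, centre at the same height or in a cone -/
theorem up_rs (a K T₀ R A ε : ℝ) (hT₀ : 0 < T₀) (ha : 0 < a) (hA : 0 < A) (hε : 0 < ε) :
    ∃ δ ℓ₀ : ℝ, 0 < δ ∧ 1 ≤ ℓ₀ ∧ ∀ (X : ℂ → ℂ) (M ℓ y : ℝ), Base X a K M ℓ y → ℓ₀ ≤ ℓ → Lin X a M ℓ y δ A →
      ∀ τ : ℝ, 0 < τ → τ ≤ T₀ → ∀ u v v₀ : ℝ, |u| ≤ R → |v| ≤ A → |v₀| ≤ A → |v - v₀| ≤ u + τ →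
      ‖RS (τ / (2 * ℓ)) X (y + v₀) (pt y u v)‖ ≤ M * Real.exp (ℓ * (u + τ / 2) + ε * ℓ) := by
  set ε₁ : ℝ := min (1 / 4) (ε / (8 * T₀)) with hε₁
  have hε10 : 0 < ε₁ := by positivity
  have hε1T : ε₁ * (8 * T₀) ≤ ε := by
    have : ε₁ ≤ ε / (8 * T₀) := min_le_right _ _
    rwa [le_div_iff₀ (by positivity)] at this
  set C : ℝ := |K| * (1 + 2 * R ^ 2 + A ^ 2) + (1 + 2 * A) with hC
  have hC0 : 0 < C := by positivity
  refine ⟨ε / 4, max 1 (max (4 * |K| * T₀ / ε₁) (max (4 * C / ε) (2 * Real.pi * T₀ / ε₁))), by positivity, le_max_left _ _,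
    fun X M ℓ y B hℓ L τ hτ hτT u v v₀ hu hv hv₀ hcone => ?_⟩
  have hK := B.hK
  have hM := B.hM
  have hKabs : |K| = K := abs_of_pos (by linarith)
  have hℓ1 : 1 ≤ ℓ := (le_max_left _ _).trans hℓ
  have hℓ0 : 0 < ℓ := by linarith
  have hpi := Real.pi_pos
  have hℓK : 4 * K * T₀ ≤ ε₁ * ℓ := by
    have := ((le_max_left _ _).trans (le_max_right _ _)).trans hℓ
    rw [div_le_iff₀ hε10, hKabs] at this
    linarith
  have hℓC : C ≤ ε / 4 * ℓ := by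
    have := ((le_max_left _ _).trans ((le_max_right _ _).trans (le_max_right _ _))).trans hℓ
    rw [div_le_iff₀ hε] at this
    linarith
  have hℓs : 2 * Real.pi * T₀ ≤ ε₁ * ℓ := by
    have := ((le_max_right _ _).trans ((le_max_right _ _).trans (le_max_right _ _))).trans hℓ
    rw [div_le_iff₀ hε10] at this
    linarith
  have hδ : 0 ≤ ε / 4 * ℓ := by positivity
  have hKq : 2 * K ≤ ε₁ * (ℓ / (2 * τ)) := by
    rw [← mul_div_assoc, le_div_iff₀ (by positivity)]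
    have : 2 * K * (2 * τ) ≤ 2 * K * (2 * T₀) := by gcongr
    linarith
  set t : ℝ := τ / (2 * ℓ) with ht
  have ht0 : 0 < t := by positivity
  have h4t : ∀ x : ℝ, x / (4 * t) = x * (ℓ / (2 * τ)) := fun x => by rw [ht]; field_simp; ring
  -- the centre at the same height
  have h1 := gb (g := fun x : ℝ => X (x + (y + v : ℝ) * Complex.I) * gk t (pt y u v) (x + (y + v : ℝ) * Complex.I)) (S := Ioi (1 / 2)) (r := 1 / 2 + u)
    (B := M * Real.exp (ℓ * u + ε / 4 * ℓ + K * (1 + 2 * u ^ 2 + v ^ 2))) hτ hℓ0 hε10 (min_le_left _ _) hKq (by positivity)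
    measurableSet_Ioi (fun x hx => by
      have e : (x : ℂ) + (y + v : ℝ) * Complex.I = pt y (x - 1 / 2) v := by
        apply Complex.ext <;> simp
      rw [norm_mul, gk_norm, h4t, e, pt_re, pt_im, pt_re, pt_im]
      have hx0 : 0 < x - 1 / 2 := by
        have : (1 / 2 : ℝ) < x := hx
        linarith
      have h2 := L.all B hδ (u := x - 1 / 2) hv
      rw [abs_of_pos hx0] at h2
      refine (mul_le_mul_of_nonneg_right h2 (Real.exp_pos _).le).trans ?_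
      rw [mul_assoc, ← Real.exp_add, mul_assoc M, ← Real.exp_add]
      refine mul_le_mul_of_nonneg_left (Real.exp_le_exp.mpr ?_) hM.le
      have h3 := mul_le_mul_of_nonneg_left (le_abs_self (x - (1 / 2 + u))) hℓ0.le
      have h4 := mul_nonneg (by linarith : 0 ≤ K) (sq_nonneg (x - (1 / 2 + u) - u))
      have e2 : (1 / 2 + (x - 1 / 2) - (1 / 2 + u)) ^ 2 - (y + v - (y + v)) ^ 2 = (x - (1 / 2 + u)) ^ 2 := by ring
      rw [e2]
      linarith)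
  have hsq1 : Real.sqrt (2 * Real.pi * τ / (ε₁ * ℓ)) ≤ 1 := by
    apply Real.sqrt_le_one.mpr
    rw [div_le_one (by positivity)]
    have : 2 * Real.pi * τ ≤ 2 * Real.pi * T₀ := by gcongr
    linarith
  have h2 : u ^ 2 ≤ R ^ 2 := by rw [← sq_abs u]; exact pow_le_pow_left₀ (abs_nonneg _) hu 2
  have h3 : v ^ 2 ≤ A ^ 2 := by rw [← sq_abs v]; exact pow_le_pow_left₀ (abs_nonneg _) hv 2
  have h4 : K * (1 + 2 * u ^ 2 + v ^ 2) ≤ K * (1 + 2 * R ^ 2 + A ^ 2) := by gcongr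
  have hKR : 0 ≤ K * (1 + 2 * R ^ 2 + A ^ 2) := by positivity
  have h6 := mul_le_mul_of_nonneg_right (mul_le_mul_of_nonneg_left hτT hε10.le) hℓ0.le
  have h7 := mul_le_mul_of_nonneg_right hε1T hℓ0.le
  have hsame : ‖RS t X (y + v) (pt y u v)‖ ≤ M * Real.exp (ℓ * (u + τ / 2) + ε / 2 * ℓ + K * (1 + 2 * R ^ 2 + A ^ 2)) := by
    unfold RS
    refine h1.trans ?_
    calc M * Real.exp (ℓ * u + ε / 4 * ℓ + K * (1 + 2 * u ^ 2 + v ^ 2)) * Real.exp (ℓ * τ / 2 * (1 + 4 * ε₁)) *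
          Real.sqrt (2 * Real.pi * τ / (ε₁ * ℓ))
        ≤ M * Real.exp (ℓ * u + ε / 4 * ℓ + K * (1 + 2 * u ^ 2 + v ^ 2)) * Real.exp (ℓ * τ / 2 * (1 + 4 * ε₁)) * 1 := by gcongr
      _ = M * Real.exp (ℓ * u + ε / 4 * ℓ + K * (1 + 2 * u ^ 2 + v ^ 2) + ℓ * τ / 2 * (1 + 4 * ε₁)) := by
          rw [Real.exp_add _ (ℓ * τ / 2 * (1 + 4 * ε₁))]; ring
      _ ≤ _ := by
          refine mul_le_mul_of_nonneg_left (Real.exp_le_exp.mpr ?_) hM.le
          linarith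
  -- the vertical segment
  have hshift := half_shift B.diff B.slow.type0 ht0 (pt y u v) (1 / 2) (y + v₀) (y + v)
  have hseg : ‖∫ w in (y + v₀)..(y + v), X (((1 / 2 : ℝ) : ℂ) + w * Complex.I) * gk t (pt y u v) (((1 / 2 : ℝ) : ℂ) + w * Complex.I)‖ ≤
      (M * Real.exp (ℓ * (u + τ / 2) + ε / 4 * ℓ)) * |y + v - (y + v₀)| := by
    refine intervalIntegral.norm_integral_le_of_norm_le_const fun w hw => ?_
    have hw1 : |w - y - v| ≤ |v - v₀| ∧ |w - y| ≤ A := by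
      obtain ⟨a1, a2⟩ := abs_le.mp hv
      obtain ⟨b1, b2⟩ := abs_le.mp hv₀
      rcases le_total v₀ v with h | h
      · rw [uIoc_of_le (by linarith)] at hw
        rw [abs_of_nonneg (by linarith : 0 ≤ v - v₀), abs_le, abs_le]
        exact ⟨⟨by linarith [hw.1], by linarith [hw.2]⟩, ⟨by linarith [hw.1], by linarith [hw.2]⟩⟩
      · rw [uIoc_of_ge (by linarith)] at hw
        rw [abs_of_nonpos (by linarith : v - v₀ ≤ 0), abs_le, abs_le]
        exact ⟨⟨by linarith [hw.1], by linarith [hw.2]⟩, ⟨by linarith [hw.1], by linarith [hw.2]⟩⟩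
    have e : (((1 / 2 : ℝ) : ℂ) + w * Complex.I) = pt y 0 (w - y) := by
      apply Complex.ext <;> simp
    rw [norm_mul, gk_norm, h4t, e, pt_re, pt_im, pt_re, pt_im]
    have h8 := L 0 (w - y) (by rw [abs_zero]; exact ha.le) hw1.2
    rw [abs_zero, mul_zero, zero_add] at h8
    refine (mul_le_mul_of_nonneg_right h8 (Real.exp_pos _).le).trans ?_
    rw [mul_assoc, ← Real.exp_add]
    refine mul_le_mul_of_nonneg_left (Real.exp_le_exp.mpr ?_) hM.le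
    have e2 : (1 / 2 + 0 - (1 / 2 + u)) ^ 2 - (y + (w - y) - (y + v)) ^ 2 = u ^ 2 - (w - y - v) ^ 2 := by ring
    rw [e2]
    have h9 : (w - y - v) ^ 2 ≤ (u + τ) ^ 2 := by
      rw [← sq_abs (w - y - v)]
      exact pow_le_pow_left₀ (abs_nonneg _) (hw1.1.trans hcone) 2
    have h10 : -((u ^ 2 - (w - y - v) ^ 2) * (ℓ / (2 * τ))) ≤ ((u + τ) ^ 2 - u ^ 2) * (ℓ / (2 * τ)) := by
      rw [← neg_mul]
      refine mul_le_mul_of_nonneg_right ?_ (by positivity)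
      linarith
    have e3 : ((u + τ) ^ 2 - u ^ 2) * (ℓ / (2 * τ)) = ℓ * (u + τ / 2) := by field_simp; ring
    linarith
  have hRS : RS t X (y + v₀) (pt y u v) = RS t X (y + v) (pt y u v) +
      Complex.I * ∫ w in (y + v₀)..(y + v), X (((1 / 2 : ℝ) : ℂ) + w * Complex.I) * gk t (pt y u v) (((1 / 2 : ℝ) : ℂ) + w * Complex.I) := by
    unfold RS
    exact hshift
  have hvv : |y + v - (y + v₀)| ≤ 2 * A := by
    have h8 := abs_sub v v₀
    have e : y + v - (y + v₀) = v - v₀ := by ring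
    rw [e]
    linarith
  rw [hRS]
  refine (norm_add_le _ _).trans ?_
  rw [norm_mul, Complex.norm_I, one_mul]
  calc ‖RS t X (y + v) (pt y u v)‖ + ‖∫ w in (y + v₀)..(y + v), X (((1 / 2 : ℝ) : ℂ) + w * Complex.I) *
        gk t (pt y u v) (((1 / 2 : ℝ) : ℂ) + w * Complex.I)‖
      ≤ M * Real.exp (ℓ * (u + τ / 2) + ε / 2 * ℓ + K * (1 + 2 * R ^ 2 + A ^ 2)) +
          (M * Real.exp (ℓ * (u + τ / 2) + ε / 4 * ℓ)) * (2 * A) := by
        refine add_le_add hsame (hseg.trans ?_)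
        gcongr
    _ ≤ M * Real.exp (ℓ * (u + τ / 2) + ε / 2 * ℓ + K * (1 + 2 * R ^ 2 + A ^ 2)) +
          (M * Real.exp (ℓ * (u + τ / 2) + ε / 2 * ℓ + K * (1 + 2 * R ^ 2 + A ^ 2))) * (2 * A) := by
        have hexp := Real.exp_le_exp.mpr (by linarith : ℓ * (u + τ / 2) + ε / 4 * ℓ ≤
          ℓ * (u + τ / 2) + ε / 2 * ℓ + K * (1 + 2 * R ^ 2 + A ^ 2))
        exact add_le_add le_rfl (mul_le_mul_of_nonneg_right (mul_le_mul_of_nonneg_left hexp hM.le) (by positivity))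
    _ = (1 + 2 * A) * (M * Real.exp (ℓ * (u + τ / 2) + ε / 2 * ℓ + K * (1 + 2 * R ^ 2 + A ^ 2))) := by ring
    _ ≤ Real.exp (1 + 2 * A) * (M * Real.exp (ℓ * (u + τ / 2) + ε / 2 * ℓ + K * (1 + 2 * R ^ 2 + A ^ 2))) := by
        have := Real.add_one_le_exp (1 + 2 * A)
        gcongr
        linarith
    _ = M * Real.exp (1 + 2 * A + (ℓ * (u + τ / 2) + ε / 2 * ℓ + K * (1 + 2 * R ^ 2 + A ^ 2))) := by
        rw [Real.exp_add (1 + 2 * A)]; ring
    _ ≤ _ := by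
        refine mul_le_mul_of_nonneg_left (Real.exp_le_exp.mpr ?_) hM.le
        rw [hC, hKabs] at hℓC
        linarith

end Pool.Agent.H487.GL
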